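import Pool.Agent.K7.H38.TB.Twist

/-!
# The value of a two-bridge diagram
-/

set_option autoImplicit false

namespace Pool.Agent.K7.H38.TB

open Pool.Agent.H835R2 Pool.Agent.H835R2.Knot
open Pool.Agent.Helper454
open Pool.Agent.Helper454.Wh (Rlm lPow mPow)
open LaurentPolynomial

/-! ### strands -/

theorem run_replicate (p : Knot.Piece) (i : ℕ) (hp : p = .pos i ∨ p = .neg i) (n : ℕ) (F : Front) :
    Knot.run (List.replicate (2 * n) p) F = F := by
  induction n with
  | zero => rfl
  | succ n ih =>
    rw [show 2 * (n + 1) = 2 * n + 1 + 1 by ring]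
    show Knot.run (List.replicate (2 * n) p) (p.act (p.act F)) = F
    rw [act_act p p i hp hp, ih]

theorem fits_replicate (p : Knot.Piece) (i : ℕ) (hp : p = .pos i ∨ p = .neg i) (n : ℕ) (F : Front)
    (h : i + 2 ≤ F.n) : Knot.Fits (List.replicate n p) F := by
  induction n generalizing F with
  | zero => trivial
  | succ n ih =>
    rcases hp with rfl | rfl
    · exact ⟨h, ih _ h⟩
    · exact ⟨h, ih _ h⟩

theorem comps_replicate (p : Knot.Piece) (i : ℕ) (hp : p = .pos i ∨ p = .neg i) (n : ℕ)
    (F : Front) : Knot.comps (List.replicate n p) F = 0 := by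
  induction n generalizing F with
  | zero => rfl
  | succ n ih =>
    rcases hp with rfl | rfl
    · show (if false = true then 1 else 0) + Knot.comps (List.replicate n _) _ = 0
      rw [ih]; rfl
    · show (if false = true then 1 else 0) + Knot.comps (List.replicate n _) _ = 0
      rw [ih]; rfl

theorem twist_piece (i : ℕ) (b : ℤ) : (if 0 ≤ b then Knot.Piece.neg i else Knot.Piece.pos i) = .pos i ∨
    (if 0 ≤ b then Knot.Piece.neg i else Knot.Piece.pos i) = .neg i := by
  split_ifs
  · exact Or.inr rfl
  · exact Or.inl rfl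

theorem run_twists (p : Bool) (l : List ℤ) (F : Front) : Knot.run (twists p l) F = F := by
  induction l generalizing p with
  | nil => rfl
  | cons b l ih =>
    rw [twists, run_append, twist, run_replicate _ _ (twist_piece _ _), ih]

theorem fits_twists (p : Bool) (l : List ℤ) (F : Front) (h : 3 ≤ F.n) :
    Knot.Fits (twists p l) F := by
  induction l generalizing p with
  | nil => trivial
  | cons b l ih =>
    rw [twists, fits_append]
    refine ⟨fits_replicate _ _ (twist_piece _ _) _ _ (by split_ifs <;> omega), ?_⟩
    rw [twist, run_replicate _ _ (twist_piece _ _)]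
    exact ih _

theorem comps_twists (p : Bool) (l : List ℤ) (F : Front) : Knot.comps (twists p l) F = 0 := by
  induction l generalizing p F with
  | nil => rfl
  | cons b l ih =>
    rw [twists, comps_append, ih, twist, comps_replicate _ _ (twist_piece _ _)]

/-- The upper part. -/
def tA : Knot.Word := [.birth 0 true, .birth 2 true]
/-- The other upper part. -/
def tB : Knot.Word := [.birth 0 true, .birth 1 false]
/-- The lower part. -/
def y0 : Knot.Word := [.death 1, .death 0]

theorem closed_mid {x : Knot.Word} (p : Bool) (l : List ℤ) (hx : Closed (x ++ y0))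
    (hn : (Knot.run x Front.empty).n = 4) : Closed (x ++ (twists p l ++ y0)) := by
  obtain ⟨h1, h2⟩ := hx
  rw [fits_append] at h1
  rw [run_append] at h2
  refine ⟨?_, ?_⟩
  · rw [fits_append, fits_append, run_twists]
    exact ⟨h1.1, fits_twists _ _ _ (by omega), h1.2⟩
  · rw [run_append, run_append, run_twists]
    exact h2

theorem closed_A0 : Closed (tA ++ y0) := by decide
theorem closed_B0 : Closed (tB ++ y0) := by decide

theorem closed_A (p : Bool) (l : List ℤ) : Closed (tA ++ (twists p l ++ y0)) :=
  closed_mid p l closed_A0 rfl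
theorem closed_B (p : Bool) (l : List ℤ) : Closed (tB ++ (twists p l ++ y0)) :=
  closed_mid p l closed_B0 rfl

theorem twoBridge_eq (l : List ℤ) : twoBridge l = tA ++ (twists true l ++ y0) := by
  unfold twoBridge tA y0
  simp

/-- The two-bridge diagrams are knot diagrams. -/
theorem isKnot_twoBridge (l : List ℤ) : IsKnot (twoBridge l) := by
  rw [twoBridge_eq]
  refine ⟨closed_A _ _, ?_⟩
  rw [comps_append, comps_append, run_twists, comps_twists]
  decide

noncomputable section

/-- The value with the upper part `tA`. -/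
def WA (p : Bool) (l : List ℤ) : Jt := w (tA ++ (twists p l ++ y0))
/-- The value with the upper part `tB`. -/
def WB (p : Bool) (l : List ℤ) : Jt := w (tB ++ (twists p l ++ y0))

theorem WA_true (b : ℤ) (l : List ℤ) : WA true (b :: l) =
    (1 + 2 * (b : Jt) * ep) * WA false l + m * ((b : Jt) + (b : Jt) ^ 2 * ep) * WB false l := by
  have h := closed_A true (b :: l)
  have e : tA ++ (twists true (b :: l) ++ y0) = tA ++ (twist 1 b ++ (twists false l ++ y0)) := by
    show tA ++ ((twist 1 b ++ twists false l) ++ y0) = _
    rw [List.append_assoc]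
  rw [e] at h
  obtain ⟨h1, h2⟩ := w_twist b h (by decide) (by decide)
  have e2 : w (tA ++ [.death 1, .birth 1 ((Knot.run tA Front.empty).dir 1)] ++
      (twists false l ++ y0)) = WB false l := by
    have hd : (Knot.run tA Front.empty).dir 1 = false := by decide
    rw [hd]
    have e3 : tA ++ [.death 1, .birth 1 false] ++ (twists false l ++ y0) =
        [.birth 0 true] ++ [.birth (1 + 1) true, .death 1] ++
          ([.birth 1 false] ++ (twists false l ++ y0)) := by
      unfold tA; simp
    have e4 : [.birth 0 true] ++ [] ++ ([.birth 1 false] ++ (twists false l ++ y0)) =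
        tB ++ (twists false l ++ y0) := by
      unfold tB; simp
    have hc : Closed ([Knot.Piece.birth 0 true] ++ [.birth (1 + 1) true, .death 1] ++
          ([.birth 1 false] ++ (twists false l ++ y0))) := by
      rw [← e3]
      refine closed_mid false l ?_ ?_
      · decide
      · decide
    rw [e3]
    have := iso_move (Knot.Move.zigzag₂ 1 true) hc (by rw [e4]; exact closed_B _ _)
    rw [w_iso this, e4]
    rfl
  rw [e2] at h2
  show w _ = _
  rw [e, h2]
  rfl

theorem WB_true (b : ℤ) (l : List ℤ) : WB true (b :: l) = WB false l := by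
  have h := closed_B true (b :: l)
  have e : tB ++ (twists true (b :: l) ++ y0) =
      [.birth 0 true] ++ [.birth 1 false] ++ (twist 1 b ++ (twists false l ++ y0)) := by
    show tB ++ ((twist 1 b ++ twists false l) ++ y0) = _
    unfold tB
    simp
  rw [e] at h
  show w _ = _
  rw [e]
  exact (birth_absorb2 b.natAbs (twist_piece 1 b) h).2

theorem A_absorb (c : Bool) (p : Knot.Piece) (hp : p = .pos 0 ∨ p = .neg 0) (z : Knot.Word)
    (h : Closed ([.birth 0 c, .birth 2 true] ++ ([p] ++ z))) :
    Closed ([.birth 0 (!c), .birth 2 true] ++ z) ∧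
      w ([.birth 0 c, .birth 2 true] ++ ([p] ++ z)) = w ([.birth 0 (!c), .birth 2 true] ++ z) := by
  have e : [.birth 0 c, .birth 2 true] ++ ([p] ++ z) =
      [.birth 0 c] ++ [.birth 2 true, p] ++ z := by simp
  rw [e] at h ⊢
  have hm : Knot.Move [p, .birth 2 true] [.birth 2 true, p] := by
    rcases hp with rfl | rfl
    · exact Knot.Move.exchange (.pos 0) (.birth 2 true) (by decide)
    · exact Knot.Move.exchange (.neg 0) (.birth 2 true) (by decide)
  have hf : Knot.Fits [p, .birth 2 true] (Knot.run [.birth 0 c] Front.empty) := by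
    rcases hp with rfl | rfl <;> cases c <;> decide
  have hq : Eqv (Knot.run [.birth 2 true, p] (Knot.run [.birth 0 c] Front.empty))
      (Knot.run [p, .birth 2 true] (Knot.run [.birth 0 c] Front.empty)) := by
    rcases hp with rfl | rfl <;> cases c <;>
      exact ⟨rfl, fun k hk => by
        have hk : k < 4 := hk
        interval_cases k <;> rfl⟩
  obtain ⟨h1, h2⟩ := move_of' hm h hf hq
  rw [w_iso h2]
  have e2 : [.birth 0 c] ++ [p, .birth 2 true] ++ z = [] ++ [.birth 0 c, p] ++
      ([.birth 2 true] ++ z) := by simp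
  rw [e2] at h1 ⊢
  obtain ⟨h3, h4⟩ := birth_absorb hp h1
  exact ⟨by simpa using h3, by rw [h4]; simp⟩

theorem A_absorb2 (p : Knot.Piece) (hp : p = .pos 0 ∨ p = .neg 0) (n : ℕ) (z : Knot.Word)
    (h : Closed (tA ++ (List.replicate (2 * n) p ++ z))) :
    w (tA ++ (List.replicate (2 * n) p ++ z)) = w (tA ++ z) := by
  induction n with
  | zero => rfl
  | succ n ih =>
    have e : List.replicate (2 * (n + 1)) p = p :: p :: List.replicate (2 * n) p := by
      rw [show 2 * (n + 1) = 2 * n + 1 + 1 by ring]; rfl
    have e1 : tA ++ (List.replicate (2 * (n + 1)) p ++ z) = [.birth 0 true, .birth 2 true] ++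
        ([p] ++ ([p] ++ (List.replicate (2 * n) p ++ z))) := by
      rw [e]; unfold tA; simp
    rw [e1] at h ⊢
    obtain ⟨h1, h2⟩ := A_absorb _ p hp _ h
    obtain ⟨h3, h4⟩ := A_absorb _ p hp _ h1
    rw [h2, h4]
    exact ih h3

theorem WA_false (b : ℤ) (l : List ℤ) : WA false (b :: l) = WA true l := by
  have h := closed_A false (b :: l)
  have e : tA ++ (twists false (b :: l) ++ y0) = tA ++ (twist 0 b ++ (twists true l ++ y0)) := by
    show tA ++ ((twist 0 b ++ twists true l) ++ y0) = _
    rw [List.append_assoc]
  rw [e] at h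
  show w _ = _
  rw [e]
  exact A_absorb2 _ (twist_piece 0 b) _ _ h

theorem WB_false (b : ℤ) (l : List ℤ) : WB false (b :: l) =
    (1 + 2 * (b : Jt) * ep) * WB true l + m * ((b : Jt) + (b : Jt) ^ 2 * ep) * WA true l := by
  have h := closed_B false (b :: l)
  have e : tB ++ (twists false (b :: l) ++ y0) = tB ++ (twist 0 b ++ (twists true l ++ y0)) := by
    show tB ++ ((twist 0 b ++ twists true l) ++ y0) = _
    rw [List.append_assoc]
  rw [e] at h
  obtain ⟨h1, h2⟩ := w_twist b h (by decide) (by decide)
  have e2 : w (tB ++ [.death 0, .birth 0 ((Knot.run tB Front.empty).dir 0)] ++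
      (twists true l ++ y0)) = WA true l := by
    have hd : (Knot.run tB Front.empty).dir 0 = true := by decide
    rw [hd]
    have e3 : tB ++ [.death 0, .birth 0 true] ++ (twists true l ++ y0) =
        [.birth 0 true] ++ [.birth (0 + 1) false, .death 0] ++
          ([.birth 0 true] ++ (twists true l ++ y0)) := by
      unfold tB; simp
    have e4 : [.birth 0 true] ++ [] ++ ([.birth 0 true] ++ (twists true l ++ y0)) =
        [] ++ [.birth 0 true, .birth 0 true] ++ (twists true l ++ y0) := by
      simp
    have hc : Closed ([Knot.Piece.birth 0 true] ++ [.birth (0 + 1) false, .death 0] ++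
          ([.birth 0 true] ++ (twists true l ++ y0))) := by
      rw [← e3]
      refine closed_mid true l ?_ ?_
      · decide
      · decide
    have hc2 : Closed ([] ++ [Knot.Piece.birth 0 true, .birth 0 true] ++ (twists true l ++ y0)) := by
      refine closed_mid true l ?_ ?_
      · decide
      · decide
    have hc3 : Closed ([] ++ [Knot.Piece.birth 0 true, .birth 2 true] ++ (twists true l ++ y0)) :=
      closed_A _ _
    rw [e3]
    have i1 := iso_move (Knot.Move.zigzag₂ 0 false) hc (by rw [e4]; exact hc2)
    rw [w_iso i1, e4]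
    have i2 := iso_move (Knot.Move.exchange (.birth 0 true) (.birth 0 true) (by decide)) hc3 hc2
    rw [← w_iso i2]
    rfl
  rw [e2] at h2
  show w _ = _
  rw [e, h2]
  rfl

theorem WA_nil (p : Bool) : WA p [] = 1 := by
  show w (tA ++ ([] ++ y0)) = 1
  have e : tA ++ ([] ++ y0) = [.birth 0 true] ++ [.birth (1 + 1) true, .death 1] ++ [.death 0] := rfl
  rw [e, w_iso (iso_move (Knot.Move.zigzag₂ 1 true) (by decide) (by decide))]
  show J (val Knot.circle) = 1
  rw [val_circle, map_one]

theorem WB_nil (p : Bool) : WB p [] = -2 * ep * m' := by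
  show w (tB ++ ([] ++ y0)) = _
  have c1 : Closed (tA ++ [.neg 1] ++ y0) := by decide
  have key := congrArg J (val_anti tA 1 y0 c1 (by decide))
  rw [map_sub, map_mul, map_mul, map_mul, J_l, J_l', J_m] at key
  change (1 - ep) * w _ - (1 + ep) * w _ = m * w _ at key
  have hA : w (tA ++ [.death 1] ++ [.death 0]) = 1 := WA_nil true
  have i1 : w (tA ++ [.neg 1] ++ y0) = 1 := by
    rw [← hA]
    exact (death_absorb (x := tA) (y := [.death 0]) (Or.inr rfl) (by decide)).2
  have i2 : w (tA ++ [.pos 1] ++ y0) = 1 := by
    rw [← hA]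
    exact (death_absorb (x := tA) (y := [.death 0]) (Or.inl rfl) (by decide)).2
  have hd : (Knot.run tA Front.empty).dir (1 + 1) = true := by decide
  rw [i1, i2, hd] at key
  have e1 : tA ++ [.death 1, .birth 1 true] ++ y0 = [.birth 0 true] ++
      [.birth (1 + 1) true, .death 1] ++ [.birth 1 true, .death 1, .death 0] := rfl
  have e2 := w_iso (iso_move (x := [.birth 0 true]) (y := [.birth 1 true, .death 1, .death 0])
    (Knot.Move.zigzag₂ 1 true) (by decide) (by decide))
  have e3 := (birth_absorb (x := [.birth 0 true]) (y := y0) (i := 1) (b := false)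
    (p := .neg 1) (Or.inr rfl) (by decide)).2
  have e4 := (death_absorb (x := tB) (y := [.death 0]) (i := 1) (p := .neg 1) (Or.inr rfl)
    (by decide)).2
  have e5 : w (tA ++ [.death 1, .birth 1 true] ++ y0) = w (tB ++ ([] ++ y0)) := by
    rw [e1, e2]
    have a1 : w ([.birth 0 true] ++ [] ++ [.birth 1 true, .death 1, .death 0]) =
      w ([.birth 0 true] ++ [.birth 1 (!false)] ++ y0) := rfl
    have a2 : w ([.birth 0 true] ++ [.birth 1 false, .neg 1] ++ y0) =
      w (tB ++ [.neg 1, .death 1] ++ [.death 0]) := rfl
    rw [a1, ← e3, a2, e4]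
    rfl
  rw [e5] at key
  have := m_m'
  linear_combination (-m') * key - w (tB ++ ([] ++ y0)) * this

end

end Pool.Agent.K7.H38.TB
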