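import Pool.Agent.K7.H38.TB.Twist

/-!
# Isotopies of open diagrams
-/

set_option autoImplicit false

namespace Pool.Agent.K7.H38.TB

open Pool.Agent.H835R2 Pool.Agent.H835R2.Knot
open Pool.Agent.Y466.FT

/-- A front with given directions. -/
def fr (l : List Bool) : Front := ⟨l.length, fun k => l.getD k true, fun k => k⟩

theorem Eqv.trans {F G H : Front} (h : Eqv F G) (h' : Eqv G H) : Eqv F H :=
  ⟨h.1.trans h'.1, fun k hk => (h.2 k hk).trans (h'.2 k (by rw [← h.1]; exact hk))⟩

instance (F G : Front) : Decidable (Eqv F G) :=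
  inferInstanceAs (Decidable (F.n = G.n ∧ ∀ k < F.n, F.dir k = G.dir k))

/-- The words have the same ends, and they are isotopic in all closed diagrams. -/
structure Sim (l : List Bool) (x y : Knot.Word) : Prop where
  fx : Knot.Fits x (fr l)
  fy : Knot.Fits y (fr l)
  e : Eqv (Knot.run x (fr l)) (Knot.run y (fr l))
  iso : ∀ u v, Eqv (Knot.run u Front.empty) (fr l) → Closed (u ++ x ++ v) →
    Knot.Isotopic (u ++ x ++ v) (u ++ y ++ v)

theorem closed_sim {l : List Bool} {x y u v : Knot.Word} (fx : Knot.Fits x (fr l))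
    (fy : Knot.Fits y (fr l)) (e : Eqv (Knot.run x (fr l)) (Knot.run y (fr l)))
    (hu : Eqv (Knot.run u Front.empty) (fr l)) (h : Closed (u ++ x ++ v)) :
    Closed (u ++ y ++ v) := by
  have h1 := hu.symm.word x fx
  have h2 := hu.symm.word y fy
  exact closed_replace h h2.1 ((h1.2.symm.trans e).trans h2.2)

theorem Sim.refl {l : List Bool} {x : Knot.Word} (h : Knot.Fits x (fr l)) : Sim l x x :=
  ⟨h, h, Eqv.refl _, fun _ _ _ _ => Relation.EqvGen.refl _⟩

theorem Sim.symm {l : List Bool} {x y : Knot.Word} (h : Sim l x y) : Sim l y x :=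
  ⟨h.fy, h.fx, h.e.symm, fun u v hu hc =>
    Relation.EqvGen.symm _ _ (h.iso u v hu (closed_sim h.fy h.fx h.e.symm hu hc))⟩

theorem Sim.trans {l : List Bool} {x y z : Knot.Word} (h : Sim l x y) (h' : Sim l y z) : Sim l x z :=
  ⟨h.fx, h'.fy, h.e.trans h'.e, fun u v hu hc =>
    Relation.EqvGen.trans _ _ _ (h.iso u v hu hc)
      (h'.iso u v hu (closed_sim h.fx h.fy h.e hu hc))⟩

theorem Sim.move {l : List Bool} {x y : Knot.Word} (m : Knot.Move x y) (fx : Knot.Fits x (fr l))
    (fy : Knot.Fits y (fr l)) (e : Eqv (Knot.run x (fr l)) (Knot.run y (fr l))) : Sim l x y :=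
  ⟨fx, fy, e, fun _ _ hu hc => iso_move m hc (closed_sim fx fy e hu hc)⟩

/-- A congruence. -/
theorem Sim.ctx {l l' : List Bool} {x y : Knot.Word} (h : Sim l' x y) {p q : Knot.Word}
    (fp : Knot.Fits p (fr l)) (ep : Eqv (Knot.run p (fr l)) (fr l'))
    (fq : Knot.Fits q (Knot.run x (fr l'))) : Sim l (p ++ x ++ q) (p ++ y ++ q) := by
  have h1 := ep.symm.word x h.fx
  have h2 := ep.symm.word y h.fy
  have h3 := h1.2.word q fq
  have h4 := (h.e.symm.trans h1.2).word q
  have h5 := h.e.word q fq
  have h6 := h2.2.word q h5.1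
  refine ⟨?_, ?_, ?_, ?_⟩
  · rw [fits_append, fits_append, run_append]
    exact ⟨⟨fp, h1.1⟩, h3.1⟩
  · rw [fits_append, fits_append, run_append]
    exact ⟨⟨fp, h2.1⟩, h6.1⟩
  · rw [run_append, run_append, run_append, run_append]
    exact (h3.2.symm.trans h5.2).trans h6.2
  · intro u v hu hc
    have hup : Eqv (Knot.run (u ++ p) Front.empty) (fr l') := by
      rw [run_append]
      exact ((hu.symm.word p fp).2.symm).trans ep
    have e1 : ∀ z, u ++ (p ++ z ++ q) ++ v = (u ++ p) ++ z ++ (q ++ v) := by
      intro z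
      simp only [List.append_assoc]
    rw [e1, e1] at *
    exact h.iso (u ++ p) (q ++ v) hup hc

theorem Sim.left {l l' : List Bool} {x y : Knot.Word} (h : Sim l' x y) {p : Knot.Word}
    (fp : Knot.Fits p (fr l)) (ep : Eqv (Knot.run p (fr l)) (fr l')) :
    Sim l (p ++ x) (p ++ y) := by
  have := h.ctx (q := []) fp ep trivial
  rwa [List.append_nil, List.append_nil] at this

theorem Sim.right {l : List Bool} {x y : Knot.Word} (h : Sim l x y) {q : Knot.Word}
    (fq : Knot.Fits q (Knot.run x (fr l))) : Sim l (x ++ q) (y ++ q) :=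
  h.ctx (p := []) trivial (Eqv.refl _) fq

theorem Sim.isotopic {x y : Knot.Word} (h : Sim [] x y) (hc : Closed x) : Knot.Isotopic x y := by
  have := h.iso [] [] (by decide) (by simpa using hc)
  simpa using this

/-! ### braids with four strands -/

/-- The letters. -/
abbrev Lt : Type := Fin 3 × Bool

/-- The piece of a letter. -/
def toP (a : Lt) : Knot.Piece := if a.2 then .pos a.1.val else .neg a.1.val

/-- The word. -/
def toW (x : List Lt) : Knot.Word := x.map toP

theorem toW_append (x y : List Lt) : toW (x ++ y) = toW x ++ toW y := List.map_append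

theorem toP_cases (a : Lt) : toP a = .pos a.1.val ∨ toP a = .neg a.1.val := by
  unfold toP
  split_ifs
  · exact Or.inl rfl
  · exact Or.inr rfl

theorem toP_fits (a : Lt) (F : Front) (h : 4 ≤ F.n) : (toP a).Fits F := by
  have : a.1.val + 2 ≤ F.n := by have := a.1.isLt; omega
  rcases toP_cases a with h | h <;> rw [h] <;> exact this

theorem toP_n (a : Lt) (F : Front) : ((toP a).act F).n = F.n := by
  rcases toP_cases a with h | h <;> rw [h] <;> rfl

theorem toW_fits (x : List Lt) (F : Front) (h : 4 ≤ F.n) : Knot.Fits (toW x) F := by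
  induction x generalizing F with
  | nil => trivial
  | cons a x ih => exact ⟨toP_fits a F h, ih _ (by rw [toP_n]; exact h)⟩

theorem toW_n (x : List Lt) (F : Front) : (Knot.run (toW x) F).n = F.n := by
  induction x generalizing F with
  | nil => rfl
  | cons a x ih => exact (ih _).trans (toP_n a F)

/-- Every front with `n` strands has directions. -/
theorem exists_fr (F : Front) : ∃ l, l.length = F.n ∧ Eqv F (fr l) := by
  refine ⟨List.ofFn fun k : Fin F.n => F.dir k, by simp, ?_, ?_⟩
  · show F.n = (List.ofFn fun k : Fin F.n => F.dir k).length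
    simp
  · intro k hk
    show F.dir k = (List.ofFn fun k : Fin F.n => F.dir k).getD k true
    simp [List.getD_eq_getElem?_getD, hk]

/-- Equality of braids with four strands. -/
def Br (x y : List Lt) : Prop := ∀ l : List Bool, l.length = 4 → Sim l (toW x) (toW y)

theorem Br.refl (x : List Lt) : Br x x := fun l hl => Sim.refl (toW_fits x _ (by
  show 4 ≤ l.length
  omega))

theorem Br.symm {x y : List Lt} (h : Br x y) : Br y x := fun l hl => (h l hl).symm

theorem Br.trans {x y z : List Lt} (h : Br x y) (h' : Br y z) : Br x z :=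
  fun l hl => (h l hl).trans (h' l hl)

theorem Br.ctx {x y : List Lt} (h : Br x y) (p q : List Lt) : Br (p ++ x ++ q) (p ++ y ++ q) := by
  intro l hl
  obtain ⟨l', h1, h2⟩ := exists_fr (Knot.run (toW p) (fr l))
  have h3 : l'.length = 4 := by rw [h1, toW_n]; exact hl
  rw [toW_append, toW_append, toW_append, toW_append]
  exact (h l' h3).ctx (toW_fits p _ (by show 4 ≤ l.length; omega)) h2
    (toW_fits q _ (by rw [toW_n]; show 4 ≤ l'.length; omega))

theorem Br.mul {x y x' y' : List Lt} (h : Br x x') (h' : Br y y') : Br (x ++ y) (x' ++ y') := by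
  have h1 := h.ctx [] y
  have h2 := h'.ctx x' []
  rw [List.nil_append, List.nil_append] at h1
  rw [List.append_nil, List.append_nil] at h2
  exact h1.trans h2

/-- The inverse letter. -/
def li (a : Lt) : Lt := (a.1, !a.2)

/-- The inverse word. -/
def wi (x : List Lt) : List Lt := (x.map li).reverse

theorem len4 {P : List Bool → Prop} (h : ∀ a b c d : Bool, P [a, b, c, d]) (l : List Bool)
    (hl : l.length = 4) : P l := by
  match l, hl with
  | [a, b, c, d], _ => exact h a b c d

theorem Br.cancel (a : Lt) : Br [a, li a] [] := by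
  obtain ⟨i, s⟩ := a
  refine fun l hl => ?_
  have hm : Knot.Move (toW [(i, s), li (i, s)]) (toW []) := by
    cases s
    · exact Knot.Move.second₂ i.val
    · exact Knot.Move.second₁ i.val
  refine Sim.move hm (toW_fits _ _ (by show 4 ≤ l.length; omega)) trivial ?_
  show Eqv ((toP (li (i, s))).act ((toP (i, s)).act (fr l))) (fr l)
  rw [act_act _ _ i.val (toP_cases (i, s)) (toP_cases (li (i, s)))]
  exact Eqv.refl _

theorem li_li (a : Lt) : li (li a) = a := by
  obtain ⟨i, s⟩ := a
  simp [li]

theorem Br.inv (x : List Lt) : Br (wi x ++ x) [] := by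
  induction x with
  | nil => exact Br.refl _
  | cons a x ih =>
    have h1 : wi (a :: x) ++ (a :: x) = wi x ++ [li a, a] ++ x := by
      simp [wi]
    rw [h1]
    have h2 := (Br.cancel (li a)).ctx (wi x) x
    rw [li_li, List.append_nil] at h2
    exact h2.trans ih

theorem wi_append (x y : List Lt) : wi (x ++ y) = wi y ++ wi x := by simp [wi]

theorem wi_wi (x : List Lt) : wi (wi x) = x := by
  unfold wi
  rw [List.map_reverse, List.reverse_reverse, List.map_map]
  have : li ∘ li = id := funext li_li
  rw [this, List.map_id]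

theorem Br.inv' (x : List Lt) : Br (x ++ wi x) [] := by
  have := Br.inv (wi x)
  rwa [wi_wi] at this

theorem Br.wi {x y : List Lt} (h : Br x y) : Br (wi x) (wi y) := by
  have h1 : Br (TB.wi x) (TB.wi x ++ (y ++ TB.wi y)) := by
    have := (Br.inv' y).symm.ctx (TB.wi x) []
    rw [List.append_nil, List.append_nil, List.append_nil] at this
    exact this
  have h2 : Br (TB.wi x ++ (y ++ TB.wi y)) (TB.wi x ++ (x ++ TB.wi y)) := by
    have := h.symm.ctx (TB.wi x) (TB.wi y)
    rwa [List.append_assoc, List.append_assoc] at this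
  have h3 : Br (TB.wi x ++ (x ++ TB.wi y)) (TB.wi y) := by
    have := (Br.inv x).ctx [] (TB.wi y)
    rwa [List.nil_append, List.nil_append, List.nil_append, List.append_assoc] at this
  exact h1.trans (h2.trans h3)

instance brSetoid : Setoid (List Lt) := ⟨Br, Br.refl, Br.symm, Br.trans⟩

/-- The braid group with four strands. -/
def Q : Type := Quotient brSetoid

/-- The class of a word. -/
def mk (x : List Lt) : Q := Quotient.mk brSetoid x

theorem mk_eq {x y : List Lt} (h : Br x y) : mk x = mk y := Quotient.sound h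

theorem br_of {x y : List Lt} (h : mk x = mk y) : Br x y := Quotient.exact h

instance : Mul Q := ⟨Quotient.map₂ (· ++ ·) fun _ _ h _ _ h' => Br.mul h h'⟩
instance : One Q := ⟨mk []⟩
instance : Inv Q := ⟨Quotient.map wi fun _ _ h => Br.wi h⟩

theorem mk_mul (x y : List Lt) : mk (x ++ y) = mk x * mk y := rfl
theorem mk_nil : mk [] = 1 := rfl
theorem mk_inv (x : List Lt) : mk (wi x) = (mk x)⁻¹ := rfl

instance : Group Q :=
  Group.ofLeftAxioms
    (by
      intro a b c
      induction a using Quotient.ind
      induction b using Quotient.ind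
      induction c using Quotient.ind
      exact congrArg mk (List.append_assoc _ _ _))
    (by
      intro a
      induction a using Quotient.ind
      rfl)
    (by
      intro a
      induction a using Quotient.ind
      exact Quotient.sound (Br.inv _))

theorem sim_of {x y : List Lt} (h : mk x = mk y) {l : List Bool} (hl : l.length = 4) :
    Sim l (toW x) (toW y) := br_of h l hl

/-- The generators. -/
def gn (i : Fin 3) : Q := mk [(i, true)]

theorem mk_cons (a : Lt) (x : List Lt) : mk (a :: x) = mk [a] * mk x := rfl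

theorem mk_true (i : Fin 3) : mk [(i, true)] = gn i := rfl

theorem mk_false (i : Fin 3) : mk [(i, false)] = (gn i)⁻¹ := rfl

theorem fr_dir_eq {l : List Bool} {x y : List Lt}
    (h : ∀ k < l.length, (Knot.run (toW x) (fr l)).dir k = (Knot.run (toW y) (fr l)).dir k) :
    Eqv (Knot.run (toW x) (fr l)) (Knot.run (toW y) (fr l)) := by
  refine ⟨by rw [toW_n, toW_n], fun k hk => h k ?_⟩
  rw [toW_n] at hk
  exact hk

theorem gn_comm : gn 0 * gn 2 = gn 2 * gn 0 := by
  refine mk_eq (x := [(0, true), (2, true)]) (y := [(2, true), (0, true)]) fun l hl => ?_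
  have h4 : 4 ≤ (fr l).n := by show 4 ≤ l.length; omega
  refine Sim.move (Knot.Move.exchange (.pos 0) (.pos 2) (by decide)) (toW_fits _ _ h4)
    (toW_fits _ _ h4) ?_
  revert l
  refine fun l hl _ => len4 (P := fun l => Eqv (Knot.run (toW [(0, true), (2, true)]) (fr l))
    (Knot.run (toW [(2, true), (0, true)]) (fr l))) ?_ l hl
  decide

theorem gn_braid₀ : gn 0 * gn 1 * gn 0 = gn 1 * gn 0 * gn 1 := by
  refine mk_eq (x := [(0, true), (1, true), (0, true)]) (y := [(1, true), (0, true), (1, true)])
    fun l hl => ?_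
  have h4 : 4 ≤ (fr l).n := by show 4 ≤ l.length; omega
  refine Sim.move (Knot.Move.third 0) (toW_fits _ _ h4) (toW_fits _ _ h4) ?_
  revert l
  refine fun l hl _ => len4 (P := fun l => Eqv
    (Knot.run (toW [(0, true), (1, true), (0, true)]) (fr l))
    (Knot.run (toW [(1, true), (0, true), (1, true)]) (fr l))) ?_ l hl
  decide

theorem gn_braid₁ : gn 1 * gn 2 * gn 1 = gn 2 * gn 1 * gn 2 := by
  refine mk_eq (x := [(1, true), (2, true), (1, true)]) (y := [(2, true), (1, true), (2, true)])
    fun l hl => ?_
  have h4 : 4 ≤ (fr l).n := by show 4 ≤ l.length; omega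
  refine Sim.move (Knot.Move.third 1) (toW_fits _ _ h4) (toW_fits _ _ h4) ?_
  revert l
  refine fun l hl _ => len4 (P := fun l => Eqv
    (Knot.run (toW [(1, true), (2, true), (1, true)]) (fr l))
    (Knot.run (toW [(2, true), (1, true), (2, true)]) (fr l))) ?_ l hl
  decide

end Pool.Agent.K7.H38.TB
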