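import Pool.Agent.K7.H38.TB.Quad

/-!
# Degrees, uniqueness and symmetries of continuants
-/

set_option autoImplicit false

namespace Pool.Agent.K7.H38.TB

open Polynomial

noncomputable section

variable {R : Type} [CommRing R]

/-- Induction over lists of even length. -/
theorem even_induction {α : Type} {P : (l : List α) → Even l.length → Prop}
    (h0 : ∀ h, P [] h)
    (h2 : ∀ a b l (hl : Even l.length) (h : Even (a :: b :: l).length), P l hl → P (a :: b :: l) h) :
    ∀ (l : List α) (h : Even l.length), P l h
  | [], h => h0 h
  | [a], h => absurd h (by simp)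
  | a :: b :: l, h => by
    have hl : Even l.length := by
      have h' := h
      have : (a :: b :: l).length = l.length + 2 := rfl
      rw [this] at h'
      exact (Nat.even_add.1 h').2 even_two
    exact h2 a b l hl h (even_induction h0 h2 l hl)

theorem quad_cons2 (a b : R) (l : List R) : quad true (a :: b :: l) =
    ⟨(quad true l).A + C a * X * ((quad true l).C + C b * (quad true l).A),
      (quad true l).B + C a * ((quad true l).D + C b * X * (quad true l).B),
      (quad true l).C + C b * (quad true l).A,
      (quad true l).D + C b * X * (quad true l).B⟩ := rfl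

/-- The degrees. -/
theorem quad_degree [IsDomain R] (l : List R) (hl : Even l.length) (h0 : ∀ x ∈ l, x ≠ 0) :
    (quad true l).A.coeff (l.length / 2) = l.prod ∧
    (∀ n, l.length / 2 < n → (quad true l).A.coeff n = 0) ∧
    (∀ n, l.length / 2 ≤ n → (quad true l).B.coeff n = 0) ∧
    (∀ n, l.length / 2 ≤ n → (quad true l).C.coeff n = 0) ∧
    (∀ n, l.length / 2 < n → (quad true l).D.coeff n = 0) := by
  induction l, hl using even_induction with
  | h0 =>
    refine ⟨by simp [quad], fun n hn => ?_, fun n _ => by simp [quad], fun n _ => by simp [quad],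
      fun n hn => ?_⟩
    · have : n ≠ 0 := by simp at hn; omega
      simp [quad, Polynomial.coeff_one, this]
    · have : n ≠ 0 := by simp at hn; omega
      simp [quad, Polynomial.coeff_one, this]
  | h2 a b l hl _ ih =>
    obtain ⟨i1, i2, i3, i4, i5⟩ := ih fun x hx => h0 x (by simp [hx])
    have hg : (a :: b :: l).length / 2 = l.length / 2 + 1 := by
      simp only [List.length_cons]; omega
    rw [hg]
    set g := l.length / 2 with hgdef
    have hx : ∀ (c : R) (p : R[X]) (n : ℕ), (C c * X * p).coeff (n + 1) = c * p.coeff n := by
      intro c p n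
      rw [mul_assoc, coeff_C_mul, coeff_X_mul]
    have hn1 : ∀ n, g < n → ∃ k, n = k + 1 ∧ g ≤ k := fun n hn => ⟨n - 1, by omega, by omega⟩
    refine ⟨?_, ?_, ?_, ?_, ?_⟩
    · rw [quad_cons2]
      simp only [coeff_add, hx, coeff_C_mul]
      rw [i2 _ (by omega), i4 _ le_rfl, i1]
      simp only [List.prod_cons]
      ring
    · intro n hn
      obtain ⟨k, rfl, hk⟩ := hn1 n (by omega)
      rw [quad_cons2]
      simp only [coeff_add, hx, coeff_C_mul]
      rw [i2 _ (by omega), i4 _ (by omega), i2 _ (by omega)]
      ring
    · intro n hn
      obtain ⟨k, rfl, hk⟩ := hn1 n (by omega)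
      rw [quad_cons2]
      simp only [coeff_add, hx, coeff_C_mul]
      rw [i3 _ (by omega), i3 _ (by omega), i5 _ (by omega)]
      ring
    · intro n hn
      rw [quad_cons2]
      simp only [coeff_add, coeff_C_mul]
      rw [i4 _ (by omega), i2 _ (by omega)]
      ring
    · intro n hn
      obtain ⟨k, rfl, hk⟩ := hn1 n (by omega)
      rw [quad_cons2]
      simp only [coeff_add, hx]
      rw [i3 _ (by omega), i5 _ (by omega)]
      ring

theorem prod_ne_zero' [IsDomain R] {l : List R} (h0 : ∀ x ∈ l, x ≠ 0) : l.prod ≠ 0 := by
  rw [Ne, List.prod_eq_zero_iff]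
  exact fun h => h0 0 h rfl

/-- The polynomials `A` and `C` determine the list. -/
theorem quad_inj [IsDomain R] (l : List R) (hl : Even l.length) : ∀ l' : List R,
    Even l'.length → (∀ x ∈ l, x ≠ 0) → (∀ x ∈ l', x ≠ 0) →
    (quad true l).A = (quad true l').A → (quad true l).C = (quad true l').C → l = l' := by
  have hlen : ∀ l l' : List R, Even l.length → Even l'.length → (∀ x ∈ l, x ≠ 0) →
      (∀ x ∈ l', x ≠ 0) → (quad true l).A = (quad true l').A → l.length = l'.length := by
    intro l l' hl hl' h0 h0' hA
    obtain ⟨i1, i2, -⟩ := quad_degree l hl h0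
    obtain ⟨j1, j2, -⟩ := quad_degree l' hl' h0'
    have h1 : l'.length / 2 ≤ l.length / 2 := by
      by_contra hc
      have := i2 _ (not_le.1 hc)
      rw [hA, j1] at this
      exact prod_ne_zero' h0' this
    have h2 : l.length / 2 ≤ l'.length / 2 := by
      by_contra hc
      have := j2 _ (not_le.1 hc)
      rw [← hA, i1] at this
      exact prod_ne_zero' h0 this
    obtain ⟨u, hu⟩ := hl
    obtain ⟨v, hv⟩ := hl'
    omega
  induction l, hl using even_induction with
  | h0 =>
    intro l' hl' _ h0' hA _
    have := hlen [] l' (by simp) hl' (by simp) h0' hA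
    exact (List.length_eq_zero_iff.1 this.symm).symm
  | h2 a b l hl _ ih =>
    intro l' hl' h0 h0' hA hC
    have hlen' := hlen _ l' (by simp only [List.length_cons]; exact (hl.add even_two)) hl' h0 h0' hA
    obtain ⟨a', b', t, rfl⟩ : ∃ a' b' t, l' = a' :: b' :: t := by
      match l', hlen' with
      | a' :: b' :: t, _ => exact ⟨a', b', t, rfl⟩
    have hlt : t.length = l.length := by simpa using hlen'.symm
    have ht : Even t.length := by rw [hlt]; exact hl
    have h0l : ∀ x ∈ l, x ≠ 0 := fun x hx => h0 x (by simp [hx])
    have h0t : ∀ x ∈ t, x ≠ 0 := fun x hx => h0' x (by simp [hx])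
    obtain ⟨i1, i2, -, i4, -⟩ := quad_degree l hl h0l
    obtain ⟨j1, j2, -, j4, -⟩ := quad_degree t ht h0t
    rw [quad_cons2, quad_cons2] at hA hC
    simp only at hA hC
    set g := l.length / 2 with hg
    have hg' : t.length / 2 = g := by rw [hlt]
    rw [hg'] at j1 j2 j4
    have hx : ∀ (c : R) (p : R[X]) (n : ℕ), (C c * X * p).coeff (n + 1) = c * p.coeff n := by
      intro c p n
      rw [mul_assoc, coeff_C_mul, coeff_X_mul]
    -- the leading coefficient of `C`
    have c1 : ((quad true l).C + C b * (quad true l).A).coeff g = b * l.prod := by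
      simp only [coeff_add, coeff_C_mul]
      rw [i4 _ le_rfl, i1, zero_add]
    have hb : b ≠ 0 := h0 b (by simp)
    have hp : b * l.prod ≠ 0 := mul_ne_zero hb (prod_ne_zero' h0l)
    have haa : a = a' := by
      have e := congrArg (fun p => p.coeff (g + 1)) hA
      simp only [coeff_add, hx] at e
      rw [i2 _ (by omega), j2 _ (by omega), zero_add, zero_add, ← coeff_add, ← coeff_add, ← hC,
        c1] at e
      exact mul_right_cancel₀ hp e
    subst haa
    have hA2 : (quad true l).A = (quad true t).A := by
      rw [hC] at hA
      exact add_right_cancel hA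
    have hbb : b = b' := by
      have e := congrArg (fun p => p.coeff g) hC
      simp only [coeff_add, coeff_C_mul] at e
      rw [i4 _ le_rfl, j4 _ le_rfl, hA2, zero_add, zero_add, j1] at e
      exact mul_right_cancel₀ (prod_ne_zero' h0t) e
    subst hbb
    have hC2 : (quad true l).C = (quad true t).C := by
      rw [hA2] at hC
      exact add_right_cancel hC
    rw [ih t ht h0l h0t hA2 hC2]

theorem quad_append2 (l : List R) (hl : Even l.length) (a b : R) : quad true (l ++ [a, b]) =
    ⟨(quad true l).A + C b * X * ((quad true l).B + C a * (quad true l).A),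
      (quad true l).B + C a * (quad true l).A,
      (quad true l).C + C b * ((quad true l).D + C a * X * (quad true l).C),
      (quad true l).D + C a * X * (quad true l).C⟩ := by
  induction l, hl using even_induction with
  | h0 => simp [quad, mul_assoc]; ring
  | h2 c d l hl _ ih =>
    rw [List.cons_append, List.cons_append, quad_cons2, ih, quad_cons2]
    simp only [Quad.mk.injEq]
    refine ⟨?_, ?_, ?_, ?_⟩ <;> ring

/-- Reversing the list exchanges `B` and `C`. -/
theorem quad_reverse (l : List R) (hl : Even l.length) : quad true l.reverse =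
    ⟨(quad true l).A, (quad true l).C, (quad true l).B, (quad true l).D⟩ := by
  induction l, hl using even_induction with
  | h0 => rfl
  | h2 a b l hl _ ih =>
    have e : (a :: b :: l).reverse = l.reverse ++ [b, a] := by simp
    rw [e, quad_append2 _ (by simpa using hl), ih, quad_cons2]

theorem quad_neg (p : Bool) (l : List R) : quad p (l.map fun x => -x) =
    ⟨(quad p l).A, -(quad p l).B, -(quad p l).C, (quad p l).D⟩ := by
  induction l generalizing p with
  | nil => cases p <;> simp [quad]
  | cons b l ih =>
    cases p
    · simp only [List.map_cons, quad, ih true, Quad.mk.injEq, map_neg, true_and]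
      constructor <;> ring
    · simp only [List.map_cons, quad, ih false, Quad.mk.injEq, map_neg, and_true]
      constructor <;> ring

/-- Change of the ring. -/
theorem quad_map {S : Type} [CommRing S] (f : R →+* S) (p : Bool) (l : List R) :
    quad p (l.map f) = ⟨(quad p l).A.map f, (quad p l).B.map f, (quad p l).C.map f,
      (quad p l).D.map f⟩ := by
  induction l generalizing p with
  | nil => cases p <;> simp [quad]
  | cons b l ih =>
    cases p
    · simp [quad, ih true]
    · simp [quad, ih false]

end

end Pool.Agent.K7.H38.TB
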