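import Pool.Agent.Helper454.Wh.Homf.E12

/-!
# The values of the HOMFLY operators are in every subring which contains the parameters
-/

set_option autoImplicit false
set_option linter.unusedVariables false

namespace Pool.Agent.K7.H38.TB

open Pool.Agent.Helper454
open Pool.Agent.Helper454.Wh.Homf

noncomputable section

variable {R : Type} [CommRing R] {S : Subring R}

/-- All coefficients are in `S`. -/
def Ok (S : Subring R) (v : V R) : Prop := ∀ t, v t ∈ S

/-- The operator preserves `Ok`. -/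
def OkOp (S : Subring R) (F : V R →ₗ[R] V R) : Prop := ∀ v, Ok S v → Ok S (F v)

theorem Ok.zero : Ok S 0 := fun _ => zero_mem _
theorem Ok.add {v w : V R} (hv : Ok S v) (hw : Ok S w) : Ok S (v + w) :=
  fun t => add_mem (hv t) (hw t)
theorem Ok.sub {v w : V R} (hv : Ok S v) (hw : Ok S w) : Ok S (v - w) :=
  fun t => sub_mem (hv t) (hw t)
theorem Ok.smul {r : R} {v : V R} (hr : r ∈ S) (hv : Ok S v) : Ok S (r • v) :=
  fun t => mul_mem hr (hv t)
theorem Ok.single (t : List (ℕ × Bool)) {r : R} (hr : r ∈ S) : Ok S (Finsupp.single t r) := by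
  intro s
  rw [Finsupp.single_apply]
  split_ifs
  · exact hr
  · exact zero_mem _
theorem Ok.sum {ι : Type} (s : Finset ι) (f : ι → V R) (h : ∀ i ∈ s, Ok S (f i)) :
    Ok S (∑ i ∈ s, f i) := by
  classical
  induction s using Finset.induction_on with
  | empty => exact Ok.zero
  | insert a s ha ih =>
    rw [Finset.sum_insert ha]
    exact (h a (Finset.mem_insert_self _ _)).add
      (ih fun i hi => h i (Finset.mem_insert_of_mem hi))

theorem okOp_lin (f : List (ℕ × Bool) → V R) (hf : ∀ l, Ok S (f l)) :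
    OkOp S (Finsupp.linearCombination R f) := by
  intro v hv
  rw [Finsupp.linearCombination_apply]
  exact Ok.sum _ _ fun i _ => Ok.smul (hv i) (hf i)

theorem okOp_lmap (g : List (ℕ × Bool) → List (ℕ × Bool)) :
    OkOp S (Finsupp.lmapDomain R R g) := by
  intro v hv
  rw [Finsupp.lmapDomain_apply, Finsupp.mapDomain]
  exact Ok.sum _ _ fun i _ => Ok.single _ (hv i)

theorem okOp_P (e : ℕ) (b : Bool) : OkOp S (P e b : V R →ₗ[R] V R) := by
  unfold Wh.Homf.P
  exact okOp_lmap _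
theorem okOp_B (l : ℕ) (c : Bool) : OkOp S (B l c : V R →ₗ[R] V R) := by
  unfold Wh.Homf.B
  exact okOp_lmap _

theorem okOp_blk (F : ℕ → Bool → V R →ₗ[R] V R) (hF : ∀ e b, OkOp S (F e b)) :
    OkOp S (blk F) := by
  unfold Wh.Homf.blk
  refine okOp_lin _ fun l => ?_
  cases l with
  | nil => exact Ok.zero
  | cons p t => exact hF _ _ _ (Ok.single _ (one_mem _))

theorem okOp_pr (j : ℕ) (c : Bool) : OkOp S (pr j c : V R →ₗ[R] V R) := by
  unfold Wh.Homf.pr
  refine okOp_lin _ fun l => ?_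
  split_ifs
  · exact Ok.single _ (one_mem _)
  · exact Ok.zero

theorem OkOp.comp {F G : V R →ₗ[R] V R} (hF : OkOp S F) (hG : OkOp S G) : OkOp S (F.comp G) :=
  fun v hv => hF _ (hG _ hv)
theorem OkOp.add {F G : V R →ₗ[R] V R} (hF : OkOp S F) (hG : OkOp S G) : OkOp S (F + G) :=
  fun v hv => (hF _ hv).add (hG _ hv)
theorem OkOp.sub {F G : V R →ₗ[R] V R} (hF : OkOp S F) (hG : OkOp S G) : OkOp S (F - G) :=
  fun v hv => (hF _ hv).sub (hG _ hv)
theorem OkOp.smul {r : R} {F : V R →ₗ[R] V R} (hr : r ∈ S) (hF : OkOp S F) :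
    OkOp S (r • F) := fun v hv => (hF _ hv).smul hr
theorem OkOp.id : OkOp S (LinearMap.id : V R →ₗ[R] V R) := fun _ hv => hv

theorem okOp_Nn (Y : ℕ → V R →ₗ[R] V R) (hY : ∀ j, OkOp S (Y j)) (s k : ℕ) :
    OkOp S (Nn Y s k) := by
  induction k with
  | zero => exact OkOp.id
  | succ k ih => unfold Wh.Homf.Nn; exact (hY _).comp ih

theorem okOp_Ll (Y : ℕ → V R →ₗ[R] V R) (hY : ∀ j, OkOp S (Y j)) (k : ℕ) :
    OkOp S (Ll Y k) := by
  induction k with
  | zero => exact OkOp.id
  | succ k ih => exact ih.comp (hY _)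

variable [Par R]

/-- The subring contains the parameters. -/
structure Good (S : Subring R) : Prop where
  a : (Par.a : R) ∈ S
  ai : (Par.ai : R) ∈ S
  z : (Par.z : R) ∈ S
  dl : (Par.dl : R) ∈ S

theorem okOp_Xp (hS : Good S) (Y : Bool → ℕ → V R →ₗ[R] V R) (hY : ∀ s j, OkOp S (Y s j))
    (s : Bool) (j : ℕ) : OkOp S (Xp Y s j) := by
  refine okOp_blk _ fun e b => ?_
  split_ifs
  · exact (okOp_P _ _).comp (hY _ _)
  · exact (okOp_P _ _).comp (hY _ _)
  · exact (okOp_P _ _).add (OkOp.smul hS.z (((okOp_P _ _).comp (okOp_pr _ _)).sub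
      ((okOp_B _ _).comp ((okOp_Ll _ (hY true) _).comp (okOp_pr _ _)))))
  · exact okOp_P _ _
  · exact okOp_P _ _
  · exact (okOp_P _ _).sub (OkOp.smul hS.z (((okOp_P _ _).comp (okOp_pr _ _)).sub
      (OkOp.smul hS.a ((okOp_B _ _).comp ((okOp_Ll _ (hY true) _).comp (okOp_pr _ _))))))

theorem okOp_X0 (hS : Good S) (Y : Bool → ℕ → V R →ₗ[R] V R) (hY : ∀ s j, OkOp S (Y s j))
    (s : Bool) : OkOp S (X0 Y s) := by
  refine okOp_blk _ fun e b => ?_
  split_ifs
  · exact OkOp.smul hS.ai (okOp_P _ _)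
  · exact OkOp.smul hS.a (okOp_P _ _)
  · exact ((okOp_Nn _ (okOp_Xp hS Y hY false) _ _).comp (okOp_B _ _)).add (OkOp.smul hS.z
      (((okOp_P _ _).comp (okOp_pr _ _)).sub (OkOp.smul hS.ai
        ((okOp_P _ _).comp ((okOp_Nn _ (hY false) _ _).comp (okOp_pr _ _))))))
  · exact (okOp_Nn _ (okOp_Xp hS Y hY false) _ _).comp (okOp_B _ _)

theorem okOp_X (hS : Good S) (m : ℕ) (s : Bool) (j : ℕ) : OkOp S (X m s j : V R →ₗ[R] V R) := by
  induction m generalizing s j with
  | zero => unfold Wh.Homf.X; exact OkOp.id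
  | succ m ih =>
    unfold Wh.Homf.X
    split_ifs
    · exact okOp_X0 hS _ ih _
    · exact okOp_Xp hS _ ih _ _

theorem okOp_N (hS : Good S) (m s k : ℕ) : OkOp S (N m s k : V R →ₗ[R] V R) :=
  okOp_Nn _ (okOp_X hS m false) _ _
theorem okOp_L (hS : Good S) (m k : ℕ) : OkOp S (L m k : V R →ₗ[R] V R) :=
  okOp_Ll _ (okOp_X hS m true) _

theorem okOp_D (hS : Good S) (m j : ℕ) : OkOp S (D m j : V R →ₗ[R] V R) := by
  induction m generalizing j with
  | zero =>
    unfold Wh.Homf.D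
    exact okOp_blk _ fun _ _ => OkOp.smul hS.dl OkOp.id
  | succ m ih =>
    unfold Wh.Homf.D
    refine okOp_blk _ fun e b => ?_
    split_ifs
    · exact OkOp.smul hS.dl OkOp.id
    · exact OkOp.smul hS.ai (okOp_N hS _ _ _)
    · exact (okOp_P _ _).comp (ih _)
    · exact (okOp_P _ _).comp (ih _)
    · exact okOp_L hS _ _
    · exact OkOp.smul hS.a (okOp_L hS _ _)

theorem okOp_pc (hS : Good S) (m : ℕ) (p : Wh.OPiece) : OkOp S (pc R m p) := by
  cases p with
  | birth i b => exact okOp_B _ _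
  | death i => exact okOp_D hS _ _
  | pos i => exact okOp_X hS _ _ _
  | neg i => exact okOp_X hS _ _ _

theorem okOp_opW (hS : Good S) (w : Wh.OWord) (m : ℕ) : OkOp S (opW R m w) := by
  induction w generalizing m with
  | nil => exact OkOp.id
  | cons p w ih => exact (ih _).comp (okOp_pc hS _ _)

theorem ev1_mem (hS : Good S) (w : Wh.OWord) : ev1 R w ∈ S := by
  have h : Ok S (opW R 0 w.dropLast (v0 R)) := okOp_opW hS _ _ _ (Ok.single _ (one_mem _))
  exact add_mem (h _) (h _)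

end

end Pool.Agent.K7.H38.TB
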