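import Pool.Agent.K7.H38.TB.Value
import Pool.Agent.K7.H38.TB.Alg
import Pool.Agent.Y466.FT.Fam

/-!
# What the Vassiliev invariants see
-/

set_option autoImplicit false

namespace Pool.Agent.K7.H38.TB

open Pool.Agent.H835R2 Pool.Agent.H835R2.Knot
open Polynomial

noncomputable section

theorem separated_of {j n : ℕ} (h : j ≤ n) {D E : Knot.Word} {v : Knot.Word → ℤ}
    (h1 : IsInvariant v) (h2 : DegreeLE j v) (h3 : v D ≠ v E) : Separated n D E :=
  ⟨v, h1, Y466.FT.DegreeLE.mono h h2, h3⟩

theorem Separated.mono {m n : ℕ} (h : m ≤ n) {D E : Knot.Word} (hs : Separated m D E) :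
    Separated n D E := by
  obtain ⟨v, h1, h2, h3⟩ := hs
  exact separated_of h h1 h2 h3

/-- The derivative as a polynomial. -/
def dpol (l : List ℤ) : ℤ[X] :=
  Polynomial.C l.sum * (quad true l).A - ((quad true l).B + (quad true l).C)

theorem not_sep {l l' : List ℤ} {n : ℕ} (h : ¬ Separated n (twoBridge l) (twoBridge l')) :
    (∀ k, 2 * k ≤ n → (quad true l).A.coeff k = (quad true l').A.coeff k) ∧
      ∀ k, 2 * k + 1 ≤ n → (dpol l).coeff k = (dpol l').coeff k := by
  constructor
  · intro k hk
    by_contra hne
    obtain ⟨h1, h2⟩ := vassiliev_cv (2 * k)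
    refine h (separated_of hk h1 h2 ?_)
    push_cast
    rw [cv_twoBridge, cv_twoBridge]
    exact hne
  · intro k hk
    by_contra hne
    obtain ⟨h1, h2⟩ := vassiliev_cd (2 * k)
    refine h (separated_of hk h1 h2 ?_)
    push_cast
    rw [cd_twoBridge, cd_twoBridge]
    exact hne

/-- The lists are vectors of nonzero integers of even length. -/
def Adm (l : List ℤ) : Prop := Even l.length ∧ ∀ x ∈ l, x ≠ 0

theorem Adm.reverse {l : List ℤ} (h : Adm l) : Adm l.reverse :=
  ⟨by rw [List.length_reverse]; exact h.1, fun x hx => h.2 x (List.mem_reverse.1 hx)⟩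

theorem Adm.neg {l : List ℤ} (h : Adm l) : Adm (l.map fun x => -x) := by
  refine ⟨by rw [List.length_map]; exact h.1, fun x hx => ?_⟩
  rw [List.mem_map] at hx
  obtain ⟨y, hy, rfl⟩ := hx
  exact neg_ne_zero.2 (h.2 y hy)

/-- What two lists have in common if the knots are not separated. -/
structure Same (l l' : List ℤ) : Prop where
  len : l.length = l'.length
  A : (quad true l).A = (quad true l').A
  sum : l.sum = l'.sum
  BC : (quad true l).B + (quad true l).C = (quad true l').B + (quad true l').C

theorem same_of_not_sep {l l' : List ℤ} (hl : Adm l) (hl' : Adm l')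
    (h : ¬ Separated (max l.length l'.length + 1) (twoBridge l) (twoBridge l')) : Same l l' := by
  obtain ⟨h1, h2⟩ := not_sep h
  obtain ⟨i1, i2, i3, i4, -⟩ := quad_degree l hl.1 hl.2
  obtain ⟨j1, j2, j3, j4, -⟩ := quad_degree l' hl'.1 hl'.2
  have d1 : ∀ k, l.length / 2 < k → (dpol l).coeff k = 0 := by
    intro k hk
    unfold dpol
    rw [coeff_sub, coeff_add, coeff_C_mul, i2 k hk, i3 k hk.le, i4 k hk.le]
    ring
  have d2 : ∀ k, l'.length / 2 < k → (dpol l').coeff k = 0 := by
    intro k hk
    unfold dpol
    rw [coeff_sub, coeff_add, coeff_C_mul, j2 k hk, j3 k hk.le, j4 k hk.le]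
    ring
  have hA : (quad true l).A = (quad true l').A := by
    ext k
    rcases Nat.lt_or_ge (max l.length l'.length + 1) (2 * k) with hk | hk
    · rw [i2 k (by omega), j2 k (by omega)]
    · exact h1 k hk
  have hP : dpol l = dpol l' := by
    ext k
    rcases Nat.lt_or_ge (max l.length l'.length + 1) (2 * k + 1) with hk | hk
    · rw [d1 k (by omega), d2 k (by omega)]
    · exact h2 k hk
  obtain ⟨u, hu⟩ := hl.1
  obtain ⟨v, hv⟩ := hl'.1
  have hlen : l.length = l'.length := by
    have t1 : l'.length / 2 ≤ l.length / 2 := by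
      by_contra hc
      have := i2 _ (not_le.1 hc)
      rw [hA, j1] at this
      exact prod_ne_zero' hl'.2 this
    have t2 : l.length / 2 ≤ l'.length / 2 := by
      by_contra hc
      have := j2 _ (not_le.1 hc)
      rw [← hA, i1] at this
      exact prod_ne_zero' hl.2 this
    omega
  have hsum : l.sum = l'.sum := by
    have e := congrArg (fun p => p.coeff (l.length / 2)) hP
    unfold dpol at e
    simp only [coeff_sub, coeff_add, coeff_C_mul] at e
    rw [i1, i3 _ le_rfl, i4 _ le_rfl, hlen, j1, j3 _ le_rfl, j4 _ le_rfl] at e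
    have e2 : l.prod = l'.prod := by rw [← i1, hA, hlen, j1]
    rw [e2] at e
    simp only [add_zero, sub_zero] at e
    exact mul_right_cancel₀ (prod_ne_zero' hl'.2) e
  refine ⟨hlen, hA, hsum, ?_⟩
  unfold dpol at hP
  rw [hA, hsum] at hP
  linear_combination -hP

theorem Same.key {l l' : List ℤ} (h : Same l l') :
    X * (((quad true l').B - (quad true l).B) * ((quad true l').B - (quad true l).C)) =
      (quad true l).A * ((quad true l).D - (quad true l').D) := by
  have e1 := quad_det true l
  have e2 := quad_det true l'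
  have e3 := h.BC
  have e4 := h.A
  rw [← e4] at e2
  linear_combination -e1 + e2 - X * (quad true l').B * e3

/-- If the polynomials `B` are equal, the lists are equal. -/
theorem Same.eq_of_B {l l' : List ℤ} (hl : Adm l) (hl' : Adm l') (h : Same l l')
    (hB : (quad true l').B = (quad true l).B) : l' = l := by
  refine quad_inj l' hl'.1 l hl.1 hl'.2 hl.2 h.A.symm ?_
  have := h.BC
  rw [hB] at this
  exact (add_left_cancel this).symm

theorem Same.eq_of_C {l l' : List ℤ} (hl : Adm l) (hl' : Adm l') (h : Same l l')
    (hB : (quad true l').B = (quad true l).C) : l' = l.reverse := by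
  refine quad_inj l' hl'.1 l.reverse hl.reverse.1 hl'.2 hl.reverse.2 ?_ ?_
  · rw [quad_reverse l hl.1]; exact h.A.symm
  · rw [quad_reverse l hl.1]
    have := h.BC
    rw [hB, add_comm] at this
    exact (add_left_cancel this).symm

/-- The chirality. -/
theorem chiral {l : List ℤ} (hl : Adm l)
    (h : ¬ Separated (l.length + 1) (twoBridge l) (twoBridge (l.map fun x => -x))) :
    l.reverse = l.map fun x => -x := by
  have h' : ¬ Separated (max l.length (l.map fun x => -x).length + 1) (twoBridge l)
      (twoBridge (l.map fun x => -x)) := by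
    rw [List.length_map, max_self]; exact h
  have hs := same_of_not_sep hl hl.neg h'
  have e := hs.BC
  rw [quad_neg] at e
  simp only at e
  have e2 : (2 : ℤ[X]) * ((quad true l).B + (quad true l).C) = 0 := by linear_combination e
  have e3 : (quad true l).B + (quad true l).C = 0 := by
    rcases mul_eq_zero.1 e2 with h2 | h2
    · exact absurd h2 (by norm_num)
    · exact h2
  refine (hs.eq_of_C hl hl.neg ?_).symm
  rw [quad_neg]
  simp only
  linear_combination -e3

end

end Pool.Agent.K7.H38.TB
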