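import Pool.Agent.K7.H38.TB.Core

/-!
# Criteria for the separation of two-bridge knots
-/

set_option autoImplicit false

namespace Pool.Agent.K7.H38.TB

open Pool.Agent.H835R2 Pool.Agent.H835R2.Knot
open Polynomial

noncomputable section

/-- The Conway polynomial `∇(z)` of the knot `twoBridge b`, by the well known formula. -/
def nabla (b : List ℤ) : ℤ[X] := continuant (b.map fun x => C x * X)

/-- The continuant of the tail (zero for the empty list). -/
def tailK (b : List ℤ) : ℤ[X] := match b with
  | [] => 0
  | _ :: l => nabla l

theorem nabla_cons (a : ℤ) (l : List ℤ) : nabla (a :: l) = C a * X * nabla l + tailK l := by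
  cases l with
  | nil => simp [nabla, tailK, continuant]
  | cons b l => rfl

theorem nabla_eq (b : List ℤ) (hb : Even b.length) :
    (quad true b).A.comp (X ^ 2) = nabla b ∧ X * (quad true b).C.comp (X ^ 2) = tailK b := by
  induction b, hb using even_induction with
  | h0 => simp [quad, nabla, tailK, continuant]
  | h2 a b l hl _ ih =>
    obtain ⟨i1, i2⟩ := ih
    have e1 : nabla (b :: l) = X * ((quad true l).C + C b * (quad true l).A).comp (X ^ 2) := by
      rw [nabla_cons, ← i1, ← i2]
      simp only [add_comp, mul_comp, C_comp]
      ring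
    constructor
    · rw [nabla_cons, e1, tailK, ← i1, quad_cons2]
      simp only [add_comp, mul_comp, C_comp, X_comp]
      ring
    · rw [tailK, e1, quad_cons2]

theorem comp_sq_inj {f g : ℤ[X]} (h : f.comp (X ^ 2) = g.comp (X ^ 2)) : f = g := by
  have h2 : (f - g).comp (X ^ 2) = 0 := by rw [sub_comp, h, sub_self]
  rw [Polynomial.comp_eq_zero_iff] at h2
  rcases h2 with h2 | ⟨-, h2⟩
  · exact sub_eq_zero.1 h2
  · exfalso
    have := congrArg natDegree h2
    simp at this

/-- The Conway polynomial as a polynomial in `z ^ 2`. -/
theorem eq_A {f : ℤ[X]} {b : List ℤ} (hb : Even b.length) (h : f.comp (X ^ 2) = nabla b) :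
    f = (quad true b).A := comp_sq_inj (h.trans (nabla_eq b hb).1.symm)

/-- The polynomials over `ℚ`. -/
abbrev rat (p : ℤ[X]) : ℚ[X] := p.map (Int.castRingHom ℚ)

theorem rat_inj {p q : ℤ[X]} (h : rat p = rat q) : p = q :=
  Polynomial.map_injective _ (RingHom.injective_int _) h

theorem rat_A_ne {l : List ℤ} : rat (quad true l).A ≠ 0 := by
  intro h
  have := congrArg (fun p => p.coeff 0) h
  simp [quad_coeff_zero] at this

theorem degree_rat_A {l : List ℤ} (hl : Adm l) :
    (rat (quad true l).A).natDegree = l.length / 2 := by
  obtain ⟨i1, i2, -⟩ := quad_degree l hl.1 hl.2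
  apply le_antisymm
  · rw [Polynomial.natDegree_le_iff_coeff_eq_zero]
    intro n hn
    rw [coeff_map, i2 n hn, map_zero]
  · apply Polynomial.le_natDegree_of_ne_zero
    rw [coeff_map, i1]
    simpa using prod_ne_zero' hl.2

/-- A multiple of `A` of smaller degree is zero. -/
theorem zero_of_dvd {l : List ℤ} (hl : Adm l) {p : ℤ[X]}
    (hp : ∀ n, l.length / 2 ≤ n → p.coeff n = 0) (h : rat (quad true l).A ∣ rat p) : p = 0 := by
  by_contra hne
  have hne' : rat p ≠ 0 := by
    intro h0
    exact hne (rat_inj (by rw [h0]; simp [rat]))
  have h1 := Polynomial.natDegree_le_of_dvd h hne'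
  rw [degree_rat_A hl] at h1
  have h2 : (rat p).coeff (rat p).natDegree ≠ 0 := by
    rw [Polynomial.coeff_natDegree]
    exact Polynomial.leadingCoeff_ne_zero.2 hne'
  rw [coeff_map, hp _ h1, map_zero] at h2
  exact h2 rfl

theorem not_dvd_X {l : List ℤ} {q : ℚ[X]} (hq : q ∣ rat (quad true l).A) (hu : ¬ IsUnit q) :
    ¬ q ∣ X := by
  intro h
  have h1 : Irreducible (X : ℚ[X]) := Polynomial.irreducible_X
  obtain ⟨r, hr⟩ := h
  rcases h1.isUnit_or_isUnit hr with h2 | h2
  · exact hu h2
  · have h3 : X ∣ q := by
      obtain ⟨u, rfl⟩ := h2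
      refine ⟨((u⁻¹ : ℚ[X]ˣ) : ℚ[X]), ?_⟩
      rw [hr, mul_assoc, Units.mul_inv, mul_one]
    have h4 := h3.trans hq
    rw [Polynomial.X_dvd_iff, coeff_map, quad_coeff_zero] at h4
    simp at h4

theorem Same.coeff_BB {l l' : List ℤ} (hl : Adm l) (hl' : Adm l') (h : Same l l') :
    ∀ n, l.length / 2 ≤ n → ((quad true l').B - (quad true l).B).coeff n = 0 := by
  intro n hn
  obtain ⟨-, -, i3, i4, -⟩ := quad_degree l hl.1 hl.2
  obtain ⟨-, -, j3, j4, -⟩ := quad_degree l' hl'.1 hl'.2
  rw [coeff_sub, i3 n hn, j3 n (by rw [← h.len]; exact hn), sub_zero]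

theorem Same.coeff_BC {l l' : List ℤ} (hl : Adm l) (hl' : Adm l') (h : Same l l') :
    ∀ n, l.length / 2 ≤ n → ((quad true l').B - (quad true l).C).coeff n = 0 := by
  intro n hn
  obtain ⟨-, -, i3, i4, -⟩ := quad_degree l hl.1 hl.2
  obtain ⟨-, -, j3, j4, -⟩ := quad_degree l' hl'.1 hl'.2
  rw [coeff_sub, i4 n hn, j3 n (by rw [← h.len]; exact hn), sub_zero]

/-- A prime factor of `A` divides one of the two differences. -/
theorem Same.dvd_or {l l' : List ℤ} (h : Same l l') {q : ℚ[X]} (hq : Prime q)
    (hd : q ∣ rat (quad true l).A) :
    q ∣ rat ((quad true l').B - (quad true l).B) ∨ q ∣ rat ((quad true l').B - (quad true l).C) := by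
  have e := congrArg rat h.key
  have h1 : q ∣ X * (rat ((quad true l').B - (quad true l).B) *
      rat ((quad true l').B - (quad true l).C)) := by
    have : rat (X * (((quad true l').B - (quad true l).B) * ((quad true l').B - (quad true l).C))) =
        X * (rat ((quad true l').B - (quad true l).B) *
      rat ((quad true l').B - (quad true l).C)) := by
      simp [rat]
    rw [← this, e]
    have : rat ((quad true l).A * ((quad true l).D - (quad true l').D)) =
      rat (quad true l).A * rat ((quad true l).D - (quad true l').D) := by simp [rat]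
    rw [this]
    exact Dvd.dvd.mul_right hd _
  rcases hq.dvd_or_dvd h1 with h2 | h2
  · exact absurd h2 (not_dvd_X hd hq.not_isUnit)
  · exact hq.dvd_or_dvd h2

/-- Two-bridge knots with irreducible Conway polynomial. -/
theorem separated_irreducible {l l' : List ℤ} (hl : Adm l) (hl' : Adm l')
    (hirr : Irreducible (rat (quad true l).A))
    (h : ¬ Separated (max l.length l'.length + 1) (twoBridge l) (twoBridge l')) :
    l' = l ∨ l' = l.reverse := by
  have hs := same_of_not_sep hl hl' h
  rcases hs.dvd_or hirr.prime (dvd_refl _) with h1 | h1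
  · left
    exact hs.eq_of_B hl hl' (sub_eq_zero.1 (zero_of_dvd hl (hs.coeff_BB hl hl') h1))
  · right
    exact hs.eq_of_C hl hl' (sub_eq_zero.1 (zero_of_dvd hl (hs.coeff_BC hl hl') h1))

/-- The sequences which are not separated from a sequence with squarefree Conway polynomial. -/
theorem card_not_separated {l : List ℤ} (hl : Adm l) (hsq : Squarefree (rat (quad true l).A)) :
    {l' : List ℤ | Adm l' ∧
      ¬ Separated (max l.length l'.length + 1) (twoBridge l) (twoBridge l')}.encard ≤
      2 ^ (l.length / 2) := by
  classical
  set A := rat (quad true l).A with hA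
  set P := (UniqueFactorizationMonoid.normalizedFactors A).toFinset with hP
  set T := {l' : List ℤ | Adm l' ∧
      ¬ Separated (max l.length l'.length + 1) (twoBridge l) (twoBridge l')} with hT
  let F : List ℤ → Finset ℚ[X] := fun l' =>
    P.filter fun q => q ∣ rat ((quad true l').B - (quad true l).B)
  have hinj : Set.InjOn F T := by
    intro l' h' l'' h'' e
    have s' := same_of_not_sep hl h'.1 h'.2
    have s'' := same_of_not_sep hl h''.1 h''.2
    have hall : ∀ q ∈ P, q ∣ rat ((quad true l').B - (quad true l'').B) := by
      intro q hq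
      have hq1 : q ∈ UniqueFactorizationMonoid.normalizedFactors A := Multiset.mem_toFinset.1 hq
      have hqp : Prime q := UniqueFactorizationMonoid.prime_of_normalized_factor q hq1
      have hqd : q ∣ A := UniqueFactorizationMonoid.dvd_of_mem_normalizedFactors hq1
      have hsub : ∀ a b c : ℤ[X], rat (a - c) - rat (b - c) = rat (a - b) := by
        intro a b c
        simp [rat]
      by_cases hc : q ∣ rat ((quad true l').B - (quad true l).B)
      · have : q ∈ F l'' := by
          rw [← e]
          exact Finset.mem_filter.2 ⟨hq, hc⟩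
        have hc' := (Finset.mem_filter.1 this).2
        have := dvd_sub hc hc'
        rwa [hsub] at this
      · have : q ∉ F l'' := by
          rw [← e]
          exact fun hm => hc (Finset.mem_filter.1 hm).2
        have hc' : ¬ q ∣ rat ((quad true l'').B - (quad true l).B) := fun hd =>
          this (Finset.mem_filter.2 ⟨hq, hd⟩)
        have a1 := (s'.dvd_or hqp hqd).resolve_left hc
        have a2 := (s''.dvd_or hqp hqd).resolve_left hc'
        have := dvd_sub a1 a2
        rwa [hsub] at this
    have hdvd : A ∣ rat ((quad true l').B - (quad true l'').B) := by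
      by_cases h0 : rat ((quad true l').B - (quad true l'').B) = 0
      · rw [h0]; exact dvd_zero _
      · rw [UniqueFactorizationMonoid.dvd_iff_normalizedFactors_le_normalizedFactors rat_A_ne h0,
          Multiset.le_iff_subset ((UniqueFactorizationMonoid.squarefree_iff_nodup_normalizedFactors
            rat_A_ne).1 hsq)]
        intro q hq
        have hq1 := hall q (Multiset.mem_toFinset.2 hq)
        exact (UniqueFactorizationMonoid.mem_normalizedFactors_iff' h0).2
          ⟨UniqueFactorizationMonoid.irreducible_of_normalized_factor q hq,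
            UniqueFactorizationMonoid.normalize_normalized_factor q hq, hq1⟩
    have hz := zero_of_dvd hl (p := (quad true l').B - (quad true l'').B) (by
      intro n hn
      obtain ⟨-, -, j3, -, -⟩ := quad_degree l' h'.1.1 h'.1.2
      obtain ⟨-, -, k3, -, -⟩ := quad_degree l'' h''.1.1 h''.1.2
      rw [coeff_sub, j3 n (by rw [← s'.len]; exact hn), k3 n (by rw [← s''.len]; exact hn),
        sub_zero]) hdvd
    have hs : Same l'' l' := ⟨s''.len.symm.trans s'.len, s''.A.symm.trans s'.A,
      s''.sum.symm.trans s'.sum, s''.BC.symm.trans s'.BC⟩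
    exact hs.eq_of_B h''.1 h'.1 (sub_eq_zero.1 hz)
  have hcard : P.card ≤ l.length / 2 := by
    rw [← degree_rat_A hl]
    calc P.card ≤ Multiset.card (UniqueFactorizationMonoid.normalizedFactors A) :=
          Multiset.toFinset_card_le _
      _ ≤ A.natDegree := by
          have h1 : Associated (UniqueFactorizationMonoid.normalizedFactors A).prod A :=
            UniqueFactorizationMonoid.prod_normalizedFactors rat_A_ne
          have h2 : A.natDegree = (UniqueFactorizationMonoid.normalizedFactors A).prod.natDegree :=
            (Polynomial.natDegree_eq_of_degree_eq (Polynomial.degree_eq_degree_of_associated h1)).symm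
          rw [h2, Polynomial.natDegree_multiset_prod]
          · have : ∀ q ∈ UniqueFactorizationMonoid.normalizedFactors A, 1 ≤ q.natDegree := by
              intro q hq
              exact (UniqueFactorizationMonoid.irreducible_of_normalized_factor q hq).natDegree_pos
            calc Multiset.card (UniqueFactorizationMonoid.normalizedFactors A)
                = ((UniqueFactorizationMonoid.normalizedFactors A).map fun _ => 1).sum := by simp
              _ ≤ ((UniqueFactorizationMonoid.normalizedFactors A).map natDegree).sum :=
                  Multiset.sum_map_le_sum_map _ _ this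
          · intro h0
            exact (UniqueFactorizationMonoid.irreducible_of_normalized_factor 0 h0).ne_zero rfl
  calc T.encard = (F '' T).encard := (hinj.encard_image).symm
    _ ≤ ((P.powerset : Finset (Finset ℚ[X])) : Set (Finset ℚ[X])).encard := by
        apply Set.encard_le_encard
        rintro _ ⟨l', -, rfl⟩
        exact Finset.mem_coe.2 (Finset.mem_powerset.2 (Finset.filter_subset _ _))
    _ = (2 ^ P.card : ℕ) := by
        rw [Set.encard_coe_eq_coe_finsetCard, Finset.card_powerset]
    _ ≤ 2 ^ (l.length / 2) := by
        exact_mod_cast Nat.pow_le_pow_right (by norm_num) hcard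

end

end Pool.Agent.K7.H38.TB
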