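import Pool.Agent.H835R2.Knot.Defs

/-!
# Two-bridge knots

The oriented sliced diagrams, their isotopy and Vassiliev invariants are those of
`Pool.Agent.H835R2.Knot.Defs`.
-/

set_option autoImplicit false

namespace Pool.Agent.K7.H38.TB

open Pool.Agent.H835R2.Knot

/-- `|b|` full twists (`2 |b|` crossings) of the strands `i` and `i + 1`; for two strands with opposite
directions all crossings are positive if `b > 0` and negative if `b < 0`. -/
def twist (i : ℕ) (b : ℤ) : Word :=
  List.replicate (2 * b.natAbs) (if 0 ≤ b then Piece.neg i else Piece.pos i)

/-- Full twists, alternately of the strands `1`, `2` and of the strands `0`, `1`; the first ones are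
those of the strands `1`, `2` if `m = true`, and those of the strands `0`, `1` if `m = false`. -/
def twists : Bool → List ℤ → Word
  | _, [] => []
  | m, b :: l => twist (if m then 1 else 0) b ++ twists (!m) l

/-- The two-bridge diagram with four strands, joined by the maxima `0-1`, `2-3` above and by the
minima `1-2`, `0-3` below, with `b₁` full twists of the strands `1`, `2`, below them `b₂` full twists of
the strands `0`, `1`, then `b₃` full twists of the strands `1`, `2`, and so on. The strands `0`, `2` are
directed downwards, the strands `1`, `3` upwards. For `b` of even length this is a diagram of the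
two-bridge knot with the Conway notation `C(2 b₁, -2 b₂, 2 b₃, …, -2 b_{2g})` (up to the convention for
the mirror image); every two-bridge knot has such a diagram with all `b_i ≠ 0`, and then its genus is
`g`. -/
def twoBridge (b : List ℤ) : Word :=
  [Piece.birth 0 true, Piece.birth 2 true] ++ twists true b ++ [Piece.death 1, Piece.death 0]

/-- Some integer valued Vassiliev invariant of order at most `n` has different values on the two
knots. -/
def Separated (n : ℕ) (D E : Word) : Prop :=
  ∃ v : Word → ℤ, IsInvariant v ∧ DegreeLE n v ∧ v D ≠ v E

end Pool.Agent.K7.H38.TB
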