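import Pool.Agent.K7.H38.TB.Jet

/-!
# The coefficients are Vassiliev invariants
-/

set_option autoImplicit false

namespace Pool.Agent.K7.H38.TB

open Pool.Agent.H835R2 Pool.Agent.H835R2.Knot
open Pool.Agent.Helper454
open Pool.Agent.Helper454.Wh (Rlm lPow mPow)
open Pool.Agent.Y466.FT

/-! ### fronts with the same directions -/

/-- The fronts have the same number of strands and the same directions. -/
def Eqv (F G : Front) : Prop := F.n = G.n ∧ ∀ k < F.n, F.dir k = G.dir k

theorem Eqv.refl (F : Front) : Eqv F F := ⟨rfl, fun _ _ => rfl⟩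
theorem Eqv.symm {F G : Front} (h : Eqv F G) : Eqv G F :=
  ⟨h.1.symm, fun k hk => (h.2 k (by rw [h.1]; exact hk)).symm⟩

theorem Eqv.piece {F G : Front} (h : Eqv F G) (p : Knot.Piece) (hp : p.Fits F) :
    p.Fits G ∧ Eqv (p.act F) (p.act G) := by
  obtain ⟨h1, h2⟩ := h
  cases p with
  | birth i b =>
    have hp : i ≤ F.n := hp
    refine ⟨show i ≤ G.n by omega, show F.n + 2 = G.n + 2 by omega, fun k hk => ?_⟩
    have hk : k < F.n + 2 := hk
    show (if k < i then F.dir k else if k = i then b else if k = i + 1 then !b
        else F.dir (k - 2)) = (if k < i then G.dir k else if k = i then b else if k = i + 1 then !b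
        else G.dir (k - 2))
    split_ifs
    · exact h2 _ (by omega)
    · rfl
    · rfl
    · exact h2 _ (by omega)
  | death i =>
    have hp : i + 2 ≤ F.n ∧ F.dir (i + 1) = !F.dir i := hp
    refine ⟨⟨by omega, ?_⟩, show F.n - 2 = G.n - 2 by omega, fun k hk => ?_⟩
    · rw [← h2 _ (by omega), ← h2 _ (by omega)]; exact hp.2
    · have hk : k < F.n - 2 := hk
      show F.dir (up i k) = G.dir (up i k)
      unfold up
      split_ifs
      · exact h2 _ (by omega)
      · exact h2 _ (by omega)
  | pos i =>
    have hp : i + 2 ≤ F.n := hp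
    refine ⟨show i + 2 ≤ G.n by omega, h1, fun k hk => ?_⟩
    have hk : k < F.n := hk
    show F.dir (sw i k) = G.dir (sw i k)
    unfold sw
    split_ifs
    · exact h2 _ (by omega)
    · exact h2 _ (by omega)
    · exact h2 _ (by omega)
  | neg i =>
    have hp : i + 2 ≤ F.n := hp
    refine ⟨show i + 2 ≤ G.n by omega, h1, fun k hk => ?_⟩
    have hk : k < F.n := hk
    show F.dir (sw i k) = G.dir (sw i k)
    unfold sw
    split_ifs
    · exact h2 _ (by omega)
    · exact h2 _ (by omega)
    · exact h2 _ (by omega)

theorem Eqv.word {F G : Front} (h : Eqv F G) (w : Knot.Word) (hw : Knot.Fits w F) :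
    Knot.Fits w G ∧ Eqv (Knot.run w F) (Knot.run w G) := by
  induction w generalizing F G with
  | nil => exact ⟨trivial, h⟩
  | cons p w ih =>
    obtain ⟨h1, h2⟩ := hw
    obtain ⟨h3, h4⟩ := h.piece p h1
    obtain ⟨h5, h6⟩ := ih h4 h2
    exact ⟨⟨h3, h5⟩, h6⟩

/-- Replacing a part of a closed diagram by a part with the same ends. -/
theorem closed_replace {x l r y : Knot.Word} (h : Closed (x ++ l ++ y))
    (hr : Knot.Fits r (Knot.run x Front.empty))
    (he : Eqv (Knot.run l (Knot.run x Front.empty)) (Knot.run r (Knot.run x Front.empty))) :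
    Closed (x ++ r ++ y) := by
  obtain ⟨h1, h2⟩ := h
  rw [fits_append, fits_append] at h1
  rw [run_append, run_append] at h2
  obtain ⟨h3, h4⟩ := he.word y (by rw [← run_append]; exact h1.2)
  refine ⟨?_, ?_⟩
  · rw [fits_append, fits_append, run_append]
    exact ⟨⟨h1.1.1, hr⟩, h3⟩
  · rw [run_append, run_append, ← h4.1]
    exact h2

/-- the smoothing of a crossing of strands with the same direction -/
theorem eqv_parallel {F : Front} {i : ℕ} (hd : F.dir i = F.dir (i + 1))
    (p : Knot.Piece) (hp : p = .pos i ∨ p = .neg i) : Eqv (p.act F) F := by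
  have : Eqv ((Knot.Piece.pos i).act F) F := by
    refine ⟨rfl, fun k _ => ?_⟩
    show F.dir (sw i k) = F.dir k
    unfold sw
    split_ifs with h1 h2
    · rw [h1, hd]
    · rw [h2, hd]
    · rfl
  rcases hp with rfl | rfl
  · exact this
  · exact this

/-- the smoothing of a crossing of strands with opposite directions -/
theorem eqv_anti {F : Front} {i : ℕ} (hi : i + 2 ≤ F.n) (hd : F.dir i ≠ F.dir (i + 1))
    (p : Knot.Piece) (hp : p = .pos i ∨ p = .neg i) :
    Knot.Fits [.death i, .birth i (F.dir (i + 1))] F ∧
      Eqv (p.act F) (Knot.run [.death i, .birth i (F.dir (i + 1))] F) := by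
  have hd' : F.dir (i + 1) = !F.dir i := by
    cases h1 : F.dir i <;> cases h2 : F.dir (i + 1) <;> simp_all
  refine ⟨⟨⟨hi, hd'⟩, ⟨show i ≤ F.n - 2 by omega, trivial⟩⟩, ?_⟩
  have : Eqv ((Knot.Piece.pos i).act F) (Knot.run [.death i, .birth i (F.dir (i + 1))] F) := by
    refine ⟨show F.n = F.n - 2 + 2 by omega, fun k _ => ?_⟩
    show F.dir (sw i k) = (if k < i then F.dir (up i k) else if k = i then F.dir (i + 1) else
      if k = i + 1 then !F.dir (i + 1) else F.dir (up i (k - 2)))
    unfold sw up
    split_ifs <;> first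
      | rfl
      | (exfalso; omega)
      | (rw [hd', Bool.not_not])
      | (congr 1; omega)
  rcases hp with rfl | rfl
  · exact this
  · exact this

/-! ### alternating sums -/

section
variable {A : Type} [AddCommGroup A]

theorem malt_congr (x : MWord) (g h : Knot.Word → A) (e : ∀ u, Same (pl x) u → g u = h u) :
    malt x g = malt x h := by
  induction x generalizing g h with
  | nil => exact e [] List.Forall₂.nil
  | cons p x ih =>
    obtain ⟨p, b⟩ := p
    cases b with
    | true =>
      show malt x _ - malt x _ = malt x _ - malt x _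
      rw [ih _ _ fun u hu => e (p :: u) (List.Forall₂.cons (Or.inl rfl) hu),
        ih _ _ fun u hu => e (p.switch :: u) (List.Forall₂.cons (Or.inr rfl) hu)]
    | false =>
      show malt x _ = malt x _
      exact ih _ _ fun u hu => e (p :: u) (List.Forall₂.cons (Or.inl rfl) hu)

theorem malt_add (x : MWord) (g h : Knot.Word → A) :
    malt x (fun u => g u + h u) = malt x g + malt x h := by
  induction x generalizing g h with
  | nil => rfl
  | cons p x ih =>
    obtain ⟨p, b⟩ := p
    cases b with
    | true =>
      show malt x _ - malt x _ = (malt x _ - malt x _) + (malt x _ - malt x _)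
      rw [ih, ih]
      abel
    | false =>
      show malt x _ = malt x _ + malt x _
      rw [ih]

theorem malt_hom {B : Type} [AddCommGroup B] (f : A →+ B) (x : MWord) (g : Knot.Word → A) :
    malt x (fun u => f (g u)) = f (malt x g) := by
  induction x generalizing g with
  | nil => rfl
  | cons p x ih =>
    obtain ⟨p, b⟩ := p
    cases b with
    | true =>
      show malt x _ - malt x _ = f (malt x _ - malt x _)
      rw [ih, ih, map_sub]
    | false => exact ih _

end

theorem malt_mul {R : Type} [CommRing R] (r : R) (x : MWord) (g : Knot.Word → R) :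
    malt x (fun u => r * g u) = r * malt x g := malt_hom (AddMonoidHom.mulLeft r) x g

/-- An unmarked part. -/
def um (w : Knot.Word) : MWord := w.map fun p => (p, false)

theorem pl_um (w : Knot.Word) : pl (um w) = w := by
  unfold pl um
  rw [List.map_map]
  exact List.map_id _

theorem nm_um (w : Knot.Word) : nm (um w) = 0 := by
  unfold nm um
  rw [List.countP_map]
  simp [Function.comp_def]

theorem malt_um {A : Type} [AddCommGroup A] (x y : MWord) (l : Knot.Word) (g : Knot.Word → A) :
    malt (x ++ um l ++ y) g = malt x (fun u => malt y (fun w => g (u ++ l ++ w))) := by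
  rw [List.append_assoc, malt_append]
  congr 1
  funext u
  rw [malt_append, malt_plain _ (nm_um l), pl_um]
  simp only [List.append_assoc]

theorem malt_skein {R : Type} [CommRing R] (x y : MWord) (l r s : Knot.Word)
    (g : Knot.Word → R) (a b : R)
    (h : ∀ u w, Same (pl x) u → Same (pl y) w →
      g (u ++ l ++ w) - g (u ++ r ++ w) = a * g (u ++ r ++ w) + b * g (u ++ s ++ w)) :
    malt (x ++ um l ++ y) g - malt (x ++ um r ++ y) g =
      a * malt (x ++ um r ++ y) g + b * malt (x ++ um s ++ y) g := by
  rw [malt_um, malt_um, malt_um, ← malt_mul, ← malt_mul, ← malt_sub, ← malt_add]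
  refine malt_congr _ _ _ fun u hu => ?_
  rw [← malt_mul, ← malt_mul, ← malt_sub, ← malt_add]
  exact malt_congr _ _ _ fun w hw => h u w hu hw

theorem skein_par {x : Knot.Word} {i : ℕ} {y : Knot.Word} (h : Closed (x ++ [.pos i] ++ y))
    (hd : (Knot.run x Front.empty).dir i = (Knot.run x Front.empty).dir (i + 1)) :
    val (x ++ [.pos i] ++ y) - val (x ++ [.neg i] ++ y) =
      (lPow 2 - 1) * val (x ++ [.neg i] ++ y) + (lPow 1 * mPow 1) * val (x ++ [] ++ y) := by
  have e := val_parallel x i y h hd
  have e1 : lPow 1 * lPow (-1) = 1 := by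
    rw [← Wh.Homf.lPow_add]; exact Wh.Homf.lPow_zero
  have e2 : lPow 1 * lPow 1 = lPow 2 := by rw [← Wh.Homf.lPow_add]; rfl
  rw [List.append_nil]
  linear_combination lPow 1 * e - val (x ++ [.pos i] ++ y) * e1 + val (x ++ [.neg i] ++ y) * e2

theorem skein_anti {x : Knot.Word} {i : ℕ} {y : Knot.Word} (h : Closed (x ++ [.neg i] ++ y))
    (hd : (Knot.run x Front.empty).dir i ≠ (Knot.run x Front.empty).dir (i + 1)) :
    val (x ++ [.neg i] ++ y) - val (x ++ [.pos i] ++ y) =
      (lPow 2 - 1) * val (x ++ [.pos i] ++ y) + (lPow 1 * mPow 1) *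
        val (x ++ [.death i, .birth i ((Knot.run x Front.empty).dir (i + 1))] ++ y) := by
  have e := val_anti x i y h hd
  have e1 : lPow 1 * lPow (-1) = 1 := by
    rw [← Wh.Homf.lPow_add]; exact Wh.Homf.lPow_zero
  have e2 : lPow 1 * lPow 1 = lPow 2 := by rw [← Wh.Homf.lPow_add]; rfl
  linear_combination lPow 1 * e - val (x ++ [.neg i] ++ y) * e1 + val (x ++ [.pos i] ++ y) * e2

theorem S_lm : lPow 1 * mPow 1 ∈ S 1 := by
  have := S_mul (S_lPow 1) (S_mPow 1)
  rwa [zero_add] at this

theorem same_mid {x y u w : Knot.Word} {p q : Knot.Piece} (hu : Same x u) (hw : Same y w)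
    (hq : q = p ∨ q = p.switch) : Same (x ++ [p] ++ y) (u ++ [q] ++ w) :=
  List.rel_append (List.rel_append hu (List.Forall₂.cons hq .nil)) hw

theorem malt_mem (n : ℕ) : ∀ D : MWord, nm D = n →
    (∀ x ∈ D, x.2 = true → x.1.isCrossing = true) → Closed (pl D) → malt D val ∈ S n := by
  induction n with
  | zero =>
    intro D h0 _ _
    rw [malt_plain D h0]
    exact val_mem _
  | succ n ih =>
    intro D hn hD hc
    have hex : ∃ p ∈ D, p.2 = true := by
      by_contra hcon
      push Not at hcon
      have : nm D = 0 := by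
        unfold nm
        rw [List.countP_eq_zero]
        intro a ha
        simpa using hcon a ha
      omega
    obtain ⟨⟨p, b⟩, hp, hb⟩ := hex
    have hb : b = true := hb
    subst hb
    obtain ⟨x, y, rfl⟩ := List.append_of_mem hp
    have hcr : p.isCrossing = true := hD _ hp rfl
    have eD : x ++ (p, true) :: y = x ++ [(p, true)] ++ y := by simp
    rw [eD] at hn hD hc ⊢
    rw [malt_mark]
    -- the number of marks
    have hnm : nm x + nm y = n := by
      unfold nm at hn ⊢
      rw [List.countP_append, List.countP_append] at hn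
      simp only [List.countP_singleton, if_true] at hn
      omega
    have hx : ∀ z ∈ x, z.2 = true → z.1.isCrossing = true := fun z hz =>
      hD z (by simp [hz])
    have hy : ∀ z ∈ y, z.2 = true → z.1.isCrossing = true := fun z hz =>
      hD z (by simp [hz])
    have hnl : ∀ l : Knot.Word, nm (x ++ um l ++ y) = n := by
      intro l
      have := nm_um l
      unfold nm at this hnm ⊢
      rw [List.countP_append, List.countP_append]
      omega
    have hml : ∀ l : Knot.Word, ∀ z ∈ x ++ um l ++ y, z.2 = true → z.1.isCrossing = true := by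
      intro l z hz h2
      rw [List.mem_append, List.mem_append] at hz
      rcases hz with (hz | hz) | hz
      · exact hx z hz h2
      · unfold um at hz
        rw [List.mem_map] at hz
        obtain ⟨q, -, rfl⟩ := hz
        exact absurd h2 (by simp)
      · exact hy z hz h2
    have hpl : ∀ l : Knot.Word, pl (x ++ um l ++ y) = pl x ++ l ++ pl y := by
      intro l
      have := pl_um l
      unfold pl at this ⊢
      rw [List.map_append, List.map_append, this]
    have hc' : Closed (pl x ++ [p] ++ pl y) := by
      have : pl (x ++ [(p, true)] ++ y) = pl x ++ [p] ++ pl y := by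
        unfold pl; simp
      rwa [this] at hc
    have hf := hc'.1
    rw [fits_append, fits_append] at hf
    have um1 : ∀ q : Knot.Piece, ([(q, false)] : MWord) = um [q] := fun _ => rfl
    rw [um1, um1]
    set F := Knot.run (pl x) Front.empty with hF
    have hFu : ∀ u, Same (pl x) u → Knot.run u Front.empty = F := fun u hu => (hu.all _).1
    -- the combination of the two terms
    have key : ∀ (P Q : Knot.Piece) (s : Knot.Word), Closed (pl x ++ [Q] ++ pl y) →
        Closed (pl x ++ s ++ pl y) →
        (∀ u w, Same (pl x) u → Same (pl y) w → val (u ++ [P] ++ w) - val (u ++ [Q] ++ w) =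
          (lPow 2 - 1) * val (u ++ [Q] ++ w) + (lPow 1 * mPow 1) * val (u ++ s ++ w)) →
        malt (x ++ um [P] ++ y) val - malt (x ++ um [Q] ++ y) val ∈ S ((n + 1 : ℕ) : ℤ) := by
      intro P Q s h1 h2 h3
      rw [malt_skein x y [P] [Q] s val _ _ h3]
      have m1 := ih (x ++ um [Q] ++ y) (hnl _) (hml _) (by rw [hpl]; exact h1)
      have m2 := ih (x ++ um s ++ y) (hnl _) (hml _) (by rw [hpl]; exact h2)
      have t1 := S_mul S_l2 m1
      have t2 := S_mul S_lm m2
      rw [show ((n + 1 : ℕ) : ℤ) = 1 + (n : ℤ) by push_cast; ring]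
      exact add_mem t1 t2
    have csw : Closed (pl x ++ [p.switch] ++ pl y) := (Same.switch _ _ _).closed.2 hc'
    cases p with
    | birth i b => exact absurd hcr (by simp [Knot.Piece.isCrossing])
    | death i => exact absurd hcr (by simp [Knot.Piece.isCrossing])
    | pos i =>
      have hi : i + 2 ≤ F.n := hf.1.2.1
      by_cases hpar : F.dir i = F.dir (i + 1)
      · refine key (.pos i) (.neg i) [] csw ?_ fun u w hu hw => ?_
        · exact closed_replace hc' trivial (eqv_parallel hpar _ (Or.inl rfl))
        · exact skein_par ((same_mid hu hw (Or.inl rfl)).closed.2 hc') (by rw [hFu u hu]; exact hpar)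
      · rw [← neg_sub]
        refine neg_mem (key (.neg i) (.pos i) [.death i, .birth i (F.dir (i + 1))] hc' ?_
          fun u w hu hw => ?_)
        · obtain ⟨e1, e2⟩ := eqv_anti hi hpar (.pos i) (Or.inl rfl)
          exact closed_replace hc' e1 e2
        · have := skein_anti (x := u) (i := i) (y := w)
            ((same_mid hu hw (Or.inl rfl)).closed.2 csw) (by rw [hFu u hu]; exact hpar)
          rw [hFu u hu] at this
          exact this
    | neg i =>
      have hi : i + 2 ≤ F.n := hf.1.2.1
      by_cases hpar : F.dir i = F.dir (i + 1)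
      · rw [← neg_sub]
        refine neg_mem (key (.pos i) (.neg i) [] hc' ?_ fun u w hu hw => ?_)
        · exact closed_replace hc' trivial (eqv_parallel hpar _ (Or.inr rfl))
        · exact skein_par ((same_mid hu hw (Or.inl rfl)).closed.2 csw) (by rw [hFu u hu]; exact hpar)
      · refine key (.neg i) (.pos i) [.death i, .birth i (F.dir (i + 1))] csw ?_
          fun u w hu hw => ?_
        · obtain ⟨e1, e2⟩ := eqv_anti hi hpar (.neg i) (Or.inr rfl)
          exact closed_replace hc' e1 e2
        · have := skein_anti (x := u) (i := i) (y := w)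
            ((same_mid hu hw (Or.inl rfl)).closed.2 hc') (by rw [hFu u hu]; exact hpar)
          rw [hFu u hu] at this
          exact this

/-! ### Vassiliev invariants -/

/-- The word with marks at the places in `T`. -/
def mark (D : Knot.Word) (T : Finset ℕ) : MWord := D.mapIdx fun k p => (p, decide (k ∈ T))

theorem pl_mark (D : Knot.Word) (T : Finset ℕ) : pl (mark D T) = D := by
  unfold pl mark
  apply List.ext_getElem
  · simp
  · intro i h1 h2
    simp

theorem mset_mark (D : Knot.Word) (T : Finset ℕ) (hT : T ⊆ crossingSet D) :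
    mset (mark D T) = T := by
  ext m
  unfold mset
  rw [Finset.mem_filter, Finset.mem_range]
  have hl : (mark D T).length = D.length := List.length_mapIdx
  constructor
  · rintro ⟨h1, h2⟩
    rw [List.getD_eq_getElem _ _ h1] at h2
    have e : (mark D T)[m] = ((D[m]'(by omega)), decide (m ∈ T)) := List.getElem_mapIdx
    rw [e] at h2
    simpa using h2
  · intro h
    have h1 := hT h
    unfold crossingSet at h1
    rw [Finset.mem_filter, Finset.mem_range] at h1
    have h2 : m < (mark D T).length := by rw [hl]; exact h1.1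
    refine ⟨h2, ?_⟩
    rw [List.getD_eq_getElem _ _ h2]
    have e : (mark D T)[m] = ((D[m]'h1.1), decide (m ∈ T)) := List.getElem_mapIdx
    rw [e]
    simpa using h

theorem crossing_mark (D : Knot.Word) (T : Finset ℕ) (hT : T ⊆ crossingSet D) :
    ∀ x ∈ mark D T, x.2 = true → x.1.isCrossing = true := by
  intro x hx h2
  obtain ⟨m, hm, rfl⟩ := List.getElem_of_mem hx
  have hl : (mark D T).length = D.length := List.length_mapIdx
  have e : (mark D T)[m] = ((D[m]'(by omega)), decide (m ∈ T)) := List.getElem_mapIdx
  rw [e] at h2 ⊢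
  have h3 : m ∈ T := by simpa using h2
  have h1 := hT h3
  unfold crossingSet at h1
  rw [Finset.mem_filter] at h1
  obtain ⟨-, h4, h5⟩ := h1
  exact h5

theorem degreeLE_of (n : ℕ) (f : Rlm →+ ℤ) (hf : ∀ x ∈ S ((n + 1 : ℕ) : ℤ), f x = 0) :
    DegreeLE n (fun D => f (val D)) := by
  intro D hD T hT hc
  have h1 : malt (mark D T) val ∈ S ((n + 1 : ℕ) : ℤ) := by
    refine malt_mem (n + 1) (mark D T) ?_ (crossing_mark D T hT) ?_
    · rw [← mset_card, mset_mark D T hT, hc]
    · rw [pl_mark]; exact hD.1
  have h2 := hf _ h1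
  rw [← malt_hom, malt_eq_sum, mset_mark D T hT, pl_mark] at h2
  exact h2

theorem isInvariant_of (f : Rlm →+ ℤ) : IsInvariant (fun D => f (val D)) := by
  intro D E _ h
  show f (val D) = f (val E)
  rw [val_isotopic h]

/-- The coefficients of the Conway polynomial. -/
theorem vassiliev_cv (j : ℕ) : IsInvariant (fun D => cv j (val D)) ∧
    DegreeLE j (fun D => cv j (val D)) :=
  ⟨isInvariant_of _, degreeLE_of _ _ fun x hx => cv_zero (by push_cast; omega) hx⟩

/-- The coefficients of the derivative. -/
theorem vassiliev_cd (j : ℕ) : IsInvariant (fun D => cd j (val D)) ∧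
    DegreeLE (j + 1) (fun D => cd j (val D)) :=
  ⟨isInvariant_of _, degreeLE_of _ _ fun x hx => cd_zero (by push_cast; omega) hx⟩

end Pool.Agent.K7.H38.TB
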