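import Mathlib

/-!
# The number of irreducible polynomials over `ZMod p` with constant coefficient one
-/

set_option autoImplicit false

namespace Pool.Agent.K7.H38.TB

open Polynomial

noncomputable section

/-- The polynomial `1 + v₀ X + v₁ X² + …`. -/
def pol {F : Type} [Field F] {g : ℕ} (v : Fin g → F) : F[X] :=
  1 + ∑ i : Fin g, C (v i) * X ^ (i.val + 1)

theorem pol_coeff_zero {F : Type} [Field F] {g : ℕ} (v : Fin g → F) : (pol v).coeff 0 = 1 := by
  unfold pol
  rw [coeff_add, finsetSum_coeff]
  simp

theorem pol_coeff_succ {F : Type} [Field F] {g : ℕ} (v : Fin g → F) (i : Fin g) :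
    (pol v).coeff (i.val + 1) = v i := by
  unfold pol
  rw [coeff_add, finsetSum_coeff, Finset.sum_eq_single i]
  · simp [coeff_one]
  · intro j _ hj
    have : (i.val + 1 : ℕ) ≠ j.val + 1 := by
      intro h
      exact hj (Fin.ext (by omega))
    rw [coeff_C_mul, coeff_X_pow, if_neg this, mul_zero]
  · simp

theorem eq_pol {F : Type} [Field F] {g : ℕ} {f : F[X]} (h0 : f.coeff 0 = 1)
    (hg : ∀ n, g < n → f.coeff n = 0) : f = pol fun i : Fin g => f.coeff (i.val + 1) := by
  ext n
  rcases Nat.lt_or_ge g n with hn | hn
  · rw [hg n hn]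
    unfold pol
    rw [coeff_add, finsetSum_coeff, Finset.sum_eq_zero]
    · simp [coeff_one, show n ≠ 0 by omega]
    · intro j _
      have := j.isLt
      rw [coeff_C_mul, coeff_X_pow, if_neg (by omega), mul_zero]
  · cases n with
    | zero => rw [h0, pol_coeff_zero]
    | succ n => rw [pol_coeff_succ _ (⟨n, by omega⟩ : Fin g)]

/-- Irreducible of degree exactly `g`. -/
def Good' {F : Type} [Field F] {g : ℕ} (v : Fin g → F) : Prop :=
  Irreducible (pol v) ∧ (pol v).natDegree = g

open Classical in
/-- At least `p^g - g p^(g-1)` over `g` of the vectors are good. -/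
theorem card_good (p : ℕ) [hp : Fact p.Prime] (g : ℕ) (hg : 0 < g) :
    p ^ g ≤ g * (Finset.univ.filter fun v : Fin g → ZMod p => Good' v).card +
      g * p ^ (g - 1) := by
  set K := GaloisField p g with hK
  have : Fintype K := Fintype.ofFinite K
  have hcard : Fintype.card K = p ^ g := by
    rw [← Nat.card_eq_fintype_card]; exact GaloisField.card p g hg.ne'
  -- the elements of degree `g`
  let U : Finset K := Finset.univ.filter fun a => a ≠ 0 ∧ (minpoly (ZMod p) a).natDegree = g
  let norm : K → (ZMod p)[X] := fun a =>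
    C ((minpoly (ZMod p) a).coeff 0)⁻¹ * minpoly (ZMod p) a
  let φ : K → (Fin g → ZMod p) := fun a i => (norm a).coeff (i.val + 1)
  have hint : ∀ a : K, IsIntegral (ZMod p) a := fun a => Algebra.IsIntegral.isIntegral a
  have hU : ∀ a ∈ U, (minpoly (ZMod p) a).coeff 0 ≠ 0 := by
    intro a ha h0
    obtain ⟨-, h1, -⟩ := Finset.mem_filter.1 ha
    exact h1 ((minpoly.coeff_zero_eq_zero (hint a)).1 h0)
  have hnorm : ∀ a ∈ U, norm a = pol (φ a) := by
    intro a ha
    obtain ⟨-, h1, h2⟩ := Finset.mem_filter.1 ha
    apply eq_pol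
    · simp only [norm, coeff_C_mul]
      exact inv_mul_cancel₀ (hU a ha)
    · intro n hn
      simp only [norm, coeff_C_mul]
      have : (minpoly (ZMod p) a).coeff n = 0 :=
        Polynomial.coeff_eq_zero_of_natDegree_lt (by rw [h2]; exact hn)
      rw [this, mul_zero]
  have hgood : ∀ a ∈ U, Good' (φ a) := by
    intro a ha
    obtain ⟨-, h1, h2⟩ := Finset.mem_filter.1 ha
    have hc : ((minpoly (ZMod p) a).coeff 0)⁻¹ ≠ 0 := inv_ne_zero (hU a ha)
    unfold Good'
    rw [← hnorm a ha]
    constructor
    · refine (Associated.irreducible_iff ?_).1 (minpoly.irreducible (hint a))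
      refine ⟨(Polynomial.isUnit_C.2 hc.isUnit).unit, ?_⟩
      simp only [norm, IsUnit.unit_spec]
      ring
    · simp only [norm]
      rw [Polynomial.natDegree_C_mul hc, h2]
  -- each good vector comes from at most `g` elements
  have hfib : U.card ≤ g * (Finset.univ.filter fun v : Fin g → ZMod p => Good' v).card := by
    refine Finset.card_le_mul_card_image_of_maps_to (f := φ) ?_ g ?_
    · intro a ha
      exact Finset.mem_filter.2 ⟨Finset.mem_univ _, hgood a ha⟩
    · intro v hv
      obtain ⟨-, h1, h2⟩ := Finset.mem_filter.1 hv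
      have hne : (pol v).map (algebraMap (ZMod p) K) ≠ 0 := by
        rw [Polynomial.map_ne_zero_iff (algebraMap (ZMod p) K).injective]
        exact h1.ne_zero
      calc (U.filter fun a => φ a = v).card
          ≤ ((pol v).map (algebraMap (ZMod p) K)).roots.toFinset.card := by
            apply Finset.card_le_card
            intro a ha
            obtain ⟨ha1, ha2⟩ := Finset.mem_filter.1 ha
            rw [Multiset.mem_toFinset, Polynomial.mem_roots hne, Polynomial.IsRoot,
              Polynomial.eval_map_algebraMap, ← ha2, ← hnorm a ha1]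
            simp [norm]
        _ ≤ Multiset.card ((pol v).map (algebraMap (ZMod p) K)).roots :=
            Multiset.toFinset_card_le _
        _ ≤ ((pol v).map (algebraMap (ZMod p) K)).natDegree := Polynomial.card_roots' _
        _ = g := by rw [Polynomial.natDegree_map]; exact h2
  -- the other elements
  have hrest : (Finset.univ \ U).card ≤ g * p ^ (g - 1) := by
    have hsub : Finset.univ \ U ⊆ insert (0 : K) ((Finset.Icc 1 (g - 1)).biUnion fun d =>
        (X ^ p ^ d - X : K[X]).roots.toFinset) := by
      intro a ha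
      have ha' := (Finset.mem_sdiff.1 ha).2
      rw [Finset.mem_filter, not_and] at ha'
      have ha'' := ha' (Finset.mem_univ _)
      by_cases h0 : a = 0
      · exact Finset.mem_insert.2 (Or.inl h0)
      · refine Finset.mem_insert.2 (Or.inr ?_)
        have hd : (minpoly (ZMod p) a).natDegree ≠ g := fun h => ha'' ⟨h0, h⟩
        have hirr := minpoly.irreducible (hint a)
        have hle : (minpoly (ZMod p) a).natDegree ≤ g := by
          have h1 := minpoly.natDegree_le (A := ZMod p) a
          rwa [GaloisField.finrank p hg.ne'] at h1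
        have hpos := hirr.natDegree_pos
        rw [Finset.mem_biUnion]
        refine ⟨(minpoly (ZMod p) a).natDegree, Finset.mem_Icc.2 ⟨hpos, by omega⟩, ?_⟩
        have hdvd := (Irreducible.natDegree_dvd_iff_dvd_X_pow_card_pow_sub_X hirr
          (n := (minpoly (ZMod p) a).natDegree)).1 dvd_rfl
        rw [Nat.card_eq_fintype_card, ZMod.card] at hdvd
        obtain ⟨q, hq⟩ := hdvd
        have hne : (X ^ p ^ (minpoly (ZMod p) a).natDegree - X : K[X]) ≠ 0 :=
          FiniteField.X_pow_card_sub_X_ne_zero K (Nat.one_lt_pow hpos.ne' hp.out.one_lt)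
        rw [Multiset.mem_toFinset, Polynomial.mem_roots hne, Polynomial.IsRoot]
        have := congrArg (fun f => Polynomial.aeval a f) hq
        simp only [map_sub, map_pow, aeval_X, map_mul, minpoly.aeval, zero_mul] at this
        simp only [eval_sub, eval_pow, eval_X]
        exact this
    calc (Finset.univ \ U).card ≤ _ := Finset.card_le_card hsub
      _ ≤ ((Finset.Icc 1 (g - 1)).biUnion fun d =>
        (X ^ p ^ d - X : K[X]).roots.toFinset).card + 1 := Finset.card_insert_le _ _
      _ ≤ (∑ d ∈ Finset.Icc 1 (g - 1), p ^ (g - 1)) + 1 := by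
          refine Nat.add_le_add_right (Finset.card_biUnion_le.trans (Finset.sum_le_sum ?_)) 1
          intro d hd
          obtain ⟨hd1, hd2⟩ := Finset.mem_Icc.1 hd
          calc (X ^ p ^ d - X : K[X]).roots.toFinset.card
              ≤ Multiset.card (X ^ p ^ d - X : K[X]).roots := Multiset.toFinset_card_le _
            _ ≤ (X ^ p ^ d - X : K[X]).natDegree := Polynomial.card_roots' _
            _ = p ^ d := FiniteField.X_pow_card_sub_X_natDegree_eq K
                (Nat.one_lt_pow (by omega) hp.out.one_lt)
            _ ≤ p ^ (g - 1) := Nat.pow_le_pow_right hp.out.pos hd2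
      _ = (g - 1) * p ^ (g - 1) + 1 := by
          rw [Finset.sum_const, Nat.card_Icc, smul_eq_mul]
          congr 2
      _ ≤ g * p ^ (g - 1) := by
          have h1 : 1 ≤ p ^ (g - 1) := Nat.one_le_pow _ _ hp.out.pos
          obtain ⟨k, rfl⟩ : ∃ k, g = k + 1 := ⟨g - 1, by omega⟩
          simp only [Nat.add_sub_cancel] at h1 ⊢
          nlinarith
  have htot : Fintype.card K = (Finset.univ \ U).card + U.card := by
    rw [Finset.card_sdiff_add_card_eq_card (Finset.subset_univ _), Finset.card_univ]
  omega

end

end Pool.Agent.K7.H38.TB
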