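import Pool.Agent.K7.H38.TB.Crit
import Pool.Agent.K7.H38.TB.Irr

/-!
# Almost all continuants are irreducible
-/

set_option autoImplicit false

namespace Pool.Agent.K7.H38.TB

open Polynomial

noncomputable section

/-! ### reduction modulo a prime -/

theorem irreducible_of_mod {f : ℤ[X]} (h0 : f.coeff 0 = 1) (p : ℕ) [hp : Fact p.Prime]
    (hd : (f.map (Int.castRingHom (ZMod p))).natDegree = f.natDegree)
    (hi : Irreducible (f.map (Int.castRingHom (ZMod p)))) : Irreducible (rat f) := by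
  have hprim : f.IsPrimitive := by
    intro r hr
    rw [Polynomial.C_dvd_iff_dvd_coeff] at hr
    have := hr 0
    rw [h0] at this
    exact isUnit_of_dvd_one this
  have hf0 : f ≠ 0 := by
    rintro rfl
    simp at h0
  refine (Polynomial.IsPrimitive.Int.irreducible_iff_irreducible_map_cast hprim).1 ?_
  refine ⟨fun hu => ?_, fun u v huv => ?_⟩
  · exact hi.not_isUnit (hu.map (Polynomial.mapRingHom (Int.castRingHom (ZMod p))))
  · have hu0 : u ≠ 0 := by rintro rfl; rw [zero_mul] at huv; exact hf0 huv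
    have hv0 : v ≠ 0 := by rintro rfl; rw [mul_zero] at huv; exact hf0 huv
    have e1 : f.map (Int.castRingHom (ZMod p)) =
        u.map (Int.castRingHom (ZMod p)) * v.map (Int.castRingHom (ZMod p)) := by
      rw [huv, Polynomial.map_mul]
    have hu1 : u.map (Int.castRingHom (ZMod p)) ≠ 0 := by
      intro h; rw [h, zero_mul] at e1; exact hi.ne_zero e1
    have hv1 : v.map (Int.castRingHom (ZMod p)) ≠ 0 := by
      intro h; rw [h, mul_zero] at e1; exact hi.ne_zero e1
    have d1 : f.natDegree = u.natDegree + v.natDegree := by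
      rw [huv, Polynomial.natDegree_mul hu0 hv0]
    have d2 : (f.map (Int.castRingHom (ZMod p))).natDegree =
        (u.map (Int.castRingHom (ZMod p))).natDegree +
        (v.map (Int.castRingHom (ZMod p))).natDegree := by
      rw [e1, Polynomial.natDegree_mul hu1 hv1]
    have l1 := Polynomial.natDegree_map_le (f := Int.castRingHom (ZMod p)) (p := u)
    have l2 := Polynomial.natDegree_map_le (f := Int.castRingHom (ZMod p)) (p := v)
    have key : ∀ w : ℤ[X], w ∣ f → w.natDegree = 0 → IsUnit w := by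
      intro w hw hw0
      rw [Polynomial.eq_C_of_natDegree_eq_zero hw0] at hw ⊢
      exact Polynomial.isUnit_C.2 (hprim _ hw)
    rcases hi.isUnit_or_isUnit e1 with h | h
    · left
      have := Polynomial.natDegree_eq_zero_of_isUnit h
      exact key u ⟨v, huv⟩ (by omega)
    · right
      have := Polynomial.natDegree_eq_zero_of_isUnit h
      exact key v ⟨u, by rw [huv, mul_comm]⟩ (by omega)

variable {n : ℕ}

/-- The polynomial `A` of a vector. -/
def Av {R : Type} [CommRing R] (c : Fin n → R) : R[X] := (quad true (List.ofFn c)).A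
/-- The polynomial `C` of a vector. -/
def Cv {R : Type} [CommRing R] (c : Fin n → R) : R[X] := (quad true (List.ofFn c)).C

theorem Av_map {R S : Type} [CommRing R] [CommRing S] (f : R →+* S) (c : Fin n → R) :
    Av (fun i => f (c i)) = (Av c).map f := by
  unfold Av
  have : (List.ofFn fun i => f (c i)) = (List.ofFn c).map f := by
    rw [List.map_ofFn]; rfl
  rw [this, quad_map]

theorem Av_zero {R : Type} [CommRing R] (c : Fin n → R) : (Av c).coeff 0 = 1 :=
  quad_coeff_zero _ _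

theorem ofFn_ne {R : Type} [CommRing R] {c : Fin n → R} (hc : ∀ i, c i ≠ 0) :
    ∀ x ∈ List.ofFn c, x ≠ 0 := by
  intro x hx
  rw [List.mem_ofFn] at hx
  obtain ⟨i, rfl⟩ := hx
  exact hc i

theorem Av_degree {R : Type} [CommRing R] [IsDomain R] (hn : Even n) {c : Fin n → R}
    (hc : ∀ i, c i ≠ 0) : (∀ k, n / 2 < k → (Av c).coeff k = 0) ∧
      (∀ k, n / 2 ≤ k → (Cv c).coeff k = 0) ∧ (Av c).natDegree = n / 2 := by
  have hl : (List.ofFn c).length = n := List.length_ofFn
  obtain ⟨i1, i2, -, i4, -⟩ := quad_degree (List.ofFn c) (by rw [hl]; exact hn) (ofFn_ne hc)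
  rw [hl] at i1 i2 i4
  refine ⟨i2, i4, le_antisymm ?_ ?_⟩
  · rw [Polynomial.natDegree_le_iff_coeff_eq_zero]
    exact i2
  · apply Polynomial.le_natDegree_of_ne_zero
    show (quad true (List.ofFn c)).A.coeff (n / 2) ≠ 0
    rw [i1]
    exact prod_ne_zero' (ofFn_ne hc)

theorem AC_inj {R : Type} [CommRing R] [IsDomain R] (hn : Even n) {c c' : Fin n → R}
    (hc : ∀ i, c i ≠ 0) (hc' : ∀ i, c' i ≠ 0) (hA : Av c = Av c') (hC : Cv c = Cv c') : c = c' := by
  have h1 : (List.ofFn c).length = n := List.length_ofFn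
  have h2 : (List.ofFn c').length = n := List.length_ofFn
  have := quad_inj (List.ofFn c) (by rw [h1]; exact hn) (List.ofFn c') (by rw [h2]; exact hn)
    (ofFn_ne hc) (ofFn_ne hc') hA hC
  exact List.ofFn_injective this

/-- The vectors modulo `p` with irreducible `A`. -/
def gd (n p : ℕ) [Fact p.Prime] : Finset (Fin n → ZMod p) :=
  haveI : DecidablePred fun c : Fin n → ZMod p => (∀ i, c i ≠ 0) ∧ Irreducible (Av c) :=
    Classical.decPred _
  Finset.univ.filter fun c => (∀ i, c i ≠ 0) ∧ Irreducible (Av c)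

theorem mem_gd {p : ℕ} [Fact p.Prime] {c : Fin n → ZMod p} :
    c ∈ gd n p ↔ (∀ i, c i ≠ 0) ∧ Irreducible (Av c) := by
  unfold gd
  refine (@Finset.mem_filter _ _ (Classical.decPred _) _ _).trans ?_
  exact ⟨fun h => h.2, fun h => ⟨Finset.mem_univ _, h⟩⟩

/-- A good reduction. -/
theorem irreducible_of_gd {p : ℕ} [hp : Fact p.Prime] (hn : Even n) {b : Fin n → ℤ}
    (h : (fun i => (b i : ZMod p)) ∈ gd n p) : Irreducible (rat (Av b)) := by
  obtain ⟨h1, h2⟩ := mem_gd.1 h
  have e : Av (fun i => (b i : ZMod p)) = (Av b).map (Int.castRingHom (ZMod p)) :=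
    Av_map (Int.castRingHom (ZMod p)) b
  have hb : ∀ i, b i ≠ 0 := by
    intro i hi
    exact h1 i (by rw [hi]; simp)
  refine irreducible_of_mod (Av_zero b) p ?_ (by rw [← e]; exact h2)
  rw [← e, (Av_degree hn h1).2.2, (Av_degree hn hb).2.2]

theorem card_gd {g : ℕ} (p : ℕ) [hp : Fact p.Prime] (hg : 0 < g) :
    (p - 1) ^ (2 * g) * g + (p ^ g) * p ^ g ≤
      (gd (2 * g) p).card * g + p ^ g * p ^ g * g + g * p ^ (g - 1) * p ^ g := by
  classical
  have hn : Even (2 * g) := even_two_mul g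
  have hn2 : 2 * g / 2 = g := by omega
  set T : Finset (Fin (2 * g) → ZMod p) := Finset.univ.filter fun c => ∀ i, c i ≠ 0 with hT
  set I : Finset (Fin g → ZMod p) := Finset.univ.filter fun v => Good' v with hI
  have hTcard : T.card = (p - 1) ^ (2 * g) := by
    have e : T = Fintype.piFinset fun _ : Fin (2 * g) => (Finset.univ.erase (0 : ZMod p)) := by
      ext c
      simp [hT]
    rw [e, Fintype.card_piFinset]
    simp [ZMod.card]
  have hgsub : gd (2 * g) p ⊆ T := fun c hc =>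
    Finset.mem_filter.2 ⟨Finset.mem_univ _, (mem_gd.1 hc).1⟩
  have hbad : (T \ gd (2 * g) p).card ≤ (Finset.univ \ I).card * p ^ g := by
    let ψ : (Fin (2 * g) → ZMod p) → (Fin g → ZMod p) × (Fin g → ZMod p) := fun c =>
      (fun i => (Av c).coeff (i.val + 1), fun i => (Cv c).coeff i.val)
    have hmaps : ∀ c ∈ T \ gd (2 * g) p, ψ c ∈ (Finset.univ \ I) ×ˢ
        (Finset.univ : Finset (Fin g → ZMod p)) := by
      intro c hc
      obtain ⟨h1, h2⟩ := Finset.mem_sdiff.1 hc
      obtain ⟨-, h3⟩ := Finset.mem_filter.1 h1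
      refine Finset.mem_product.2 ⟨Finset.mem_sdiff.2 ⟨Finset.mem_univ _, fun h4 => ?_⟩,
        Finset.mem_univ _⟩
      obtain ⟨-, h5, -⟩ := Finset.mem_filter.1 h4
      apply h2
      refine mem_gd.2 ⟨h3, ?_⟩
      have := (Av_degree hn h3).1
      rw [hn2] at this
      rw [eq_pol (Av_zero c) this]
      exact h5
    have hinj : Set.InjOn ψ (T \ gd (2 * g) p : Finset _) := by
      intro c hc c' hc' e
      have h3 := (Finset.mem_filter.1 (Finset.mem_sdiff.1 (Finset.mem_coe.1 hc)).1).2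
      have h3' := (Finset.mem_filter.1 (Finset.mem_sdiff.1 (Finset.mem_coe.1 hc')).1).2
      obtain ⟨a1, a2, -⟩ := Av_degree hn h3
      obtain ⟨b1, b2, -⟩ := Av_degree hn h3'
      rw [hn2] at a1 a2 b1 b2
      have e1 := congrArg Prod.fst e
      have e2 := congrArg Prod.snd e
      refine AC_inj hn h3 h3' ?_ ?_
      · rw [eq_pol (Av_zero c) a1, eq_pol (Av_zero c') b1]
        exact congrArg pol e1
      · ext k
        rcases Nat.lt_or_ge k g with hk | hk
        · exact congrFun e2 ⟨k, hk⟩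
        · rw [a2 k hk, b2 k hk]
    calc (T \ gd (2 * g) p).card ≤ ((Finset.univ \ I) ×ˢ
          (Finset.univ : Finset (Fin g → ZMod p))).card :=
          Finset.card_le_card_of_injOn ψ hmaps hinj
      _ = _ := by
          rw [Finset.card_product]
          congr 1
          rw [Finset.card_univ, Fintype.card_fun, ZMod.card, Fintype.card_fin]
  have hIc : (Finset.univ \ I).card + I.card = p ^ g := by
    rw [Finset.card_sdiff_add_card_eq_card (Finset.subset_univ _), Finset.card_univ,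
      Fintype.card_fun, ZMod.card, Fintype.card_fin]
  have hTc : (T \ gd (2 * g) p).card + (gd (2 * g) p).card = T.card :=
    Finset.card_sdiff_add_card_eq_card hgsub
  have hgood := card_good p g hg
  have h1 : p ^ g * p ^ g ≤ (g * I.card + g * p ^ (g - 1)) * p ^ g :=
    Nat.mul_le_mul_right _ hgood
  have h2 : p ^ g * p ^ g * g = ((Finset.univ \ I).card + I.card) * p ^ g * g := by rw [hIc]
  have h3 : (p - 1) ^ (2 * g) * g ≤ ((Finset.univ \ I).card * p ^ g + (gd (2 * g) p).card) * g := by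
    refine Nat.mul_le_mul_right _ ?_
    omega
  nlinarith

/-- The proportion of good vectors modulo a large prime. -/
theorem card_gd_real {g : ℕ} (p : ℕ) [hp : Fact p.Prime] (hg : 0 < g)
    (hpg : 2 * g * (2 * g + 1) ≤ p) :
    (1 / (2 * g) : ℝ) * (p : ℝ) ^ (2 * g) ≤ ((gd (2 * g) p).card : ℝ) := by
  have h := card_gd p hg
  have hp1 : 1 ≤ p := hp.out.one_lt.le
  have h' : (((p - 1 : ℕ) : ℝ)) ^ (2 * g) * g + (p : ℝ) ^ g * (p : ℝ) ^ g ≤
      ((gd (2 * g) p).card : ℝ) * g + (p : ℝ) ^ g * (p : ℝ) ^ g * g +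
        g * (p : ℝ) ^ (g - 1) * (p : ℝ) ^ g := by exact_mod_cast h
  rw [Nat.cast_sub hp1, Nat.cast_one] at h'
  have hp0 : (0 : ℝ) < p := by exact_mod_cast hp.out.pos
  have hg0 : (0 : ℝ) < g := by exact_mod_cast hg
  have hbern : (p : ℝ) ^ (2 * g) - 2 * g * (p : ℝ) ^ (2 * g - 1) ≤ ((p : ℝ) - 1) ^ (2 * g) := by
    have h1 : (1 : ℝ) + ((2 * g : ℕ) : ℝ) * (-(1 / p)) ≤ (1 + -(1 / (p : ℝ))) ^ (2 * g) := by
      refine one_add_mul_le_pow ?_ _
      have : (1 : ℝ) / p ≤ 1 := by
        rw [div_le_one hp0]; exact_mod_cast hp1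
      linarith
    have h2 : ((p : ℝ) - 1) ^ (2 * g) = (p : ℝ) ^ (2 * g) * (1 + -(1 / (p : ℝ))) ^ (2 * g) := by
      rw [← mul_pow]
      congr 1
      field_simp
      ring
    rw [h2]
    have h3 : (p : ℝ) ^ (2 * g) = (p : ℝ) ^ (2 * g - 1) * p := by
      rw [← pow_succ]; congr 1; omega
    calc (p : ℝ) ^ (2 * g) - 2 * g * (p : ℝ) ^ (2 * g - 1)
        = (p : ℝ) ^ (2 * g) * (1 + ((2 * g : ℕ) : ℝ) * (-(1 / p))) := by
          rw [h3]; push_cast; field_simp; ring
      _ ≤ _ := mul_le_mul_of_nonneg_left h1 (by positivity)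
  have e1 : (p : ℝ) ^ g * (p : ℝ) ^ g = (p : ℝ) ^ (2 * g) := by rw [← pow_add]; congr 1; ring
  have e2 : (g : ℝ) * (p : ℝ) ^ (g - 1) * (p : ℝ) ^ g = g * (p : ℝ) ^ (2 * g - 1) := by
    rw [mul_assoc, ← pow_add]; congr 2; omega
  have e3 : (p : ℝ) ^ (2 * g) = (p : ℝ) ^ (2 * g - 1) * p := by
    rw [← pow_succ]; congr 1; omega
  rw [e1, e2] at h'
  have hpg' : (2 * g * (2 * g + 1) : ℝ) ≤ p := by exact_mod_cast hpg
  -- `g * card ≥ p^{2g} - 2 g^2 p^{2g-1} - g p^{2g-1}`
  have h4 : (p : ℝ) ^ (2 * g) - (2 * g * g + g) * (p : ℝ) ^ (2 * g - 1) ≤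
      ((gd (2 * g) p).card : ℝ) * g := by
    nlinarith
  have h5 : (2 * g * g + g) * (p : ℝ) ^ (2 * g - 1) ≤ (1 / 2) * (p : ℝ) ^ (2 * g) := by
    rw [e3]
    have : (0 : ℝ) ≤ (p : ℝ) ^ (2 * g - 1) := by positivity
    nlinarith
  have h6 : (1 / 2) * (p : ℝ) ^ (2 * g) ≤ ((gd (2 * g) p).card : ℝ) * g := by linarith
  calc (1 / (2 * g) : ℝ) * (p : ℝ) ^ (2 * g) = ((1 / 2) * (p : ℝ) ^ (2 * g)) / g := by
        field_simp
    _ ≤ ((gd (2 * g) p).card : ℝ) := by
        rw [div_le_iff₀ hg0]; exact h6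

/-! ### residue classes -/

/-- The vectors with reducible `A` are in few residue classes. -/
theorem exists_classes {g : ℕ} (hg : 0 < g) (r : ℕ) : ∃ (M : ℕ) (_ : 0 < M)
    (S : Finset (Fin (2 * g) → ZMod M)),
    (S.card : ℝ) ≤ (1 - 1 / (2 * g) : ℝ) ^ r * (M : ℝ) ^ (2 * g) ∧
    ∀ b : Fin (2 * g) → ℤ, ¬ Irreducible (rat (Av b)) → (fun i => (b i : ZMod M)) ∈ S := by
  classical
  have hn : Even (2 * g) := even_two_mul g
  have hk : (0 : ℝ) ≤ 1 - 1 / (2 * g) := by
    have : (1 : ℝ) ≤ g := by exact_mod_cast hg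
    rw [sub_nonneg, div_le_one (by positivity)]
    linarith
  induction r with
  | zero =>
    refine ⟨1, one_pos, Finset.univ, ?_, fun b _ => Finset.mem_univ _⟩
    rw [Finset.card_univ, Fintype.card_fun, ZMod.card]
    simp
  | succ r ih =>
    obtain ⟨M, hM, S, hS1, hS2⟩ := ih
    obtain ⟨p, hp1, hp2⟩ := Nat.exists_infinite_primes (max (2 * g * (2 * g + 1)) (M + 1))
    have : Fact p.Prime := ⟨hp2⟩
    have hpM : p.Coprime M := by
      rw [Nat.Prime.coprime_iff_not_dvd hp2]
      intro h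
      have := Nat.le_of_dvd hM h
      have := le_max_right (2 * g * (2 * g + 1)) (M + 1)
      omega
    have : NeZero M := ⟨hM.ne'⟩
    have : NeZero p := ⟨hp2.ne_zero⟩
    have hcard := card_gd_real p hg ((le_max_left _ _).trans hp1)
    let e := ZMod.chineseRemainder hpM
    let E : (Fin (2 * g) → ZMod p) × (Fin (2 * g) → ZMod M) → (Fin (2 * g) → ZMod (p * M)) :=
      fun x i => e.symm (x.1 i, x.2 i)
    refine ⟨p * M, Nat.mul_pos hp2.pos hM, (((Finset.univ \ gd (2 * g) p) ×ˢ S).image E), ?_, ?_⟩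
    · have h1 : ((((Finset.univ \ gd (2 * g) p) ×ˢ S).image E).card : ℝ) ≤
          ((Finset.univ \ gd (2 * g) p).card : ℝ) * S.card := by
        have : (((Finset.univ \ gd (2 * g) p) ×ˢ S).image E).card ≤
            (Finset.univ \ gd (2 * g) p).card * S.card := by
          refine Finset.card_image_le.trans ?_
          rw [Finset.card_product]
        exact_mod_cast this
      have h2 : ((Finset.univ \ gd (2 * g) p).card : ℝ) ≤
          (1 - 1 / (2 * g)) * (p : ℝ) ^ (2 * g) := by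
        have h3 : (Finset.univ \ gd (2 * g) p).card + (gd (2 * g) p).card = p ^ (2 * g) := by
          rw [Finset.card_sdiff_add_card_eq_card (Finset.subset_univ _), Finset.card_univ,
            Fintype.card_fun, ZMod.card, Fintype.card_fin]
        have h4 : ((Finset.univ \ gd (2 * g) p).card : ℝ) + ((gd (2 * g) p).card : ℝ) =
            (p : ℝ) ^ (2 * g) := by exact_mod_cast h3
        linarith
      calc _ ≤ _ := h1
        _ ≤ ((1 - 1 / (2 * g)) * (p : ℝ) ^ (2 * g)) *
            ((1 - 1 / (2 * g) : ℝ) ^ r * (M : ℝ) ^ (2 * g)) := by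
            refine mul_le_mul h2 hS1 (Nat.cast_nonneg _) ?_
            positivity
        _ = _ := by
            push_cast
            rw [mul_pow, pow_succ]
            ring
    · intro b hb
      refine Finset.mem_image.2 ⟨(fun i => (b i : ZMod p), fun i => (b i : ZMod M)), ?_, ?_⟩
      · refine Finset.mem_product.2 ⟨Finset.mem_sdiff.2 ⟨Finset.mem_univ _, fun h => ?_⟩, hS2 b hb⟩
        exact hb (irreducible_of_gd hn h)
      · funext i
        show e.symm ((b i : ZMod p), (b i : ZMod M)) = (b i : ZMod (p * M))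
        rw [RingEquiv.symm_apply_eq, map_intCast]
        rfl

/-- The number of integers in a residue class. -/
theorem card_class (M : ℕ) (hM : 0 < M) (N : ℕ) (x : ZMod M) :
    ((Finset.Icc (-(N : ℤ)) N).filter fun y : ℤ => (y : ZMod M) = x).card ≤ 2 * N / M + 1 := by
  have : ((Finset.Icc (-(N : ℤ)) N).filter fun y : ℤ => (y : ZMod M) = x).card ≤
      (Finset.range (2 * N / M + 1)).card := by
    refine Finset.card_le_card_of_injOn (fun y => ((y + N) / M).toNat) ?_ ?_
    · intro y hy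
      obtain ⟨h1, -⟩ := Finset.mem_filter.1 hy
      obtain ⟨h2, h3⟩ := Finset.mem_Icc.1 h1
      refine Finset.mem_range.2 ?_
      have hM' : (0 : ℤ) < M := by exact_mod_cast hM
      have h4 : (y + N) / M ≤ (2 * N : ℤ) / M := Int.ediv_le_ediv hM' (by linarith)
      have h5 : 0 ≤ (y + N) / (M : ℤ) := Int.ediv_nonneg (by linarith) hM'.le
      have h6 : ((2 * N / M : ℕ) : ℤ) = (2 * N : ℤ) / M := by push_cast; rfl
      have : (((y + N) / M).toNat : ℤ) ≤ ((2 * N / M : ℕ) : ℤ) := by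
        rw [Int.toNat_of_nonneg h5, h6]
        exact h4
      have : ((y + N) / (M : ℤ)).toNat ≤ 2 * N / M := by exact_mod_cast this
      exact Nat.lt_succ_of_le this
    · intro y hy z hz e
      obtain ⟨h1, h1'⟩ := Finset.mem_filter.1 (Finset.mem_coe.1 hy)
      obtain ⟨h2, h2'⟩ := Finset.mem_filter.1 (Finset.mem_coe.1 hz)
      obtain ⟨h3, -⟩ := Finset.mem_Icc.1 h1
      obtain ⟨h4, -⟩ := Finset.mem_Icc.1 h2
      have hM' : (0 : ℤ) < M := by exact_mod_cast hM
      have e1 : (y + N) / (M : ℤ) = (z + N) / (M : ℤ) := by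
        have a1 : 0 ≤ (y + N) / (M : ℤ) := Int.ediv_nonneg (by linarith) hM'.le
        have a2 : 0 ≤ (z + N) / (M : ℤ) := Int.ediv_nonneg (by linarith) hM'.le
        have e : ((y + N) / (M : ℤ)).toNat = ((z + N) / (M : ℤ)).toNat := e
        rw [← Int.toNat_of_nonneg a1, ← Int.toNat_of_nonneg a2, e]
      have e2 : (y + N) % (M : ℤ) = (z + N) % (M : ℤ) := by
        have : ((y + N : ℤ) : ZMod M) = ((z + N : ℤ) : ZMod M) := by
          push_cast
          rw [h1', h2']
        exact (ZMod.intCast_eq_intCast_iff' _ _ _).1 this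
      have a1 := Int.mul_ediv_add_emod (y + N) M
      have a2 := Int.mul_ediv_add_emod (z + N) M
      rw [e1, e2] at a1
      linarith
  rwa [Finset.card_range] at this

/-- The vectors of nonzero integers in `[-N, N]`. -/
def box (n N : ℕ) : Finset (Fin n → ℤ) :=
  Fintype.piFinset fun _ => (Finset.Icc (-(N : ℤ)) N).erase 0

theorem mem_box {n N : ℕ} {b : Fin n → ℤ} : b ∈ box n N ↔ ∀ i, b i ≠ 0 ∧ |b i| ≤ N := by
  unfold box
  rw [Fintype.mem_piFinset]
  refine forall_congr' fun i => ?_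
  rw [Finset.mem_erase, Finset.mem_Icc, abs_le]

theorem card_box (n N : ℕ) : (box n N).card = (2 * N) ^ n := by
  unfold box
  rw [Fintype.card_piFinset, Finset.prod_const, Finset.card_univ, Fintype.card_fin,
    Finset.card_erase_of_mem (Finset.mem_Icc.2 (by omega)), Int.card_Icc]
  congr 1
  omega

theorem count_box {n : ℕ} (M : ℕ) (hM : 0 < M) (S : Finset (Fin n → ZMod M)) (N : ℕ)
    (B : Finset (Fin n → ℤ)) (hB : B ⊆ box n N)
    (hBS : ∀ b ∈ B, (fun i => (b i : ZMod M)) ∈ S) : B.card ≤ S.card * (2 * N / M + 1) ^ n := by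
  classical
  rw [mul_comm]
  refine Finset.card_le_mul_card_image_of_maps_to (f := fun b i => (b i : ZMod M)) hBS _
    fun s _ => ?_
  calc (B.filter fun b => (fun i => (b i : ZMod M)) = s).card
      ≤ (Fintype.piFinset fun i => (Finset.Icc (-(N : ℤ)) N).filter
          fun y : ℤ => (y : ZMod M) = s i).card := by
        apply Finset.card_le_card
        intro b hb
        obtain ⟨h1, h2⟩ := Finset.mem_filter.1 hb
        rw [Fintype.mem_piFinset]
        intro i
        have h3 := (mem_box.1 (hB h1)) i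
        refine Finset.mem_filter.2 ⟨Finset.mem_Icc.2 (abs_le.1 h3.2), congrFun h2 i⟩
    _ = ∏ i : Fin n, ((Finset.Icc (-(N : ℤ)) N).filter fun y : ℤ => (y : ZMod M) = s i).card :=
        Fintype.card_piFinset _
    _ ≤ ∏ _i : Fin n, (2 * N / M + 1) :=
        Finset.prod_le_prod' fun i _ => card_class M hM N (s i)
    _ = (2 * N / M + 1) ^ n := by simp

/-- **Density.** Among the vectors of `2g` nonzero integers in `[-N, N]`, the proportion of those
with reducible `A` tends to zero. -/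
theorem density {g : ℕ} (hg : 0 < g) (ε : ℝ) (hε : 0 < ε) : ∃ N₀ : ℕ, ∀ N ≥ N₀,
    ∀ B : Finset (Fin (2 * g) → ℤ), B ⊆ box (2 * g) N →
      (∀ b ∈ B, ¬ Irreducible (rat (Av b))) → (B.card : ℝ) ≤ ε * (2 * N) ^ (2 * g) := by
  have hg1 : (1 : ℝ) ≤ g := by exact_mod_cast hg
  have hk : (0 : ℝ) ≤ 1 - 1 / (2 * g) := by
    rw [sub_nonneg, div_le_one (by positivity)]
    linarith
  have hk1 : (1 - 1 / (2 * g) : ℝ) < 1 := by
    have : (0 : ℝ) < 1 / (2 * g) := by positivity
    linarith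
  obtain ⟨r, hr⟩ := exists_pow_lt_of_lt_one (show 0 < ε / 2 by positivity) hk1
  obtain ⟨M, hM, S, hS1, hS2⟩ := exists_classes hg r
  have hlim : Filter.Tendsto (fun N : ℕ => (1 + (M : ℝ) * ((N : ℝ))⁻¹) ^ (2 * g)) Filter.atTop
      (nhds ((1 + (M : ℝ) * 0) ^ (2 * g))) :=
    ((tendsto_inv_atTop_nhds_zero_nat (𝕜 := ℝ)).const_mul (M : ℝ) |>.const_add 1).pow _
  rw [mul_zero, add_zero, one_pow] at hlim
  have hev := (hlim.eventually (gt_mem_nhds (show (1 : ℝ) < 2 by norm_num))).and
    (Filter.eventually_ge_atTop 1)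
  obtain ⟨N₀, hN₀⟩ := Filter.eventually_atTop.1 hev
  refine ⟨N₀, fun N hN B hB hirr => ?_⟩
  obtain ⟨h1, h2⟩ := hN₀ N hN
  have hcount := count_box M hM S N B hB fun b hb => hS2 b (hirr b hb)
  have hM0 : (0 : ℝ) < M := by exact_mod_cast hM
  have hN0 : (0 : ℝ) < N := by exact_mod_cast h2
  have hc : (B.card : ℝ) ≤ (S.card : ℝ) * ((2 * N : ℝ) / M + 1) ^ (2 * g) := by
    calc (B.card : ℝ) ≤ (S.card : ℝ) * (((2 * N / M : ℕ) : ℝ) + 1) ^ (2 * g) := by
          exact_mod_cast hcount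
      _ ≤ _ := by
          refine mul_le_mul_of_nonneg_left ?_ (Nat.cast_nonneg _)
          refine pow_le_pow_left₀ (by positivity) ?_ _
          have := Nat.cast_div_le (α := ℝ) (m := 2 * N) (n := M)
          push_cast at this
          linarith
  calc (B.card : ℝ) ≤ (S.card : ℝ) * ((2 * N : ℝ) / M + 1) ^ (2 * g) := hc
    _ ≤ ((1 - 1 / (2 * g) : ℝ) ^ r * (M : ℝ) ^ (2 * g)) * ((2 * N : ℝ) / M + 1) ^ (2 * g) :=
        mul_le_mul_of_nonneg_right hS1 (by positivity)
    _ = (1 - 1 / (2 * g) : ℝ) ^ r * ((2 * N : ℝ) + M) ^ (2 * g) := by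
        rw [mul_assoc, ← mul_pow]
        congr 2
        field_simp
    _ ≤ (ε / 2) * ((2 * N : ℝ) + M) ^ (2 * g) :=
        mul_le_mul_of_nonneg_right hr.le (by positivity)
    _ ≤ (ε / 2) * (2 * (2 * N) ^ (2 * g)) := by
        refine mul_le_mul_of_nonneg_left ?_ (by positivity)
        have h3 : (2 * N : ℝ) + M ≤ (2 * N) * (1 + (M : ℝ) * ((N : ℝ))⁻¹) := by
          have : (2 * N : ℝ) * (1 + (M : ℝ) * ((N : ℝ))⁻¹) = 2 * N + 2 * M := by
            field_simp
          rw [this]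
          linarith
        calc ((2 * N : ℝ) + M) ^ (2 * g) ≤ ((2 * N) * (1 + (M : ℝ) * ((N : ℝ))⁻¹)) ^ (2 * g) :=
              pow_le_pow_left₀ (by positivity) h3 _
          _ = (2 * N) ^ (2 * g) * (1 + (M : ℝ) * ((N : ℝ))⁻¹) ^ (2 * g) := mul_pow _ _ _
          _ ≤ (2 * N) ^ (2 * g) * 2 := mul_le_mul_of_nonneg_left h1.le (by positivity)
          _ = _ := by ring
    _ = ε * (2 * N) ^ (2 * g) := by ring

end

end Pool.Agent.K7.H38.TB
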