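import Pool.Agent.K7.H38.TB.Crit

/-!
# Two-bridge knots with prime determinant
-/

set_option autoImplicit false

namespace Pool.Agent.K7.H38.TB

open Pool.Agent.H835R2 Pool.Agent.H835R2.Knot
open Polynomial

noncomputable section

/-- `A` at `z = 2 i`. -/
def dA (l : List ℤ) : ℤ := (quad true l).A.eval (-4)
/-- `2 B` at `z = 2 i`. -/
def dB (l : List ℤ) : ℤ := 2 * (quad true l).B.eval (-4)
/-- `2 C` at `z = 2 i`. -/
def dC (l : List ℤ) : ℤ := 2 * (quad true l).C.eval (-4)

theorem dC_cons2 (a b : ℤ) (l : List ℤ) : dC (a :: b :: l) = dC l + 2 * b * dA l := by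
  unfold dC dA
  rw [quad_cons2]
  simp
  ring

theorem dA_cons2 (a b : ℤ) (l : List ℤ) : dA (a :: b :: l) = dA l - 2 * a * dC (a :: b :: l) := by
  unfold dC dA
  rw [quad_cons2]
  simp
  ring

theorem abs_lt (l : List ℤ) (hl : Even l.length) (h0 : ∀ x ∈ l, x ≠ 0) : |dC l| < |dA l| := by
  induction l, hl using even_induction with
  | h0 => simp [dC, dA, quad]
  | h2 a b l hl _ ih =>
    have ih := ih fun x hx => h0 x (by simp [hx])
    have ha : 1 ≤ |a| := Int.one_le_abs (h0 a (by simp))
    have hb : 1 ≤ |b| := Int.one_le_abs (h0 b (by simp))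
    have h1 : |dA l| < |dC (a :: b :: l)| := by
      have e : 2 * b * dA l = dC (a :: b :: l) - dC l := by rw [dC_cons2]; ring
      have h2 : 2 * |b| * |dA l| ≤ |dC (a :: b :: l)| + |dC l| := by
        rw [show 2 * |b| * |dA l| = |2 * b * dA l| by rw [abs_mul, abs_mul]; norm_num, e]
        exact abs_sub _ _
      nlinarith [abs_nonneg (dA l)]
    have e : 2 * a * dC (a :: b :: l) = dA l - dA (a :: b :: l) := by rw [dA_cons2]; ring
    have h2 : 2 * |a| * |dC (a :: b :: l)| ≤ |dA l| + |dA (a :: b :: l)| := by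
      rw [show 2 * |a| * |dC (a :: b :: l)| = |2 * a * dC (a :: b :: l)| by
        rw [abs_mul, abs_mul]; norm_num, e]
      exact abs_sub _ _
    nlinarith [abs_nonneg (dC (a :: b :: l))]

theorem abs_lt' (a b : ℤ) (l : List ℤ) (hl : Even l.length) (h0 : ∀ x ∈ a :: b :: l, x ≠ 0) :
    |dA l| < |dC (a :: b :: l)| := by
  have ih := abs_lt l hl fun x hx => h0 x (by simp [hx])
  have hb : 1 ≤ |b| := Int.one_le_abs (h0 b (by simp))
  have e : 2 * b * dA l = dC (a :: b :: l) - dC l := by rw [dC_cons2]; ring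
  have h2 : 2 * |b| * |dA l| ≤ |dC (a :: b :: l)| + |dC l| := by
    rw [show 2 * |b| * |dA l| = |2 * b * dA l| by rw [abs_mul, abs_mul]; norm_num, e]
    exact abs_sub _ _
  nlinarith [abs_nonneg (dA l)]

theorem abs_ge (l : List ℤ) (hl : Even l.length) (h0 : ∀ x ∈ l, x ≠ 0) (hne : l ≠ []) :
    1 < |dA l| := by
  induction l, hl using even_induction with
  | h0 => exact absurd rfl hne
  | h2 a b l hl h' ih =>
    have h1 := abs_lt (a :: b :: l) h' h0
    have h2 := abs_lt' a b l hl h0
    have := abs_nonneg (dA l)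
    omega

/-- A small multiple. -/
theorem small {x y z : ℤ} {a : ℤ} (h : 2 * a * x = y - z) (h1 : |y| < |x|) (h2 : |z| < |x|) :
    a = 0 := by
  by_contra hne
  have ha : 1 ≤ |a| := Int.one_le_abs hne
  have h3 : 2 * |a| * |x| ≤ |y| + |z| := by
    rw [show 2 * |a| * |x| = |2 * a * x| by rw [abs_mul, abs_mul]; norm_num, h]
    exact abs_sub _ _
  nlinarith [abs_nonneg x]

/-- The numbers determine the list. -/
theorem det_inj (l : List ℤ) (hl : Even l.length) : ∀ l' : List ℤ, Even l'.length →
    (∀ x ∈ l, x ≠ 0) → (∀ x ∈ l', x ≠ 0) → dA l = dA l' → dC l = dC l' → l = l' := by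
  induction l, hl using even_induction with
  | h0 =>
    intro l' hl' _ h0' hA _
    by_contra hne
    have := abs_ge l' hl' h0' (Ne.symm hne)
    rw [← hA] at this
    simp [dA, quad] at this
  | h2 a b l hl h ih =>
    intro l' hl' h0 h0' hA hC
    obtain ⟨a', b', t, rfl⟩ : ∃ a' b' t, l' = a' :: b' :: t := by
      match l', hl' with
      | [], _ =>
        exfalso
        have := abs_ge _ h h0 (by simp)
        rw [hA] at this
        simp [dA, quad] at this
      | [x], h => exact absurd h (by simp)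
      | a' :: b' :: t, _ => exact ⟨a', b', t, rfl⟩
    have ht : Even t.length := by
      have : (a' :: b' :: t).length = t.length + 2 := rfl
      rw [this] at hl'
      exact (Nat.even_add.1 hl').2 even_two
    have h0l : ∀ x ∈ l, x ≠ 0 := fun x hx => h0 x (by simp [hx])
    have h0t : ∀ x ∈ t, x ≠ 0 := fun x hx => h0' x (by simp [hx])
    have haa : a - a' = 0 := by
      refine small (x := dC (a :: b :: l)) (y := dA l) (z := dA t) ?_ (abs_lt' a b l hl h0) ?_
      · have e1 := dA_cons2 a b l
        have e2 := dA_cons2 a' b' t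
        rw [← hA, ← hC] at e2
        linear_combination e1 - e2
      · rw [hC]; exact abs_lt' a' b' t ht h0'
    obtain rfl : a = a' := by omega
    have hA2 : dA l = dA t := by
      have e1 := dA_cons2 a b l
      have e2 := dA_cons2 a b' t
      rw [← hA, ← hC] at e2
      linarith
    have hbb : b - b' = 0 := by
      refine small (x := dA l) (y := dC t) (z := dC l) ?_ ?_ (abs_lt l hl h0l)
      · have e1 := dC_cons2 a b l
        have e2 := dC_cons2 a b' t
        rw [← hC, ← hA2] at e2
        linear_combination e2 - e1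
      · rw [hA2]; exact abs_lt t ht h0t
    obtain rfl : b = b' := by omega
    have hC2 : dC l = dC t := by
      have e1 := dC_cons2 a b l
      have e2 := dC_cons2 a b t
      rw [← hC, ← hA2] at e2
      linarith
    rw [ih t ht h0l h0t hA2 hC2]

theorem dB_eq (l : List ℤ) (hl : Even l.length) : dB l = dC l.reverse := by
  unfold dB dC
  rw [quad_reverse l hl]

theorem dA_reverse (l : List ℤ) (hl : Even l.length) : dA l.reverse = dA l := by
  unfold dA
  rw [quad_reverse l hl]

theorem abs_ltB (l : List ℤ) (hl : Adm l) : |dB l| < |dA l| := by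
  rw [dB_eq l hl.1, ← dA_reverse l hl.1]
  exact abs_lt _ hl.reverse.1 hl.reverse.2

theorem dA_odd (l : List ℤ) : ∃ k, dA l = 1 + 4 * k := by
  unfold dA
  have h : (-4 : ℤ) ∣ (quad true l).A.eval (-4) - (quad true l).A.eval 0 := by
    have := Polynomial.sub_dvd_eval_sub (-4) 0 (quad true l).A
    simpa using this
  obtain ⟨k, hk⟩ := h
  have h0 : (quad true l).A.eval 0 = 1 := by
    rw [← Polynomial.coeff_zero_eq_eval_zero]; exact quad_coeff_zero _ _
  exact ⟨-k, by rw [h0] at hk; linarith⟩

/-- Two-bridge knots with prime determinant. -/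
theorem separated_prime {l l' : List ℤ} (hl : Adm l) (hl' : Adm l') (hp : (dA l).natAbs.Prime)
    (h : ¬ Separated (max l.length l'.length + 1) (twoBridge l) (twoBridge l')) :
    l' = l ∨ l' = l.reverse := by
  have hs := same_of_not_sep hl hl' h
  have hA : dA l = dA l' := by unfold dA; rw [hs.A]
  have hBC : dB l + dC l = dB l' + dC l' := by
    have := congrArg (Polynomial.eval (-4)) hs.BC
    unfold dB dC
    rw [Polynomial.eval_add, Polynomial.eval_add] at this
    linarith
  have hkey : dA l ∣ (dB l' - dB l) * (dB l' - dC l) := by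
    have := congrArg (Polynomial.eval (-4)) hs.key
    simp only [Polynomial.eval_mul, Polynomial.eval_X, Polynomial.eval_sub] at this
    refine ⟨-((quad true l).D.eval (-4) - (quad true l').D.eval (-4)), ?_⟩
    unfold dA dB dC
    linear_combination -this
  have hprime : Prime (dA l) := Int.prime_iff_natAbs_prime.2 hp
  have hC : |dC l| < |dA l| := abs_lt l hl.1 hl.2
  have hB : |dB l| < |dA l| := abs_ltB l hl
  have hB' : |dB l'| < |dA l| := by rw [hA]; exact abs_ltB l' hl'
  -- an even number divisible by `dA`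
  have hz : ∀ y : ℤ, |y| < |dA l| → (∃ k, y = 2 * k) → dA l ∣ dB l' - y → dB l' = y := by
    rintro y hy ⟨k, hk⟩ ⟨c, hc⟩
    obtain ⟨j, hj⟩ := dA_odd l
    have hd : dB l' - y = 2 * ((quad true l').B.eval (-4) - k) := by rw [hk]; unfold dB; ring
    have h2 : 2 ∣ c := by
      have : 2 ∣ dA l * c := by rw [← hc, hd]; exact dvd_mul_right _ _
      rw [hj] at this
      have h3 : 2 ∣ (1 + 4 * j) * c - 2 * (2 * j * c) := dvd_sub this (dvd_mul_right _ _)
      have h4 : (1 + 4 * j) * c - 2 * (2 * j * c) = c := by ring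
      rwa [h4] at h3
    obtain ⟨d, rfl⟩ := h2
    have := small (x := dA l) (a := d) (y := dB l') (z := y) (by rw [hc]; ring) hB' hy
    rw [this] at hc
    simp at hc
    linarith
  rcases hprime.dvd_or_dvd hkey with h1 | h1
  · left
    have hBB := hz (dB l) hB ⟨_, rfl⟩ h1
    refine det_inj l' hl'.1 l hl.1 hl'.2 hl.2 hA.symm ?_
    rw [hBB] at hBC
    linarith
  · right
    have hBB := hz (dC l) hC ⟨_, rfl⟩ h1
    refine det_inj l' hl'.1 l.reverse hl.reverse.1 hl'.2 hl.reverse.2 ?_ ?_
    · rw [dA_reverse l hl.1, hA]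
    · rw [← dB_eq l hl.1]
      rw [hBB] at hBC
      linarith

end

end Pool.Agent.K7.H38.TB
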