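import Pool.Agent.K7.H38.TB.Transfer
import Pool.Agent.K7.H38.TB.Coef

/-!
# The filtration of the HOMFLY polynomial
-/

set_option autoImplicit false

namespace Pool.Agent.K7.H38.TB

open Pool.Agent.H835R2 Pool.Agent.H835R2.Knot
open Pool.Agent.Helper454
open Pool.Agent.Helper454.Wh (Rlm lPow mPow)
open LaurentPolynomial

noncomputable section

/-- The span of the `c (l - 1)^a m^b`, `a + b ≥ k`. -/
def S (k : ℤ) : Submodule ℤ Rlm :=
  Submodule.span ℤ {x | ∃ (c : LaurentPolynomial ℤ) (a : ℕ) (b : ℤ), k ≤ a + b ∧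
    x = C (c * (T 1 - 1) ^ a) * T b}

theorem gen_mem {k : ℤ} (c : LaurentPolynomial ℤ) (a : ℕ) (b : ℤ) (h : k ≤ a + b) :
    (C (c * (T 1 - 1) ^ a) * T b : Rlm) ∈ S k :=
  Submodule.subset_span ⟨c, a, b, h, rfl⟩

theorem S_mul {k l : ℤ} {x y : Rlm} (hx : x ∈ S k) (hy : y ∈ S l) : x * y ∈ S (k + l) := by
  induction hx using Submodule.span_induction with
  | zero => rw [zero_mul]; exact zero_mem _
  | add x x' _ _ h h' => rw [add_mul]; exact add_mem h h'
  | smul n x _ h => rw [smul_mul_assoc]; exact Submodule.smul_mem _ _ h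
  | mem x hx =>
    obtain ⟨c, a, b, hab, rfl⟩ := hx
    induction hy using Submodule.span_induction with
    | zero => rw [mul_zero]; exact zero_mem _
    | add x x' _ _ h h' => rw [mul_add]; exact add_mem h h'
    | smul n x _ h => rw [mul_smul_comm]; exact Submodule.smul_mem _ _ h
    | mem y hy =>
      obtain ⟨c', a', b', hab', rfl⟩ := hy
      have : (C (c * (T 1 - 1) ^ a) * T b * (C (c' * (T 1 - 1) ^ a') * T b') : Rlm) =
          C ((c * c') * (T 1 - 1) ^ (a + a')) * T (b + b') := by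
        rw [T_add, pow_add]
        simp only [map_mul]
        ring
      rw [this]
      exact gen_mem _ _ _ (by push_cast; omega)

theorem S_mono {k l : ℤ} (h : l ≤ k) {x : Rlm} (hx : x ∈ S k) : x ∈ S l := by
  refine Submodule.span_mono ?_ hx
  rintro x ⟨c, a, b, hab, rfl⟩
  exact ⟨c, a, b, by omega, rfl⟩

theorem S_lPow (n : ℤ) : lPow n ∈ S 0 := by
  have := gen_mem (k := 0) (T n) 0 0 (by simp)
  simpa [lPow] using this

theorem S_mPow (n : ℤ) : mPow n ∈ S n := by
  have := gen_mem (k := n) 1 0 n (by simp)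
  simpa [mPow] using this

theorem S_one : (1 : Rlm) ∈ S 0 := by
  have := S_lPow 0
  rwa [Wh.Homf.lPow_zero] at this

theorem S_l2 : lPow 2 - 1 ∈ S 1 := by
  have := gen_mem (k := 1) (T 1 + 1) 1 0 (by simp)
  have e : (T 1 + 1 : LaurentPolynomial ℤ) * (T 1 - 1) ^ 1 = T 2 - 1 := by
    rw [pow_one, add_mul, mul_sub, mul_sub, ← T_add]
    norm_num
  rw [e, T_zero, mul_one, map_sub, map_one] at this
  exact this

theorem S_dl : (Wh.Homf.Par.dl : Rlm) ∈ S 0 := by
  have e : (Wh.Homf.Par.dl : Rlm) = mPow (-1) * (-(lPow (-1)) * (lPow 2 - 1)) := by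
    show mPow (-1) * (lPow (-1) - lPow 1) = _
    have e1 : lPow 1 = lPow (-1) * lPow 2 := by rw [← Wh.Homf.lPow_add]; norm_num
    rw [e1]
    ring
  rw [e]
  have h1 : -(lPow (-1)) * (lPow 2 - 1) ∈ S (0 + 1) :=
    S_mul (Submodule.neg_mem _ (S_lPow _)) S_l2
  have h2 := S_mul (S_mPow (-1)) h1
  norm_num at h2 ⊢
  exact h2

/-- `S 0` is a subring. -/
def S0 : Subring Rlm where
  carrier := S 0
  mul_mem' := fun hx hy => by
    have := S_mul hx hy
    rwa [add_zero] at this
  one_mem' := S_one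
  add_mem' := add_mem
  zero_mem' := zero_mem _
  neg_mem' := neg_mem

theorem good_S0 : Good S0 where
  a := S_lPow (-1)
  ai := S_lPow 1
  z := S_mono (by norm_num) (S_mPow 1)
  dl := S_dl

theorem val_mem (D : Knot.Word) : val D ∈ S 0 := by
  have h1 : Wh.Homf.ev1 Rlm (D.map toO) ∈ S0 := ev1_mem good_S0 _
  have h2 : lPow (Wh.Homf.wr (D.map toO) Wh.noD) ∈ S0 := S_lPow _
  exact S0.mul_mem h2 h1

end

end Pool.Agent.K7.H38.TB
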