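import Pool.Agent.K7.H38.TB.Rev
import Pool.Agent.K7.H38.TB.Dens
import Pool.Agent.K7.H38.TB.Det

/-!
# Summary: two-bridge knots
-/

set_option autoImplicit false

namespace Pool.Agent.K7.H38.TB

open Pool.Agent.H835R2 Pool.Agent.H835R2.Knot
open Polynomial

noncomputable section

theorem isotopic_of {b c : List ℤ} (hb : Adm b) (h : c = b ∨ c = b.reverse) :
    Knot.Isotopic (twoBridge b) (twoBridge c) := by
  rcases h with rfl | rfl
  · exact Relation.EqvGen.refl _
  · exact isotopic_reverse b hb.1

theorem switch_twist (i : ℕ) (b : ℤ) : (twist i b).map Knot.Piece.switch = twist i (-b) := by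
  unfold twist
  rw [List.map_replicate, Int.natAbs_neg]
  rcases lt_trichotomy b 0 with h | rfl | h
  · rw [if_neg (by omega), if_pos (by omega)]
    rfl
  · rfl
  · rw [if_pos (by omega), if_neg (by omega)]
    rfl

theorem switch_twists (m : Bool) (b : List ℤ) :
    (twists m b).map Knot.Piece.switch = twists m (b.map fun x => -x) := by
  induction b generalizing m with
  | nil => rfl
  | cons x b ih =>
    show (twist _ x ++ twists (!m) b).map _ = twist _ (-x) ++ twists (!m) (b.map fun x => -x)
    rw [List.map_append, switch_twist, ih]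

theorem mirror_twoBridge (b : List ℤ) :
    Knot.mirror (twoBridge b) = twoBridge (b.map fun x => -x) := by
  unfold Knot.mirror twoBridge
  rw [List.map_append, List.map_append, switch_twists]
  rfl

/-- The chirality of two-bridge knots. -/
theorem chirality (b : List ℤ) (hb : Adm b) :
    Knot.Isotopic (twoBridge b) (Knot.mirror (twoBridge b)) ∨
      Separated (b.length + 1) (twoBridge b) (Knot.mirror (twoBridge b)) := by
  rw [mirror_twoBridge]
  by_cases h : Separated (b.length + 1) (twoBridge b) (twoBridge (b.map fun x => -x))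
  · exact Or.inr h
  · left
    exact isotopic_of hb (Or.inr (chiral hb h).symm)

/-- Two-bridge knots with irreducible Conway polynomial or with prime determinant. -/
theorem criterion (b c : List ℤ) (hb : Adm b) (hc : Adm c) (f : ℤ[X])
    (hf : f.comp (X ^ 2) = nabla b)
    (h : Irreducible (f.map (Int.castRingHom ℚ)) ∨ (f.eval (-4)).natAbs.Prime) :
    Knot.Isotopic (twoBridge b) (twoBridge c) ∨
      Separated (max b.length c.length + 1) (twoBridge b) (twoBridge c) := by
  by_cases hs : Separated (max b.length c.length + 1) (twoBridge b) (twoBridge c)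
  · exact Or.inr hs
  · left
    have e := eq_A hb.1 hf
    subst e
    rcases h with h | h
    · exact isotopic_of hb (separated_irreducible hb hc h hs)
    · exact isotopic_of hb (separated_prime hb hc h hs)

theorem adm_ofFn {n N : ℕ} {b : Fin (2 * n) → ℤ} (h : b ∈ box (2 * n) N) : Adm (List.ofFn b) := by
  refine ⟨by rw [List.length_ofFn]; exact even_two_mul n, ?_⟩
  intro x hx
  rw [List.mem_ofFn] at hx
  obtain ⟨i, rfl⟩ := hx
  exact (mem_box.1 h i).1

/-- Almost all two-bridge knots of a given genus. -/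
theorem almost_all (g : ℕ) (hg : 0 < g) (ε : ℝ) (hε : 0 < ε) : ∃ N₀ : ℕ, ∀ N ≥ N₀,
    (Set.ncard {b : Fin (2 * g) → ℤ | (∀ i, b i ≠ 0 ∧ |b i| ≤ N) ∧
      ∃ c : List ℤ, Adm c ∧
        ¬ Knot.Isotopic (twoBridge (List.ofFn b)) (twoBridge c) ∧
        ¬ Separated (max (2 * g) c.length + 1) (twoBridge (List.ofFn b)) (twoBridge c)} : ℝ) ≤
      ε * (2 * N) ^ (2 * g) := by
  classical
  obtain ⟨N₀, h⟩ := density hg ε hε
  refine ⟨N₀, fun N hN => ?_⟩
  set B := (box (2 * g) N).filter fun b => ∃ c : List ℤ, Adm c ∧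
        ¬ Knot.Isotopic (twoBridge (List.ofFn b)) (twoBridge c) ∧
        ¬ Separated (max (2 * g) c.length + 1) (twoBridge (List.ofFn b)) (twoBridge c) with hB
  have e : {b : Fin (2 * g) → ℤ | (∀ i, b i ≠ 0 ∧ |b i| ≤ N) ∧
      ∃ c : List ℤ, Adm c ∧
        ¬ Knot.Isotopic (twoBridge (List.ofFn b)) (twoBridge c) ∧
        ¬ Separated (max (2 * g) c.length + 1) (twoBridge (List.ofFn b)) (twoBridge c)} =
      (B : Set (Fin (2 * g) → ℤ)) := by
    ext b
    rw [hB, Finset.mem_coe, Finset.mem_filter, mem_box]
    rfl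
  rw [e, Set.ncard_coe_finset]
  refine h N hN B (Finset.filter_subset _ _) fun b hb hirr => ?_
  rw [hB, Finset.mem_filter] at hb
  obtain ⟨hb1, c, hc, h1, h2⟩ := hb
  have hb2 := adm_ofFn hb1
  have hl : (List.ofFn b).length = 2 * g := List.length_ofFn
  have h3 : ¬ Separated (max (List.ofFn b).length c.length + 1) (twoBridge (List.ofFn b))
      (twoBridge c) := by
    rw [hl]
    exact h2
  exact h1 (isotopic_of hb2 (separated_irreducible hb2 hc hirr h3))

end

end Pool.Agent.K7.H38.TB
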