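import Pool.Agent.K7.H38.TB.Rot

/-!
# A two-bridge knot and the reversed sequence
-/

set_option autoImplicit false

namespace Pool.Agent.K7.H38.TB

open Pool.Agent.H835R2 Pool.Agent.H835R2.Knot
open Pool.Agent.Y466.FT

/-! ### identities of braids -/

section group

variable {G : Type} [Group G] {a b c : G}

theorem br1 (h : a * b * a = b * a * b) : a⁻¹ * b * a = b * a * b⁻¹ := by
  have : b * a = a⁻¹ * (b * a * b) := by rw [← h]; group
  calc a⁻¹ * b * a = (a⁻¹ * (b * a * b)) * b⁻¹ := by group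
    _ = b * a * b⁻¹ := by rw [← this]

theorem br2 (h : a * b * a = b * a * b) : a * b * a⁻¹ = b⁻¹ * a * b := by
  have : a * b = b⁻¹ * (a * b * a) := by rw [h]; group
  calc a * b * a⁻¹ = b⁻¹ * (a * b * a) * a⁻¹ := by rw [← this]
    _ = b⁻¹ * a * b := by group

theorem br3 (h : a * b * a = b * a * b) : a⁻¹ * b⁻¹ * a = b * a⁻¹ * b⁻¹ := by
  have := congrArg (·⁻¹) (br1 h)
  simp only [mul_inv_rev, inv_inv] at this
  rw [← mul_assoc, ← mul_assoc] at this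
  exact this

theorem br4 (h : a * b * a = b * a * b) : a * b⁻¹ * a⁻¹ = b⁻¹ * a⁻¹ * b := by
  have := congrArg (·⁻¹) (br2 h)
  simp only [mul_inv_rev, inv_inv] at this
  rw [← mul_assoc, ← mul_assoc] at this
  exact this

theorem id7 (h1 : a * c = c * a) (h2 : a * b * a = b * a * b) (h3 : c * b * c = b * c * b) :
    b⁻¹ * (a * c⁻¹) = (a * c⁻¹) * (b * a * c⁻¹ * b⁻¹)⁻¹ * (a * c⁻¹) * b⁻¹ := by
  have e5 : c * a⁻¹ = a⁻¹ * c := by
    calc c * a⁻¹ = a⁻¹ * (a * c) * a⁻¹ := by group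
      _ = a⁻¹ * c := by rw [h1]; group
  symm
  calc (a * c⁻¹) * (b * a * c⁻¹ * b⁻¹)⁻¹ * (a * c⁻¹) * b⁻¹
      = a * (c⁻¹ * b * c) * (a⁻¹ * b⁻¹ * a) * c⁻¹ * b⁻¹ := by group
    _ = a * (b * c * b⁻¹) * (b * a⁻¹ * b⁻¹) * c⁻¹ * b⁻¹ := by rw [br1 h3, br3 h2]
    _ = a * b * (c * a⁻¹) * b⁻¹ * c⁻¹ * b⁻¹ := by group
    _ = (a * b * a⁻¹) * (c * b⁻¹ * c⁻¹) * b⁻¹ := by rw [e5]; group
    _ = (b⁻¹ * a * b) * (b⁻¹ * c⁻¹ * b) * b⁻¹ := by rw [br2 h2, br4 h3]
    _ = b⁻¹ * (a * c⁻¹) := by group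

theorem id2 (h2 : a * b * a = b * a * b) (h3 : c * b * c = b * c * b) :
    a * (b * a * c⁻¹ * b⁻¹) = (b * a * c⁻¹ * b⁻¹) * (a * c⁻¹)⁻¹ * a := by
  symm
  calc (b * a * c⁻¹ * b⁻¹) * (a * c⁻¹)⁻¹ * a = b * a * (c⁻¹ * b⁻¹ * c) := by group
    _ = b * a * (b * c⁻¹ * b⁻¹) := by rw [br3 h3]
    _ = (b * a * b) * c⁻¹ * b⁻¹ := by group
    _ = a * (b * a * c⁻¹ * b⁻¹) := by rw [← h2]; group

end group

/-- The first generator of the kernel. -/
def k1 : Q := gn 0 * (gn 2)⁻¹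

/-- The second generator of the kernel. -/
def k2 : Q := gn 1 * gn 0 * (gn 2)⁻¹ * (gn 1)⁻¹

theorem h3' : gn 2 * gn 1 * gn 2 = gn 1 * gn 2 * gn 1 := gn_braid₁.symm

theorem k1_comm₀ : gn 0 * k1 = k1 * gn 0 := by
  have := gn_comm
  unfold k1
  calc gn 0 * (gn 0 * (gn 2)⁻¹) = gn 0 * (gn 2)⁻¹ * (gn 2 * gn 0) * (gn 2)⁻¹ := by group
    _ = gn 0 * (gn 2)⁻¹ * gn 0 := by rw [← this]; group

theorem J1 : (gn 0)⁻¹ * k1 = k1 * (gn 0)⁻¹ := by
  calc (gn 0)⁻¹ * k1 = (gn 0)⁻¹ * (k1 * gn 0) * (gn 0)⁻¹ := by group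
    _ = k1 * (gn 0)⁻¹ := by rw [← k1_comm₀]; group

theorem J2 : gn 0 * k2 = k2 * k1⁻¹ * gn 0 := id2 gn_braid₀ h3'

theorem J3 : (gn 0)⁻¹ * k2 = k2 * k1 * (gn 0)⁻¹ := by
  have h : k1 = gn 0 * k1 * (gn 0)⁻¹ := by rw [k1_comm₀]; group
  calc (gn 0)⁻¹ * k2 = (gn 0)⁻¹ * (k2 * k1⁻¹ * gn 0) * ((gn 0)⁻¹ * k1 * gn 0) * (gn 0)⁻¹ := by
        group
    _ = k2 * ((gn 0)⁻¹ * k1 * gn 0) * (gn 0)⁻¹ := by rw [← J2]; group
    _ = k2 * k1 * (gn 0)⁻¹ := by rw [J1]; group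

theorem J5 : gn 1 * k1 = k2 * gn 1 := by unfold k1 k2; group

theorem J6 : (gn 1)⁻¹ * k2 = k1 * (gn 1)⁻¹ := by unfold k1 k2; group

theorem J7 : (gn 1)⁻¹ * k1 = k1 * k2⁻¹ * k1 * (gn 1)⁻¹ := id7 gn_comm gn_braid₀ h3'

theorem J8 : gn 1 * k2 = k2 * k1⁻¹ * k2 * gn 1 := by
  have h := J7
  have h2 : k1 = k2 * (gn 1 * k2⁻¹ * (gn 1)⁻¹) * k2 := by
    calc k1 = gn 1 * ((gn 1)⁻¹ * k1) := by group
      _ = gn 1 * (k1 * k2⁻¹ * k1 * (gn 1)⁻¹) := by rw [h]
      _ = (gn 1 * k1) * k2⁻¹ * k1 * (gn 1)⁻¹ := by group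
      _ = (k2 * gn 1) * k2⁻¹ * ((gn 1)⁻¹ * (gn 1 * k1)) * (gn 1)⁻¹ := by rw [← J5]; group
      _ = (k2 * gn 1) * k2⁻¹ * ((gn 1)⁻¹ * (k2 * gn 1)) * (gn 1)⁻¹ := by rw [J5]
      _ = _ := by group
  have h3 : k2 * k1⁻¹ * k2 = gn 1 * k2 * (gn 1)⁻¹ := by
    conv_lhs => rw [h2]
    group
  rw [h3]
  group

/-- Two maxima. -/
abbrev A2 (c : Bool) : Knot.Word := [.birth 0 c, .birth 2 c]

/-- Two nested minima. -/
abbrev N2 : Knot.Word := [.death 1, .death 0]

theorem cap_k1 (c : Bool) : Sim [] (A2 c ++ toW [(0, true), (2, false)]) (A2 (!c) ++ toW []) := by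
  have t1 := ts (l := []) [.birth 0 c] _ _ [.neg 2]
    (Knot.Move.exchange (.pos 0) (.birth 2 c) (by show 2 ≤ 2; decide)) (by cases c <;> decide)
  have t2 := st (l := []) [] _ _ [.birth 2 c, .neg 2]
    (Knot.Move.firstBirthPos 0 c) (by cases c <;> decide)
  have t3 := st (l := []) [.birth 0 (!c)] _ _ []
    (Knot.Move.firstBirthNeg 2 c) (by cases c <;> decide)
  exact t1.trans (t2.trans t3)

theorem cap_k2 (c : Bool) :
    Sim [] (A2 c ++ toW [(1, true), (0, true), (2, false), (1, false)]) (A2 c ++ toW []) := by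
  have t1 := st (l := []) [] _ _ [.pos 1, .pos 0, .neg 2, .neg 1]
    (Knot.Move.exchange (.birth 0 c) (.birth 0 c) (by show 0 ≤ 0; decide)) (by cases c <;> decide)
  have t2 := st (l := []) [.birth 0 c] _ _ [.pos 0, .neg 2, .neg 1]
    (Knot.Move.slideBirth₁ 0 c) (by cases c <;> decide)
  have t3 := st (l := []) [.birth 0 c, .birth 1 c] _ _ [.neg 2, .neg 1]
    (Knot.Move.second₂ 0) (by cases c <;> decide)
  have t4 := st (l := []) [.birth 0 c] _ _ [.neg 1]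
    (Knot.Move.slideBirth₂ 1 c) (by cases c <;> decide)
  have t5 := st (l := []) [.birth 0 c, .birth 2 c] _ _ []
    (Knot.Move.second₁ 1) (by cases c <;> decide)
  exact t1.trans (t2.trans (t3.trans (t4.trans t5)))

/-- The word of the half twist. -/
abbrev hw : List Lt := [(0, true), (2, true), (1, true), (0, true), (2, true), (1, true)]

theorem cap_half (c : Bool) : Sim [] (A2 c ++ toW hw) (A2 (!c) ++ toW []) := by
  have t1 := ts (l := []) [.birth 0 c] _ _ [.pos 2, .pos 1, .pos 0, .pos 2, .pos 1]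
    (Knot.Move.exchange (.pos 0) (.birth 2 c) (by show 2 ≤ 2; decide)) (by cases c <;> decide)
  have t2 := st (l := []) [] _ _ [.birth 2 c, .pos 2, .pos 1, .pos 0, .pos 2, .pos 1]
    (Knot.Move.firstBirthPos 0 c) (by cases c <;> decide)
  have t3 := st (l := []) [.birth 0 (!c)] _ _ [.pos 1, .pos 0, .pos 2, .pos 1]
    (Knot.Move.firstBirthPos 2 c) (by cases c <;> decide)
  have t4 := st (l := []) [] _ _ [.pos 1, .pos 0, .pos 2, .pos 1]
    (Knot.Move.exchange (.birth 0 (!c)) (.birth 0 (!c)) (by show 0 ≤ 0; decide)) (by cases c <;> decide)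
  have t5 := st (l := []) [.birth 0 (!c)] _ _ [.pos 0, .pos 2, .pos 1]
    (Knot.Move.slideBirth₁ 0 (!c)) (by cases c <;> decide)
  have t6 := st (l := []) [.birth 0 (!c), .birth 1 (!c)] _ _ [.pos 2, .pos 1]
    (Knot.Move.second₂ 0) (by cases c <;> decide)
  have t7 := st (l := []) [.birth 0 (!c)] _ _ [.pos 1]
    (Knot.Move.slideBirth₁ 1 (!c)) (by cases c <;> decide)
  have t8 := st (l := []) [.birth 0 (!c), .birth 2 (!c)] _ _ []
    (Knot.Move.second₂ 1) (by cases c <;> decide)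
  exact t1.trans (t2.trans (t3.trans (t4.trans (t5.trans (t6.trans (t7.trans t8))))))

theorem swing_top : Sim [] (A2 true ++ toW [(2, true), (1, true), (0, true)])
    [.birth 0 false, .birth 1 true] := by
  have t1 := st (l := []) [.birth 0 true] _ _ [.pos 1, .pos 0]
    (Knot.Move.firstBirthPos 2 true) (by decide)
  have t2 := st (l := []) [] _ _ [.pos 1, .pos 0]
    (Knot.Move.exchange (.birth 0 true) (.birth 0 false) (by decide)) (by decide)
  have t3 := st (l := []) [.birth 0 false] _ _ [.pos 0]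
    (Knot.Move.slideBirth₁ 0 true) (by decide)
  have t4 := st (l := []) [.birth 0 false, .birth 1 true] _ _ []
    (Knot.Move.second₂ 0) (by decide)
  exact t1.trans (t2.trans (t3.trans t4))

theorem swing_bot : Sim l4 (toW [(0, false), (1, false), (2, false)] ++ N2)
    [.death 2, .death 0] := by
  have t1 := st (l := l4) [.neg 0, .neg 1] _ _ [.death 0]
    (Knot.Move.slideDeath₂ 1) (by decide)
  have t2 := st (l := l4) [.neg 0] _ _ [.death 2, .death 0]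
    (Knot.Move.second₂ 1) (by decide)
  have t3 := st (l := l4) [] _ _ [.death 0]
    (Knot.Move.exchange (.neg 0) (.death 2) (by decide)) (by decide)
  have t4 := st (l := l4) [.death 2] _ _ []
    (Knot.Move.firstDeathNeg 0) (by decide)
  exact t1.trans (t2.trans (t3.trans t4))

theorem half_bot : Sim [true, false, true, false] (toW hw ++ N2) N2 := by
  have t1 := st (l := [true, false, true, false]) [.pos 0, .pos 2, .pos 1, .pos 0, .pos 2] _ _
    [.death 0] (Knot.Move.firstDeathPos 1) (by decide)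
  have e : mk [(0, true), (2, true), (1, true), (0, true), (2, true)] =
      mk [(0, true), (1, true), (2, true), (1, true), (0, true)] := by
    show gn 0 * (gn 2 * (gn 1 * (gn 0 * gn 2))) = gn 0 * (gn 1 * (gn 2 * (gn 1 * gn 0)))
    rw [gn_comm]
    have := gn_braid₁
    calc gn 0 * (gn 2 * (gn 1 * (gn 2 * gn 0))) = gn 0 * (gn 2 * gn 1 * gn 2) * gn 0 := by
          simp only [mul_assoc]
      _ = gn 0 * (gn 1 * gn 2 * gn 1) * gn 0 := by rw [this]
      _ = _ := by simp only [mul_assoc]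
  have t2 := (sim_of e (l := [true, false, true, false]) rfl).right (q := N2) (by decide)
  have t3 := ts (l := [true, false, true, false]) [.pos 0, .pos 1, .pos 2, .pos 1] _ _
    [.death 0] (Knot.Move.slideDeath₂ 0) (by decide)
  have t4 := st (l := [true, false, true, false]) [.pos 0, .pos 1, .pos 2] _ _
    [.death 0, .death 0] (Knot.Move.second₁ 1) (by decide)
  have t5 := ts (l := [true, false, true, false]) [.pos 0, .pos 1] _ _
    [.death 0] (Knot.Move.exchange (.death 0) (.pos 2) (by decide)) (by decide)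
  have t6 := st (l := [true, false, true, false]) [.pos 0, .pos 1, .death 0] _ _
    [] (Knot.Move.firstDeathPos 0) (by decide)
  have t7 := st (l := [true, false, true, false]) [.pos 0] _ _
    [.death 0] (Knot.Move.slideDeath₁ 0) (by decide)
  have t8 := st (l := [true, false, true, false]) [] _ _
    [.death 1, .death 0] (Knot.Move.second₁ 0) (by decide)
  exact t1.trans (t2.trans (t3.trans (t4.trans (t5.trans (t6.trans (t7.trans t8))))))

/-! ### maxima and braids -/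

/-- Braids below two maxima. -/
def Cap (c : Bool) (x : Q) (c' : Bool) (y : Q) : Prop :=
  ∃ X Y, mk X = x ∧ mk Y = y ∧ Sim [] (A2 c ++ toW X) (A2 c' ++ toW Y)

theorem cap_eq {c : Bool} {X Y : List Lt} (h : mk X = mk Y) :
    Sim [] (A2 c ++ toW X) (A2 c ++ toW Y) :=
  (sim_of h (l := [c, !c, c, !c]) rfl).left (by cases c <;> decide) (by cases c <;> decide)

theorem Cap.sim {c c' : Bool} {X Y : List Lt} (h : Cap c (mk X) c' (mk Y)) :
    Sim [] (A2 c ++ toW X) (A2 c' ++ toW Y) := by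
  obtain ⟨X', Y', h1, h2, h3⟩ := h
  exact (cap_eq h1.symm).trans (h3.trans (cap_eq h2))

theorem Cap.refl (c : Bool) (x : Q) : Cap c x c x := by
  obtain ⟨X, rfl⟩ := Quotient.exists_rep x
  exact ⟨X, X, rfl, rfl, cap_eq rfl⟩

theorem Cap.symm {c c' : Bool} {x y : Q} (h : Cap c x c' y) : Cap c' y c x := by
  obtain ⟨X, Y, h1, h2, h3⟩ := h
  exact ⟨Y, X, h2, h1, h3.symm⟩

theorem Cap.trans {c c' c'' : Bool} {x y z : Q} (h : Cap c x c' y) (h' : Cap c' y c'' z) :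
    Cap c x c'' z := by
  obtain ⟨X, Y, h1, h2, h3⟩ := h
  obtain ⟨X', Y', h4, h5, h6⟩ := h'
  exact ⟨X, Y', h1, h5, h3.trans ((cap_eq (h2.trans h4.symm)).trans h6)⟩

theorem run_A2_n (c : Bool) (X : List Lt) : (Knot.run (A2 c ++ toW X) (fr [])).n = 4 := by
  rw [run_append, toW_n]
  rfl

theorem Cap.mul {c c' : Bool} {x y : Q} (h : Cap c x c' y) (z : Q) : Cap c (x * z) c' (y * z) := by
  obtain ⟨X, Y, h1, h2, h3⟩ := h
  obtain ⟨Z, h4⟩ := Quotient.exists_rep z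
  have h4 : mk Z = z := h4
  refine ⟨X ++ Z, Y ++ Z, by rw [mk_mul, h1, h4], by rw [mk_mul, h2, h4], ?_⟩
  have := h3.right (q := toW Z) (toW_fits _ _ (by rw [run_A2_n]))
  rw [toW_append, toW_append, ← List.append_assoc, ← List.append_assoc]
  exact this

theorem Cap.k1 (c : Bool) : Cap c TB.k1 (!c) 1 := ⟨_, _, rfl, rfl, cap_k1 c⟩

theorem Cap.k2 (c : Bool) : Cap c TB.k2 c 1 := by
  refine ⟨_, _, ?_, rfl, cap_k2 c⟩
  show gn 1 * (gn 0 * ((gn 2)⁻¹ * (gn 1)⁻¹)) = _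
  unfold TB.k2
  simp only [mul_assoc]

/-- The kernel does not change the maxima. -/
def Ker (w : Q) : Prop := ∃ e1 e2 : Bool, ∀ c, Cap c (w * k1) (xor c e1) w ∧ Cap c (w * k2) (xor c e2) w

theorem Ker.one : Ker 1 := by
  refine ⟨true, false, fun c => ?_⟩
  rw [one_mul, one_mul, Bool.xor_true, Bool.xor_false]
  exact ⟨Cap.k1 c, Cap.k2 c⟩

theorem cap_inv {w k : Q} {e : Bool} (h : ∀ c, Cap c (w * k) (xor c e) w) (c : Bool) :
    Cap c (w * k⁻¹) (xor c e) w := by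
  have h1 := (h (xor c e)).mul k⁻¹
  rw [Bool.xor_assoc, Bool.xor_self, Bool.xor_false, mul_inv_cancel_right] at h1
  exact h1.symm

theorem cap_mul {w k k' : Q} {e e' : Bool} (h : ∀ c, Cap c (w * k) (xor c e) w)
    (h' : ∀ c, Cap c (w * k') (xor c e') w) (c : Bool) : Cap c (w * (k * k')) (xor c (xor e e')) w := by
  have h1 := (h c).mul k'
  have h2 := h' (xor c e)
  rw [Bool.xor_assoc] at h2
  rw [← mul_assoc]
  exact h1.trans h2

/-- conjugation -/
theorem cap_conj {w k k' s : Q} {e : Bool} (h : ∀ c, Cap c (w * k) (xor c e) w)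
    (hs : s * k' = k * s) (c : Bool) : Cap c (w * s * k') (xor c e) (w * s) := by
  have := (h c).mul s
  rwa [mul_assoc, ← hs, ← mul_assoc] at this

theorem Ker.mul₀ {w : Q} (h : Ker w) : Ker (w * gn 0) := by
  obtain ⟨e1, e2, h⟩ := h
  have a := fun c => (h c).1
  have b := fun c => (h c).2
  exact ⟨_, _, fun c => ⟨cap_conj a k1_comm₀ c, cap_conj (cap_mul b (cap_inv a)) J2 c⟩⟩

theorem Ker.mul₀' {w : Q} (h : Ker w) : Ker (w * (gn 0)⁻¹) := by
  obtain ⟨e1, e2, h⟩ := h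
  have a := fun c => (h c).1
  have b := fun c => (h c).2
  exact ⟨_, _, fun c => ⟨cap_conj a J1 c, cap_conj (cap_mul b a) J3 c⟩⟩

theorem Ker.mul₁ {w : Q} (h : Ker w) : Ker (w * gn 1) := by
  obtain ⟨e1, e2, h⟩ := h
  have a := fun c => (h c).1
  have b := fun c => (h c).2
  exact ⟨_, _, fun c => ⟨cap_conj b J5 c, cap_conj (cap_mul (cap_mul b (cap_inv a)) b) J8 c⟩⟩

theorem Ker.mul₁' {w : Q} (h : Ker w) : Ker (w * (gn 1)⁻¹) := by
  obtain ⟨e1, e2, h⟩ := h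
  have a := fun c => (h c).1
  have b := fun c => (h c).2
  exact ⟨_, _, fun c => ⟨cap_conj (cap_mul (cap_mul a (cap_inv b)) a) J7 c, cap_conj a J6 c⟩⟩

theorem ker_of_mem {w : Q} (h : w ∈ Subgroup.closure {gn 0, gn 1}) : Ker w := by
  induction h using Subgroup.closure_induction_right with
  | one => exact Ker.one
  | mul_right x hx y hy ih =>
    rcases hy with rfl | rfl
    · exact ih.mul₀
    · exact ih.mul₁
  | mul_inv_cancel x hx y hy ih =>
    rcases hy with rfl | rfl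
    · exact ih.mul₀'
    · exact ih.mul₁'

/-- The flype of a full twist. -/
theorem flype {w : Q} (h : w ∈ Subgroup.closure {gn 0, gn 1}) (c : Bool) (z : Q) :
    Cap c (w * (gn 2 * gn 2) * z) c (w * (gn 0 * gn 0) * z) ∧
      Cap c (w * ((gn 2)⁻¹ * (gn 2)⁻¹) * z) c (w * ((gn 0)⁻¹ * (gn 0)⁻¹) * z) := by
  obtain ⟨e1, e2, hk⟩ := ker_of_mem h
  have a := fun c => (hk c).1
  have h1 := cap_mul a a c
  have h2 := cap_mul (cap_inv a) (cap_inv a) c
  rw [Bool.xor_self, Bool.xor_false] at h1 h2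
  have hc := gn_comm
  have e1 : k1 * k1 * (gn 2 * gn 2) = gn 0 * gn 0 := by
    unfold k1
    calc gn 0 * (gn 2)⁻¹ * (gn 0 * (gn 2)⁻¹) * (gn 2 * gn 2) =
        gn 0 * (gn 2)⁻¹ * (gn 0 * gn 2) := by group
      _ = gn 0 * gn 0 := by rw [hc]; group
  have e2 : k1⁻¹ * k1⁻¹ * ((gn 2)⁻¹ * (gn 2)⁻¹) = (gn 0)⁻¹ * (gn 0)⁻¹ := by
    have : k1⁻¹ * k1⁻¹ * ((gn 2)⁻¹ * (gn 2)⁻¹) = (gn 2 * gn 2 * (k1 * k1))⁻¹ := by group
    rw [this]
    have hk : k1 = (gn 2)⁻¹ * gn 0 := by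
      unfold k1
      calc gn 0 * (gn 2)⁻¹ = (gn 2)⁻¹ * (gn 2 * gn 0) * (gn 2)⁻¹ := by group
        _ = (gn 2)⁻¹ * gn 0 := by rw [← hc]; group
    have : gn 2 * gn 2 * (k1 * k1) = gn 0 * gn 0 := by
      calc gn 2 * gn 2 * (k1 * k1) = gn 2 * (gn 2 * k1) * k1 := by group
        _ = gn 2 * gn 0 * k1 := by rw [hk]; group
        _ = gn 0 * (gn 2 * k1) := by rw [← hc]; group
        _ = gn 0 * gn 0 := by rw [hk]; group
    rw [this]
    group
  constructor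
  · have := (h1.mul (gn 2 * gn 2 * z)).symm
    have e3 : w * (k1 * k1) * (gn 2 * gn 2 * z) = w * (k1 * k1 * (gn 2 * gn 2)) * z := by
      simp only [mul_assoc]
    rw [e3, e1, ← mul_assoc] at this
    exact this
  · have := (h2.mul ((gn 2)⁻¹ * (gn 2)⁻¹ * z)).symm
    have e3 : w * (k1⁻¹ * k1⁻¹) * ((gn 2)⁻¹ * (gn 2)⁻¹ * z) =
        w * (k1⁻¹ * k1⁻¹ * ((gn 2)⁻¹ * (gn 2)⁻¹)) * z := by
      simp only [mul_assoc]
    rw [e3, e2, ← mul_assoc] at this
    exact this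

end Pool.Agent.K7.H38.TB
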