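import Pool.Agent.K7.H38.TB.Filt

/-!
# The first derivative of the HOMFLY polynomial at `l = 1`
-/

set_option autoImplicit false

namespace Pool.Agent.K7.H38.TB

open Pool.Agent.H835R2 Pool.Agent.H835R2.Knot
open Pool.Agent.Helper454
open Pool.Agent.Helper454.Wh (Rlm lPow mPow)
open LaurentPolynomial

noncomputable section

/-- Laurent polynomials in `m` with `ε`, `ε ^ 2 = 0`. -/
abbrev Jt : Type := DualNumber (LaurentPolynomial ℤ)

/-- The element `ε`. -/
abbrev ep : Jt := DualNumber.eps

theorem ep_sq : ep * ep = 0 := DualNumber.eps_mul_eps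

/-- `l = 1 + ε`. -/
def uu : Jtˣ where
  val := 1 + ep
  inv := 1 - ep
  val_inv := by linear_combination -ep_sq
  inv_val := by linear_combination -ep_sq

/-- Evaluation at `l = 1 + ε`. -/
def j0 : LaurentPolynomial ℤ →+* Jt := LaurentPolynomial.eval₂ (Int.castRingHom Jt) uu

/-- A Laurent polynomial in `m`. -/
def inl : LaurentPolynomial ℤ →+* Jt := TrivSqZeroExt.inlHom _ _

/-- The unit `m`. -/
def mu : Jtˣ where
  val := inl (T 1)
  inv := inl (T (-1))
  val_inv := by rw [← map_mul, ← T_add]; norm_num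
  inv_val := by rw [← map_mul, ← T_add]; norm_num

/-- Evaluation at `l = 1 + ε`. -/
def J : Rlm →+* Jt := LaurentPolynomial.eval₂ j0 mu

theorem mu_zpow (n : ℤ) : ((mu ^ n : Jtˣ) : Jt) = inl (T n) := by
  cases n with
  | ofNat n =>
    rw [Int.ofNat_eq_natCast, zpow_natCast, Units.val_pow_eq_pow_val]
    show (inl (T 1)) ^ n = _
    rw [← map_pow, T_pow]
    norm_num
  | negSucc n =>
    rw [zpow_negSucc, ← inv_pow, Units.val_pow_eq_pow_val]
    show (inl (T (-1))) ^ (n + 1) = _
    rw [← map_pow, T_pow]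
    congr 2
    rw [Int.negSucc_eq]
    push_cast
    ring

theorem J_gen (c : LaurentPolynomial ℤ) (n : ℤ) : J (C c * T n) = j0 c * inl (T n) := by
  rw [J, LaurentPolynomial.eval₂_C_mul_T, mu_zpow]

theorem J_lPow (n : ℤ) : J (lPow n) = j0 (T n) := by
  have := J_gen (T n) 0
  rw [T_zero, mul_one, T_zero, map_one, mul_one] at this
  exact this

theorem J_mPow (n : ℤ) : J (mPow n) = inl (T n) := by
  have := J_gen 1 n
  rw [map_one, map_one, one_mul, one_mul] at this
  exact this

theorem j0_T1 : j0 (T 1) = 1 + ep := by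
  rw [j0, LaurentPolynomial.eval₂_T, zpow_one]
  rfl

theorem j0_Tm1 : j0 (T (-1)) = 1 - ep := by
  rw [j0, LaurentPolynomial.eval₂_T, zpow_neg, zpow_one]
  rfl

theorem J_l : J (lPow 1) = 1 + ep := by rw [J_lPow, j0_T1]
theorem J_l' : J (lPow (-1)) = 1 - ep := by rw [J_lPow, j0_Tm1]

/-- The coefficient of `m ^ j` in the value at `l = 1`. -/
def cv (j : ℤ) : Rlm →+ ℤ where
  toFun f := (J f).fst.coeff j
  map_zero' := by simp
  map_add' x y := by simp

/-- The coefficient of `m ^ j` in the derivative at `l = 1`. -/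
def cd (j : ℤ) : Rlm →+ ℤ where
  toFun f := (J f).snd.coeff j
  map_zero' := by simp
  map_add' x y := by simp

theorem j0_fst (c : LaurentPolynomial ℤ) : ∃ z w : ℤ, j0 c = (z : Jt) + (w : Jt) * ep := by
  induction c using LaurentPolynomial.induction_on' with
  | add p q hp hq =>
    obtain ⟨z, w, h⟩ := hp
    obtain ⟨z', w', h'⟩ := hq
    refine ⟨z + z', w + w', ?_⟩
    rw [map_add, h, h']
    push_cast
    ring
  | C_mul_T n a =>
    have h1 : ∃ z w : ℤ, j0 (T n) = (z : Jt) + (w : Jt) * ep := by
      refine ⟨1, n, ?_⟩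
      rw [j0, LaurentPolynomial.eval₂_T]
      cases n with
      | ofNat n =>
        rw [Int.ofNat_eq_natCast, zpow_natCast, Units.val_pow_eq_pow_val]
        show (1 + ep) ^ n = _
        induction n with
        | zero => simp
        | succ n ih =>
          rw [pow_succ, ih]
          push_cast
          linear_combination (n : Jt) * ep_sq
      | negSucc n =>
        rw [zpow_negSucc, ← inv_pow, Units.val_pow_eq_pow_val]
        show (1 - ep) ^ (n + 1) = _
        rw [Int.negSucc_eq]
        induction n with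
        | zero => simp; ring
        | succ n ih =>
          rw [pow_succ, ih]
          push_cast
          linear_combination (n + 1 : Jt) * ep_sq
    obtain ⟨z, w, h⟩ := h1
    refine ⟨a * z, a * w, ?_⟩
    rw [map_mul, h]
    have : j0 (C a) = (a : Jt) := by
      rw [j0, LaurentPolynomial.eval₂_C]; rfl
    rw [this]
    push_cast
    ring

theorem J_gen' (c : LaurentPolynomial ℤ) (a : ℕ) (b : ℤ) :
    J (C (c * (T 1 - 1) ^ a) * T b) = j0 c * ep ^ a * inl (T b) := by
  rw [J_gen, map_mul, map_pow, map_sub, j0_T1, map_one]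
  congr 2
  ring

theorem coeff_T (z : ℤ) (b j : ℤ) (h : j ≠ b) :
    ((z : LaurentPolynomial ℤ) * T b).coeff j = 0 := by
  have : ((z : LaurentPolynomial ℤ) * T b) = C z * T b := by simp
  rw [this, ← LaurentPolynomial.single_eq_C_mul_T, AddMonoidAlgebra.coeff_single,
    Finsupp.single_apply, if_neg (Ne.symm h)]

theorem cv_cd_gen (c : LaurentPolynomial ℤ) (a : ℕ) (b j : ℤ) :
    (j < a + b → cv j (C (c * (T 1 - 1) ^ a) * T b) = 0) ∧
      (j + 1 < a + b → cd j (C (c * (T 1 - 1) ^ a) * T b) = 0) := by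
  show (j < a + b → (J _).fst.coeff j = 0) ∧ (j + 1 < a + b → (J _).snd.coeff j = 0)
  rw [J_gen']
  obtain ⟨z, w, h⟩ := j0_fst c
  rw [h]
  match a with
  | 0 =>
    constructor
    · intro hj
      have : (((z : Jt) + (w : Jt) * ep) * ep ^ 0 * inl (T b)).fst = (z : LaurentPolynomial ℤ) * T b := by
        simp [inl]
      rw [this]
      exact coeff_T _ _ _ (by push_cast at hj; omega)
    · intro hj
      have : (((z : Jt) + (w : Jt) * ep) * ep ^ 0 * inl (T b)).snd = (w : LaurentPolynomial ℤ) * T b := by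
        simp [inl]
      rw [this]
      exact coeff_T _ _ _ (by push_cast at hj; omega)
  | 1 =>
    constructor
    · intro hj
      have : (((z : Jt) + (w : Jt) * ep) * ep ^ 1 * inl (T b)).fst = 0 := by
        simp [inl]
      rw [this]
      rfl
    · intro hj
      have : (((z : Jt) + (w : Jt) * ep) * ep ^ 1 * inl (T b)).snd = (z : LaurentPolynomial ℤ) * T b := by
        simp [inl]
      rw [this]
      exact coeff_T _ _ _ (by push_cast at hj; omega)
  | a + 2 =>
    have : ep ^ (a + 2) = 0 := by rw [pow_add, pow_two, ep_sq, mul_zero]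
    rw [this]
    simp

theorem cv_zero {k j : ℤ} (h : j < k) {x : Rlm} (hx : x ∈ S k) : cv j x = 0 := by
  induction hx using Submodule.span_induction with
  | zero => exact map_zero _
  | add x x' _ _ h h' => rw [map_add, h, h', add_zero]
  | smul n x _ h => rw [map_zsmul, h, smul_zero]
  | mem x hx =>
    obtain ⟨c, a, b, hab, rfl⟩ := hx
    exact (cv_cd_gen c a b j).1 (by omega)

theorem cd_zero {k j : ℤ} (h : j + 1 < k) {x : Rlm} (hx : x ∈ S k) : cd j x = 0 := by
  induction hx using Submodule.span_induction with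
  | zero => exact map_zero _
  | add x x' _ _ h h' => rw [map_add, h, h', add_zero]
  | smul n x _ h => rw [map_zsmul, h, smul_zero]
  | mem x hx =>
    obtain ⟨c, a, b, hab, rfl⟩ := hx
    exact (cv_cd_gen c a b j).2 (by omega)

end

end Pool.Agent.K7.H38.TB
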