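import Mathlib

/-!
# Continuants
-/

set_option autoImplicit false

namespace Pool.Agent.K7.H38.TB

open Polynomial

noncomputable section

variable {R : Type} [CommRing R]

/-- The continuant `K(x₁, …, x_n)`: `K() = 1`, `K(x₁) = x₁`,
`K(x₁, …, x_n) = x₁ K(x₂, …, x_n) + K(x₃, …, x_n)`. -/
def continuant : List R → R
  | [] => 1
  | [a] => a
  | a :: b :: l => a * continuant (b :: l) + continuant l

/-- The entries `(A, B, C, D)` of the product of the matrices `(1, b; 0, 1)` and `(1, 0; b X, 1)`,
alternately. -/
structure Quad (R : Type) [CommRing R] where
  A : R[X]
  B : R[X]
  C : R[X]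
  D : R[X]

/-- The product of the matrices; the first one is `(1, b; 0, 1)` if `m = true`. -/
def quad : Bool → List R → Quad R
  | _, [] => ⟨1, 0, 0, 1⟩
  | true, b :: l => ⟨(quad false l).A + Polynomial.C b * X * (quad false l).C,
      (quad false l).B + Polynomial.C b * (quad false l).D, (quad false l).C, (quad false l).D⟩
  | false, b :: l => ⟨(quad true l).A, (quad true l).B,
      (quad true l).C + Polynomial.C b * (quad true l).A,
      (quad true l).D + Polynomial.C b * X * (quad true l).B⟩

theorem quad_det (p : Bool) (l : List R) :
    (quad p l).A * (quad p l).D - X * (quad p l).B * (quad p l).C = 1 := by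
  induction l generalizing p with
  | nil => cases p <;> simp [quad]
  | cons b l ih =>
    cases p
    · have := ih true
      simp only [quad]
      linear_combination this
    · have := ih false
      simp only [quad]
      linear_combination this

theorem quad_coeff_zero (p : Bool) (l : List R) : (quad p l).A.coeff 0 = 1 := by
  induction l generalizing p with
  | nil => cases p <;> simp [quad]
  | cons b l ih =>
    cases p
    · simp only [quad]; exact ih true
    · simp only [quad, coeff_add, ih false, mul_assoc, coeff_C_mul, coeff_X_mul_zero, mul_zero,
        add_zero]

end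

end Pool.Agent.K7.H38.TB
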