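import Pool.Agent.K7.H38.TB.Flype
import Pool.Agent.K7.H38.TB.Core

/-!
# A two-bridge knot and the reversed sequence: the isotopy
-/

set_option autoImplicit false

namespace Pool.Agent.K7.H38.TB

open Pool.Agent.H835R2 Pool.Agent.H835R2.Knot
open Pool.Agent.Y466.FT

theorem dbl_append (X Y : List Lt) : dbl (X ++ Y) = dbl X ++ dbl Y := by
  unfold dbl
  exact List.flatMap_append

theorem dbl_cons (a : Lt) (X : List Lt) : dbl (a :: X) = [a, a] ++ dbl X := rfl

/-- The swing braid. -/
def sw3 : Q := gn 2 * gn 1 * gn 0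

theorem sw3_0 : gn 0 * sw3 = sw3 * gn 1 := by
  unfold sw3
  calc gn 0 * (gn 2 * gn 1 * gn 0) = (gn 0 * gn 2) * gn 1 * gn 0 := by group
    _ = gn 2 * (gn 0 * gn 1 * gn 0) := by rw [gn_comm]; group
    _ = gn 2 * gn 1 * gn 0 * gn 1 := by rw [gn_braid₀]; group

theorem sw3_1 : gn 1 * sw3 = sw3 * gn 2 := by
  unfold sw3
  calc gn 1 * (gn 2 * gn 1 * gn 0) = (gn 1 * gn 2 * gn 1) * gn 0 := by group
    _ = gn 2 * gn 1 * (gn 2 * gn 0) := by rw [gn_braid₁]; group
    _ = gn 2 * gn 1 * gn 0 * gn 2 := by rw [← gn_comm]; group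

theorem inv_comm {G : Type} [Group G] {x y s : G} (h : x * s = s * y) : x⁻¹ * s = s * y⁻¹ := by
  calc x⁻¹ * s = x⁻¹ * (s * y) * y⁻¹ := by group
    _ = s * y⁻¹ := by rw [← h]; group

/-- The class of a letter. -/
theorem mk_letter (i : Fin 3) (s : Bool) : mk [(i, s)] = if s then gn i else (gn i)⁻¹ := by
  cases s
  · exact mk_false i
  · exact mk_true i

/-- Letters `0`, `1` become `1`, `2`. -/
def sh (a : Lt) : Lt := (a.1 + 1, a.2)

/-- Letters `1`, `2` become `1`, `0`. -/
def zz (a : Lt) : Lt := (if a.1 = 2 then 0 else a.1, a.2)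

theorem letter_conj {i j : Fin 3} {g : Q} (h : gn i * g = g * gn j) (s : Bool) :
    mk [(i, s)] * g = g * mk [(j, s)] := by
  rw [mk_letter, mk_letter]
  cases s
  · exact inv_comm h
  · exact h

theorem mk_dbl_cons (a : Lt) (X : List Lt) : mk (dbl (a :: X)) = mk [a] * (mk [a] * mk (dbl X)) :=
  rfl

theorem conj_dbl {g : Q} {f : Lt → Lt} (X : List Lt)
    (h : ∀ a ∈ X, mk [a] * g = g * mk [f a]) : mk (dbl X) * g = g * mk (dbl (X.map f)) := by
  induction X with
  | nil =>
    show (1 : Q) * g = g * 1
    group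
  | cons a X ih =>
    rw [List.map_cons, mk_dbl_cons, mk_dbl_cons]
    have h1 := h a (List.mem_cons_self)
    have h2 := ih fun b hb => h b (List.mem_cons_of_mem _ hb)
    calc mk [a] * (mk [a] * mk (dbl X)) * g = mk [a] * (mk [a] * (mk (dbl X) * g)) := by
          simp only [mul_assoc]
      _ = mk [a] * ((mk [a] * g) * mk (dbl (X.map f))) := by rw [h2]; simp only [mul_assoc]
      _ = mk [a] * ((g * mk [f a]) * mk (dbl (X.map f))) := by rw [h1]
      _ = (mk [a] * g) * (mk [f a] * mk (dbl (X.map f))) := by simp only [mul_assoc]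
      _ = (g * mk [f a]) * (mk [f a] * mk (dbl (X.map f))) := by rw [h1]
      _ = _ := by simp only [mul_assoc]

theorem run_A2 (c : Bool) (X : List Lt) :
    Eqv (Knot.run (A2 c ++ toW (dbl X)) (fr [])) (fr [c, !c, c, !c]) := by
  rw [run_append, run_dbl]
  cases c <;> decide

/-- The swing of the last strand. -/
theorem swing (X : List Lt) (hX : ∀ a ∈ X, a.1 = 0 ∨ a.1 = 1) :
    Sim [] (A2 true ++ toW (dbl X) ++ N2)
      ([.birth 0 false, .birth 1 true] ++ toW (dbl (X.map sh)) ++ [.death 2, .death 0]) := by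
  set Y := X.map sh with hY
  have e : mk (dbl X) = mk ([(2, true), (1, true), (0, true)] ++ (dbl Y ++
      [(0, false), (1, false), (2, false)])) := by
    have h1 : mk (dbl X) * sw3 = sw3 * mk (dbl Y) := by
      refine conj_dbl X fun a ha => ?_
      obtain ⟨i, s⟩ := a
      rcases hX _ ha with h | h
      · have h : i = 0 := h
        subst h
        exact letter_conj sw3_0 s
      · have h : i = 1 := h
        subst h
        exact letter_conj sw3_1 s
    have h2 : mk ([(2, true), (1, true), (0, true)] ++ (dbl Y ++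
      [(0, false), (1, false), (2, false)])) = sw3 * (mk (dbl Y) * sw3⁻¹) := by
      rw [mk_mul, mk_mul]
      have e1 : mk [((2 : Fin 3), true), (1, true), (0, true)] = sw3 := by
        show gn 2 * (gn 1 * gn 0) = _
        unfold sw3
        group
      have e2 : mk [((0 : Fin 3), false), (1, false), (2, false)] = sw3⁻¹ := by
        show (gn 0)⁻¹ * ((gn 1)⁻¹ * (gn 2)⁻¹) = _
        unfold sw3
        group
      rw [e1, e2]
    rw [h2, ← mul_assoc, ← h1]
    group
  have s1 := (cap_eq (c := true) e).right (q := N2) (by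
    have := (run_A2 true X).symm.word N2 (by decide)
    exact this.1)
  have s2 := swing_top.right (q := toW (dbl Y ++ [(0, false), (1, false), (2, false)]) ++ N2) (by
    have h4 : Eqv (Knot.run (A2 true ++ toW [(2, true), (1, true), (0, true)]) (fr [])) (fr l4) := by
      decide
    refine (h4.symm.word _ ?_).1
    rw [fits_append, toW_append, run_append, run_dbl, ← toW_append]
    exact ⟨toW_fits _ _ (by decide), by decide⟩)
  have s3 := swing_bot.left (l := []) (p := [.birth 0 false, .birth 1 true] ++ toW (dbl Y))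
    (by
      rw [fits_append]
      exact ⟨by decide, toW_fits _ _ (by decide)⟩)
    (by rw [run_append, run_dbl]; decide)
  simp only [toW_append, List.append_assoc] at s1 s2 s3 ⊢
  exact s1.trans (s2.trans s3)

theorem hw_mk : mk hw = gn 0 * gn 2 * (gn 1 * gn 0 * gn 2 * gn 1) := by
  show gn 0 * (gn 2 * (gn 1 * (gn 0 * (gn 2 * gn 1)))) = _
  simp only [mul_assoc]

theorem M0 : gn 1 * gn 0 * gn 2 * gn 1 * gn 0 = gn 2 * (gn 1 * gn 0 * gn 2 * gn 1) := by
  have h1 := gn_comm
  have h2 := gn_braid₀
  have h3 := gn_braid₁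
  calc gn 1 * gn 0 * gn 2 * gn 1 * gn 0 = gn 1 * (gn 0 * gn 2) * gn 1 * gn 0 := by group
    _ = gn 1 * gn 2 * (gn 0 * gn 1 * gn 0) := by rw [h1]; group
    _ = (gn 1 * gn 2 * gn 1) * gn 0 * gn 1 := by rw [h2]; group
    _ = gn 2 * gn 1 * (gn 2 * gn 0) * gn 1 := by rw [h3]; group
    _ = _ := by rw [← h1]; group

theorem M2 : gn 1 * gn 0 * gn 2 * gn 1 * gn 2 = gn 0 * (gn 1 * gn 0 * gn 2 * gn 1) := by
  have h1 := gn_comm
  have h2 := gn_braid₀
  have h3 := gn_braid₁
  calc gn 1 * gn 0 * gn 2 * gn 1 * gn 2 = gn 1 * gn 0 * (gn 2 * gn 1 * gn 2) := by group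
    _ = (gn 1 * gn 0 * gn 1) * gn 2 * gn 1 := by rw [← h3]; group
    _ = gn 0 * gn 1 * gn 0 * gn 2 * gn 1 := by rw [← h2]
    _ = _ := by group

theorem D0 : mk hw * gn 0 = gn 2 * mk hw := by
  rw [hw_mk]
  have h1 := gn_comm
  calc gn 0 * gn 2 * (gn 1 * gn 0 * gn 2 * gn 1) * gn 0 =
      gn 0 * gn 2 * (gn 1 * gn 0 * gn 2 * gn 1 * gn 0) := by group
    _ = (gn 0 * gn 2) * (gn 2 * (gn 1 * gn 0 * gn 2 * gn 1)) := by rw [M0]
    _ = (gn 2 * gn 0) * (gn 2 * (gn 1 * gn 0 * gn 2 * gn 1)) := by rw [h1]
    _ = _ := by group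

theorem D2 : mk hw * gn 2 = gn 0 * mk hw := by
  rw [hw_mk]
  have h1 := gn_comm
  calc gn 0 * gn 2 * (gn 1 * gn 0 * gn 2 * gn 1) * gn 2 =
      gn 0 * gn 2 * (gn 1 * gn 0 * gn 2 * gn 1 * gn 2) := by group
    _ = gn 0 * (gn 2 * gn 0) * (gn 1 * gn 0 * gn 2 * gn 1) := by rw [M2]; group
    _ = _ := by rw [← h1]; group

theorem D1 : mk hw * gn 1 = gn 1 * mk hw := by
  have h : gn 0 * gn 2 * (gn 1 * gn 0 * gn 2 * gn 1) = gn 1 * gn 0 * gn 2 * gn 1 * gn 0 * gn 2 := by
    rw [M0]
    calc gn 0 * gn 2 * (gn 1 * gn 0 * gn 2 * gn 1) = gn 2 * (gn 0 * (gn 1 * gn 0 * gn 2 * gn 1)) := by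
          rw [gn_comm]; group
      _ = gn 2 * (gn 1 * gn 0 * gn 2 * gn 1 * gn 2) := by rw [M2]
      _ = _ := by group
  calc mk hw * gn 1 = gn 0 * gn 2 * (gn 1 * gn 0 * gn 2 * gn 1) * gn 1 := by rw [hw_mk]
    _ = gn 1 * gn 0 * gn 2 * gn 1 * gn 0 * gn 2 * gn 1 := by rw [h]
    _ = gn 1 * mk hw := by rw [hw_mk]; group

/-- Conjugation with the half twist. -/
theorem half (X : List Lt) :
    Sim [] (A2 false ++ toW (dbl (X.map fl)) ++ N2) (A2 true ++ toW (dbl X) ++ N2) := by
  have e : mk (hw ++ dbl (X.map fl)) = mk (dbl X ++ hw) := by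
    rw [mk_mul, mk_mul]
    refine (conj_dbl X fun a _ => ?_).symm
    obtain ⟨i, s⟩ := a
    match i with
    | 0 => exact letter_conj D2.symm s
    | 1 => exact letter_conj D1.symm s
    | 2 => exact letter_conj D0.symm s
  have s1 := (cap_half true).symm.right (q := toW (dbl (X.map fl)) ++ N2) (by
    have h1 : Eqv (Knot.run (A2 (!true) ++ toW []) (fr [])) (fr l4) := by decide
    refine (h1.symm.word _ ?_).1
    rw [fits_append, run_dbl]
    exact ⟨toW_fits _ _ (by decide), by decide⟩)
  have s2 := (cap_eq (c := true) e).right (q := N2) (by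
    rw [toW_append, ← List.append_assoc, run_append, run_dbl]
    decide)
  have s3 := half_bot.left (l := []) (p := A2 true ++ toW (dbl X))
    (by
      rw [fits_append]
      exact ⟨by decide, toW_fits _ _ (by decide)⟩)
    (by rw [run_append, run_dbl]; decide)
  simp only [toW_append, List.append_assoc] at s1 s2 s3 ⊢
  exact s1.trans (s2.trans s3)

/-- All flypes. -/
theorem flypes (X : List Lt) (hX : ∀ a ∈ X, a.1 = 1 ∨ a.1 = 2) : ∀ w ∈ Subgroup.closure {gn 0, gn 1},
    Cap true (w * mk (dbl X)) true (w * mk (dbl (X.map zz))) := by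
  induction X with
  | nil => exact fun w _ => Cap.refl _ _
  | cons a X ih =>
    intro w hw
    have ih := ih fun b hb => hX b (List.mem_cons_of_mem _ hb)
    obtain ⟨i, s⟩ := a
    have m0 : gn 0 ∈ Subgroup.closure {gn 0, gn 1} := Subgroup.subset_closure (by simp)
    have m1 : gn 1 ∈ Subgroup.closure {gn 0, gn 1} := Subgroup.subset_closure (by simp)
    rw [List.map_cons, mk_dbl_cons, mk_dbl_cons]
    rcases hX _ List.mem_cons_self with h | h
    · have h : i = 1 := h
      subst h
      have e : zz (1, s) = (1, s) := rfl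
      rw [e]
      have hm : mk [((1 : Fin 3), s)] ∈ Subgroup.closure {gn 0, gn 1} := by
        rw [mk_letter]
        split_ifs
        · exact m1
        · exact inv_mem m1
      have := ih (w * mk [(1, s)] * mk [(1, s)]) (mul_mem (mul_mem hw hm) hm)
      simpa only [mul_assoc] using this
    · have h : i = 2 := h
      subst h
      have e : zz (2, s) = (0, s) := rfl
      rw [e]
      have hm : mk [((0 : Fin 3), s)] ∈ Subgroup.closure {gn 0, gn 1} := by
        rw [mk_letter]
        split_ifs
        · exact m0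
        · exact inv_mem m0
      have h1 := ih (w * mk [(0, s)] * mk [(0, s)]) (mul_mem (mul_mem hw hm) hm)
      have h2 : Cap true (w * (mk [((2 : Fin 3), s)] * mk [(2, s)]) * mk (dbl X)) true
          (w * (mk [((0 : Fin 3), s)] * mk [(0, s)]) * mk (dbl X)) := by
        rw [mk_letter, mk_letter]
        cases s
        · exact (flype hw true _).2
        · exact (flype hw true _).1
      simp only [mul_assoc] at h1 h2 ⊢
      exact h2.trans h1

/-- The letters of full twists. -/
def X0 : Bool → List ℤ → List Lt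
  | _, [] => []
  | m, b :: l => List.replicate b.natAbs (if m then 1 else 0, !(decide (0 ≤ b))) ++ X0 (!m) l

theorem toW_replicate (n : ℕ) (a : Lt) :
    toW (dbl (List.replicate n a)) = List.replicate (2 * n) (toP a) := by
  induction n with
  | zero => rfl
  | succ n ih =>
    rw [List.replicate_succ, toW_dbl_cons, ih, show 2 * (n + 1) = 2 * n + 1 + 1 by ring]
    rfl

theorem twists_eq (m : Bool) (l : List ℤ) : twists m l = toW (dbl (X0 m l)) := by
  induction l generalizing m with
  | nil => rfl
  | cons b l ih =>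
    show twist (if m then 1 else 0) b ++ twists (!m) l = toW (dbl (List.replicate b.natAbs
      (if m then 1 else 0, !(decide (0 ≤ b))) ++ X0 (!m) l))
    rw [dbl_append, toW_append, ← ih, toW_replicate]
    congr 1
    unfold twist toP
    congr 1
    by_cases h : 0 ≤ b
    · cases m <;> simp [h]
    · cases m <;> simp [h]

/-- The other letter. -/
def so (a : Lt) : Lt := (if a.1 = 0 then 1 else if a.1 = 1 then 0 else a.1, a.2)

/-- The parity of the length. -/
def par (l : List ℤ) : Bool := decide (l.length % 2 = 1)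

theorem par_cons (b : ℤ) (l : List ℤ) : par (b :: l) = !par l := by
  unfold par
  rw [List.length_cons]
  rcases Nat.mod_two_eq_zero_or_one l.length with h | h
  · have : (l.length + 1) % 2 = 1 := by omega
    simp [h, this]
  · have : (l.length + 1) % 2 = 0 := by omega
    simp [h, this]

theorem X0_append (m : Bool) (l l' : List ℤ) : X0 m (l ++ l') = X0 m l ++ X0 (xor m (par l)) l' := by
  induction l generalizing m with
  | nil =>
    show X0 m l' = X0 (xor m (par [])) l'
    have : par [] = false := rfl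
    rw [this, Bool.xor_false]
  | cons b l ih =>
    show List.replicate _ _ ++ X0 (!m) (l ++ l') = (List.replicate _ _ ++ X0 (!m) l) ++ _
    rw [ih, List.append_assoc, par_cons]
    congr 3
    cases m <;> cases par l <;> rfl

theorem par_reverse (l : List ℤ) : par l.reverse = par l := by
  unfold par
  rw [List.length_reverse]

theorem X0_reverse (m : Bool) (l : List ℤ) :
    (X0 m l).reverse.map so = X0 (xor m (par l)) l.reverse := by
  induction l generalizing m with
  | nil => rfl
  | cons b l ih =>
    show (List.replicate b.natAbs (if m then (1 : Fin 3) else 0, !(decide (0 ≤ b))) ++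
      X0 (!m) l).reverse.map so = _
    rw [List.reverse_append, List.map_append, ih, List.reverse_cons, X0_append, par_cons,
      par_reverse, List.reverse_replicate, List.map_replicate]
    have e1 : xor (!m) (par l) = xor m (!par l) := by cases m <;> cases par l <;> rfl
    rw [e1]
    congr 1
    have e2 : xor (xor m (!par l)) (par l) = !m := by cases m <;> cases par l <;> rfl
    rw [e2]
    show _ = List.replicate _ _ ++ X0 _ []
    have e3 : ∀ m, X0 m [] = [] := fun m => rfl
    rw [e3, List.append_nil]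
    congr 1
    cases m <;> rfl

theorem X0_mem (m : Bool) (l : List ℤ) : ∀ a ∈ X0 m l, a.1 = 0 ∨ a.1 = 1 := by
  induction l generalizing m with
  | nil =>
    intro a ha
    cases ha
  | cons b l ih =>
    intro a ha
    have ha : a ∈ List.replicate b.natAbs (if m then (1 : Fin 3) else 0, !(decide (0 ≤ b))) ++
      X0 (!m) l := ha
    rw [List.mem_append] at ha
    rcases ha with h | h
    · have := List.eq_of_mem_replicate h
      subst this
      cases m
      · exact Or.inl rfl
      · exact Or.inr rfl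
    · exact ih _ a h

theorem W4_eq (X : List Lt) : W4 X = toW (dbl (X.reverse.map fl)) := by
  induction X with
  | nil => rfl
  | cons a X ih =>
    show W4 X ++ [p4 a, p4 a] = _
    rw [List.reverse_cons, List.map_append, dbl_append, toW_append, ← ih]
    congr 1
    obtain ⟨i, s⟩ := a
    match i with
    | 0 => cases s <;> rfl
    | 1 => cases s <;> rfl
    | 2 => cases s <;> rfl

/-- The isotopy. -/
theorem isotopic_reverse (l : List ℤ) (hl : Even l.length) :
    Knot.Isotopic (twoBridge l) (twoBridge l.reverse) := by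
  have s1 := swing (X0 true l) (X0_mem true l)
  have s2 := rotate ((X0 true l).map sh)
  rw [W4_eq] at s2
  have s3 := half (((X0 true l).map sh).reverse)
  have h4 := flypes (((X0 true l).map sh).reverse) (by
    intro a ha
    rw [List.mem_reverse, List.mem_map] at ha
    obtain ⟨b, hb, rfl⟩ := ha
    obtain ⟨i, s⟩ := b
    rcases X0_mem _ _ _ hb with h | h
    · have h : i = 0 := h
      subst h
      exact Or.inl rfl
    · have h : i = 1 := h
      subst h
      exact Or.inr rfl) 1 (one_mem _)
  rw [one_mul, one_mul] at h4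
  have s4 := h4.sim.right (q := N2) (by
    rw [run_append, run_dbl]
    decide)
  have e : (((X0 true l).map sh).reverse).map zz = X0 true l.reverse := by
    have hp : par l = false := by
      unfold par
      rw [Nat.even_iff] at hl
      simp [hl]
    have h5 := X0_reverse true l
    rw [hp, Bool.xor_false] at h5
    rw [← h5, ← List.map_reverse, List.map_map]
    refine List.map_congr_left fun a ha => ?_
    rw [List.mem_reverse] at ha
    obtain ⟨i, s⟩ := a
    rcases X0_mem _ _ _ ha with h | h
    · have h : i = 0 := h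
      subst h
      rfl
    · have h : i = 1 := h
      subst h
      rfl
  rw [e] at s4
  have s := s1.trans (s2.trans (s3.trans s4))
  have e1 : ∀ l : List ℤ, A2 true ++ toW (dbl (X0 true l)) ++ N2 = twoBridge l := by
    intro l
    rw [← twists_eq]
    rfl
  rw [e1, e1] at s
  exact s.isotopic (isKnot_twoBridge l).1

end Pool.Agent.K7.H38.TB
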