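import Pool.Agent.K7.H38.TB.Sim
import Pool.Agent.K7.H38.TB.Eval

/-!
# Rotation of a four-plat in the plane
-/

set_option autoImplicit false

namespace Pool.Agent.K7.H38.TB

open Pool.Agent.H835R2 Pool.Agent.H835R2.Knot
open Pool.Agent.Y466.FT

/-- One move inside a word. -/
theorem st {l : List Bool} (p x y q : Knot.Word) (m : Knot.Move x y)
    (h : Knot.Fits (p ++ x ++ q) (fr l) ∧ Knot.Fits (p ++ y ++ q) (fr l) ∧
      Eqv (Knot.run (p ++ x ++ q) (fr l)) (Knot.run (p ++ y ++ q) (fr l))) :
    Sim l (p ++ x ++ q) (p ++ y ++ q) := by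
  refine ⟨h.1, h.2.1, h.2.2, fun u v hu hc => ?_⟩
  have h1 := closed_sim h.1 h.2.1 h.2.2 hu hc
  have e1 : ∀ z, u ++ (p ++ z ++ q) ++ v = (u ++ p) ++ z ++ (q ++ v) := by
    intro z
    simp only [List.append_assoc]
  rw [e1] at hc h1
  rw [e1, e1]
  exact iso_move m hc h1

/-- One move backwards inside a word. -/
theorem ts {l : List Bool} (p x y q : Knot.Word) (m : Knot.Move y x)
    (h : Knot.Fits (p ++ x ++ q) (fr l) ∧ Knot.Fits (p ++ y ++ q) (fr l) ∧
      Eqv (Knot.run (p ++ x ++ q) (fr l)) (Knot.run (p ++ y ++ q) (fr l))) :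
    Sim l (p ++ x ++ q) (p ++ y ++ q) :=
  (st p y x q m ⟨h.2.1, h.1, h.2.2.symm⟩).symm

/-- A crossing. -/
def cr (s : Bool) (i : ℕ) : Knot.Piece := if s then .pos i else .neg i

theorem cr_cases (s : Bool) (i : ℕ) : cr s i = .pos i ∨ cr s i = .neg i := by
  cases s
  · exact Or.inr rfl
  · exact Or.inl rfl

theorem toP_eq (a : Lt) : toP a = cr a.2 a.1.val := rfl

theorem cr_act (s : Bool) (i : ℕ) (F : Front) : (cr s i).act F = (Knot.Piece.pos i).act F := by
  cases s <;> rfl

theorem cr_fits (s : Bool) (i : ℕ) (F : Front) : (cr s i).Fits F ↔ i + 2 ≤ F.n := by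
  cases s <;> exact Iff.rfl

theorem far_move (s s' : Bool) (i j : ℕ) (h : i + 2 ≤ j) :
    Knot.Move [cr s i, cr s' j] [cr s' j, cr s i] := by
  have hj : j + 2 - 2 = j := by omega
  have key : ∀ p q : Knot.Piece, p.index = i → p.ins = 2 → p.outs = 2 → q.index = j →
      (∀ k, k = q.index → q.moved k = q) → Knot.Move [p, q] [q, p] := by
    intro p q h1 h2 h3 h4 h5
    have := Knot.Move.exchange p q (by rw [h1, h2, h4]; exact h)
    rwa [h5 _ (by rw [h2, h3, h4]; omega)] at this
  cases s <;> cases s'
  · exact key (.neg i) (.neg j) rfl rfl rfl rfl fun k hk => by subst hk; rfl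
  · exact key (.neg i) (.pos j) rfl rfl rfl rfl fun k hk => by subst hk; rfl
  · exact key (.pos i) (.neg j) rfl rfl rfl rfl fun k hk => by subst hk; rfl
  · exact key (.pos i) (.pos j) rfl rfl rfl rfl fun k hk => by subst hk; rfl

theorem sw_sw {i j : ℕ} (h : i + 2 ≤ j) (k : ℕ) : sw i (sw j k) = sw j (sw i k) := by
  unfold sw
  split_ifs <;> omega

theorem far_act {i j : ℕ} (h : i + 2 ≤ j) (s s' : Bool) (F : Front) :
    (cr s i).act ((cr s' j).act F) = (cr s' j).act ((cr s i).act F) := by
  rw [cr_act, cr_act, cr_act, cr_act]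
  cases F with
  | mk n dir fin =>
    show Front.mk n (fun p => dir (sw j (sw i p)))
        (fun p => sw i (sw j (fin (sw j (sw i p))))) =
      Front.mk n (fun p => dir (sw i (sw j p)))
        (fun p => sw j (sw i (fin (sw i (sw j p)))))
    simp only [sw_sw h]

/-- Far crossings commute. -/
theorem far_sim {l : List Bool} {i j : ℕ} (h : i + 2 ≤ j) (hj : j + 2 ≤ l.length) (s s' : Bool) :
    Sim l [cr s i, cr s' j] [cr s' j, cr s i] := by
  refine Sim.move (far_move s s' i j h) ⟨(cr_fits _ _ _).2 ?_, (cr_fits _ _ _).2 ?_, trivial⟩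
    ⟨(cr_fits _ _ _).2 ?_, (cr_fits _ _ _).2 ?_, trivial⟩ ?_
  · show i + 2 ≤ l.length; omega
  · rw [cr_act]; exact hj
  · exact hj
  · rw [cr_act]; show i + 2 ≤ l.length; omega
  · show Eqv ((cr s' j).act ((cr s i).act (fr l))) ((cr s i).act ((cr s' j).act (fr l)))
    rw [far_act h]
    exact Eqv.refl _

theorem cr_cr (s s' : Bool) (i : ℕ) (F : Front) : (cr s i).act ((cr s' i).act F) = F :=
  act_act _ _ i (cr_cases s' i) (cr_cases s i) F

/-- Far doubled crossings commute. -/
theorem far_sim2 {l : List Bool} {i j : ℕ} (h : i + 2 ≤ j) (hj : j + 2 ≤ l.length) (s s' : Bool) :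
    Sim l [cr s i, cr s i, cr s' j, cr s' j] [cr s' j, cr s' j, cr s i, cr s i] := by
  have H := fun (p x y q : Knot.Word) (m : Knot.Move x y) h => st (l := l) p x y q m h
  have hm := far_move s s' i j h
  have hc := fun F => far_act h s s' F
  have hn : ∀ F : Front, F.n = l.length → ∀ t, (cr t i).Fits F ∧ (cr t j).Fits F := by
    intro F hF t
    exact ⟨(cr_fits _ _ _).2 (by omega), (cr_fits _ _ _).2 (by omega)⟩
  have hi1 : ∀ (t : Bool) (F : Front), ((cr t i).act F).n = F.n := fun t F => by rw [cr_act]; rfl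
  have hj1 : ∀ (t : Bool) (F : Front), ((cr t j).act F).n = F.n := fun t F => by rw [cr_act]; rfl
  have hl : (fr l).n = l.length := rfl
  have heq : ∀ x : Knot.Word, Knot.run x (fr l) = fr l → ∀ y : Knot.Word,
      Knot.run y (fr l) = fr l → Eqv (Knot.run x (fr l)) (Knot.run y (fr l)) := by
    intro x hx y hy
    rw [hx, hy]
    exact Eqv.refl _
  have r1 : Knot.run [cr s i, cr s i, cr s' j, cr s' j] (fr l) = fr l := by
    show (cr s' j).act ((cr s' j).act ((cr s i).act ((cr s i).act (fr l)))) = _
    simp only [cr_cr]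
  have r2 : Knot.run [cr s i, cr s' j, cr s i, cr s' j] (fr l) = fr l := by
    show (cr s' j).act ((cr s i).act ((cr s' j).act ((cr s i).act (fr l)))) = _
    rw [hc, cr_cr, cr_cr]
  have r3 : Knot.run [cr s' j, cr s i, cr s i, cr s' j] (fr l) = fr l := by
    show (cr s' j).act ((cr s i).act ((cr s i).act ((cr s' j).act (fr l)))) = _
    simp only [cr_cr]
  have r4 : Knot.run [cr s' j, cr s i, cr s' j, cr s i] (fr l) = fr l := by
    show (cr s i).act ((cr s' j).act ((cr s i).act ((cr s' j).act (fr l)))) = _
    rw [hc (fr l), cr_cr, cr_cr]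
  have r5 : Knot.run [cr s' j, cr s' j, cr s i, cr s i] (fr l) = fr l := by
    show (cr s i).act ((cr s i).act ((cr s' j).act ((cr s' j).act (fr l)))) = _
    simp only [cr_cr]
  have h1 := H [cr s i] _ _ [cr s' j] hm (by
    refine ⟨⟨(hn _ ?_ _).1, (hn _ ?_ _).1, (hn _ ?_ _).2, (hn _ ?_ _).2, trivial⟩,
      ⟨(hn _ ?_ _).1, (hn _ ?_ _).2, (hn _ ?_ _).1, (hn _ ?_ _).2, trivial⟩, heq _ r1 _ r2⟩
    all_goals simp only [hi1, hj1, hl])
  have h2 := H [] _ _ [cr s i, cr s' j] hm (by
    refine ⟨⟨(hn _ ?_ _).1, (hn _ ?_ _).2, (hn _ ?_ _).1, (hn _ ?_ _).2, trivial⟩,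
      ⟨(hn _ ?_ _).2, (hn _ ?_ _).1, (hn _ ?_ _).1, (hn _ ?_ _).2, trivial⟩, heq _ r2 _ r3⟩
    all_goals simp only [hi1, hj1, hl])
  have h3 := H [cr s' j, cr s i] _ _ [] hm (by
    refine ⟨⟨(hn _ ?_ _).2, (hn _ ?_ _).1, (hn _ ?_ _).1, (hn _ ?_ _).2, trivial⟩,
      ⟨(hn _ ?_ _).2, (hn _ ?_ _).1, (hn _ ?_ _).2, (hn _ ?_ _).1, trivial⟩, heq _ r3 _ r4⟩
    all_goals simp only [hi1, hj1, hl])
  have h4 := H [cr s' j] _ _ [cr s i] hm (by
    refine ⟨⟨(hn _ ?_ _).2, (hn _ ?_ _).1, (hn _ ?_ _).2, (hn _ ?_ _).1, trivial⟩,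
      ⟨(hn _ ?_ _).2, (hn _ ?_ _).2, (hn _ ?_ _).1, (hn _ ?_ _).1, trivial⟩, heq _ r4 _ r5⟩
    all_goals simp only [hi1, hj1, hl])
  exact h1.trans (h2.trans (h3.trans h4))

/-! ### the steps of the rotation -/

/-- All letters doubled. -/
def dbl (X : List Lt) : List Lt := X.flatMap fun a => [a, a]

theorem run_dbl (X : List Lt) (F : Front) : Knot.run (toW (dbl X)) F = F := by
  induction X generalizing F with
  | nil => rfl
  | cons a X ih =>
    show Knot.run (toW (dbl X)) ((toP a).act ((toP a).act F)) = F
    rw [act_act _ _ a.1.val (toP_cases a) (toP_cases a)]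
    exact ih F

/-- The reflected letter. -/
def fl (a : Lt) : Lt := (2 - a.1, a.2)

/-- The eight ends. -/
abbrev l8 : List Bool := [false, true, false, true, false, true, false, true]

/-- The four ends. -/
abbrev l4 : List Bool := [false, true, false, true]

/-- Four nested maxima. -/
abbrev C4 : Knot.Word := [.birth 0 false, .birth 1 true, .birth 2 false, .birth 3 true]

theorem step_a : Sim [] [.birth 0 false, .birth 1 true] (C4 ++ [.death 5, .death 4]) := by
  have h1 := st (l := []) [.birth 0 false, .birth 1 true, .birth 2 false] _ _ [.death 4]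
    (Knot.Move.exchange (.birth 3 true) (.death 3) (by decide)) (by decide)
  have h2 := st (l := []) [.birth 0 false, .birth 1 true] _ _ [.birth 3 true, .death 4]
    (Knot.Move.zigzag₁ 2 false) (by decide)
  have h3 := st (l := []) [.birth 0 false, .birth 1 true] _ _ []
    (Knot.Move.zigzag₁ 3 true) (by decide)
  exact (h1.trans (h2.trans h3)).symm

theorem step_d : Sim [] (C4 ++ [.death 2, .death 0]) [.birth 0 false, .birth 2 false] := by
  have h1 := st (l := []) [.birth 0 false, .birth 1 true, .birth 2 false] _ _ [.death 0]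
    (Knot.Move.zigzag₂ 2 true) (by decide)
  have h2 := ts (l := []) [.birth 0 false, .birth 1 true] _ _ []
    (Knot.Move.exchange (.death 0) (.birth 2 false) (by decide)) (by decide)
  have h3 := st (l := []) [.birth 0 false] _ _ [.birth 0 false]
    (Knot.Move.zigzag₂ 0 true) (by decide)
  have h4 := ts (l := []) [] _ _ []
    (Knot.Move.exchange (.birth 0 false) (.birth 0 false) (by decide)) (by decide)
  exact h1.trans (h2.trans (h3.trans h4))

theorem step_R : Sim l8 ([.death 5, .death 4] ++ [.death 2, .death 0])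
    ([.death 2, .death 0] ++ [.death 1, .death 0]) := by
  have h1 := ts (l := l8) [.death 5] _ _ [.death 0]
    (Knot.Move.exchange (.death 2) (.death 4) (by decide)) (by decide)
  have h2 := ts (l := l8) [] _ _ [.death 2, .death 0]
    (Knot.Move.exchange (.death 2) (.death 5) (by decide)) (by decide)
  have h3 := ts (l := l8) [.death 2, .death 3] _ _ []
    (Knot.Move.exchange (.death 0) (.death 2) (by decide)) (by decide)
  have h4 := ts (l := l8) [.death 2] _ _ [.death 0]
    (Knot.Move.exchange (.death 0) (.death 3) (by decide)) (by decide)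
  exact h1.trans (h2.trans (h3.trans h4))

theorem slideB (i : ℕ) (b s : Bool) :
    Knot.Move [.birth i b, cr s (i + 1)] [.birth (i + 1) b, cr (!s) i] := by
  cases s
  · exact Knot.Move.slideBirth₂ i b
  · exact Knot.Move.slideBirth₁ i b

/-- The conditions for a step. -/
abbrev OkS (l : List Bool) (x y : Knot.Word) : Prop :=
  Knot.Fits x (fr l) ∧ Knot.Fits y (fr l) ∧ Eqv (Knot.run x (fr l)) (Knot.run y (fr l))

/-- A crossing slides along two nested maxima. -/
theorem nest {l : List Bool} (p q : Knot.Word) (j : ℕ) (b b' s : Bool)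
    (h1 : OkS l (p ++ [.birth j b, .birth (j + 1) b', cr s j] ++ q)
      (p ++ [.birth j b, .birth j b', cr (!s) (j + 1)] ++ q))
    (h2 : OkS l (p ++ [.birth j b, .birth j b', cr (!s) (j + 1)] ++ q)
      (p ++ [.birth j b', .birth (j + 2) b, cr (!s) (j + 1)] ++ q))
    (h3 : OkS l (p ++ [.birth j b', .birth (j + 2) b, cr (!s) (j + 1)] ++ q)
      (p ++ [.birth j b', .birth (j + 1) b, cr s (j + 2)] ++ q)) :
    Sim l (p ++ [.birth j b, .birth (j + 1) b', cr s j] ++ q)
      (p ++ [.birth j b', .birth (j + 1) b, cr s (j + 2)] ++ q) := by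
  have e : ∀ (x y : Knot.Word) (z z' : Knot.Piece), p ++ (x ++ [z, z']) ++ q =
      (p ++ x) ++ [z, z'] ++ q := by intro x y z z'; simp
  have m1 := slideB j b' (!s)
  rw [Bool.not_not] at m1
  have m2 := Knot.Move.exchange (.birth j b') (.birth j b) (le_refl _)
  have m2' : Knot.Move [.birth j b', .birth (j + 2) b] [.birth j b, .birth j b'] := m2
  have m3 := slideB (j + 1) b s
  have t1 := ts (l := l) (p ++ [.birth j b]) [.birth (j + 1) b', cr s j]
    [.birth j b', cr (!s) (j + 1)] q m1 (by simpa [OkS] using h1)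
  have t2 := ts (l := l) p [.birth j b, .birth j b'] [.birth j b', .birth (j + 2) b]
    (cr (!s) (j + 1) :: q) m2' (by simpa [OkS] using h2)
  have t3 := ts (l := l) (p ++ [.birth j b']) [.birth (j + 2) b, cr (!s) (j + 1)]
    [.birth (j + 1) b, cr s (j + 2)] q m3 (by simpa [OkS] using h3)
  have u1 : Sim l (p ++ [.birth j b, .birth (j + 1) b', cr s j] ++ q)
    (p ++ [.birth j b, .birth j b', cr (!s) (j + 1)] ++ q) := by simpa using t1
  have u2 : Sim l (p ++ [.birth j b, .birth j b', cr (!s) (j + 1)] ++ q)
      (p ++ [.birth j b', .birth (j + 2) b, cr (!s) (j + 1)] ++ q) := by simpa using t2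
  have u3 : Sim l (p ++ [.birth j b', .birth (j + 2) b, cr (!s) (j + 1)] ++ q)
      (p ++ [.birth j b', .birth (j + 1) b, cr s (j + 2)] ++ q) := by simpa using t3
  exact u1.trans (u2.trans u3)

theorem ex_cb (s : Bool) (i j : ℕ) (b : Bool) (h : i + 2 ≤ j) :
    Knot.Move [cr s i, .birth j b] [.birth j b, cr s i] := by
  have hj : j + 2 - 2 = j := by omega
  cases s
  · have := Knot.Move.exchange (.neg i) (.birth j b) h
    have e : (Piece.birth j b).moved ((Piece.birth j b).index + (Piece.neg i).outs -
      (Piece.neg i).ins) = Piece.birth j b := congrArg (Piece.birth · b) hj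
    rwa [e] at this
  · have := Knot.Move.exchange (.pos i) (.birth j b) h
    have e : (Piece.birth j b).moved ((Piece.birth j b).index + (Piece.pos i).outs -
      (Piece.pos i).ins) = Piece.birth j b := congrArg (Piece.birth · b) hj
    rwa [e] at this

theorem ex_bc (s : Bool) (i j : ℕ) (b : Bool) (h : i ≤ j) :
    Knot.Move [.birth i b, cr s (j + 2)] [cr s j, .birth i b] := by
  cases s
  · exact Knot.Move.exchange (.birth i b) (.neg j) h
  · exact Knot.Move.exchange (.birth i b) (.pos j) h

/-- A crossing slides along four nested maxima. -/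
theorem nest4 (c0 c1 c2 c3 s : Bool) :
    Sim [] [.birth 0 c0, .birth 1 c1, .birth 2 c2, .birth 3 c3, cr s 2]
      [.birth 0 c0, .birth 1 c1, .birth 2 c3, .birth 3 c2, cr s 4] ∧
    Sim [] [.birth 0 c0, .birth 1 c1, .birth 2 c2, .birth 3 c3, cr s 1]
      [.birth 0 c0, .birth 1 c2, .birth 2 c1, .birth 3 c3, cr s 5] ∧
    Sim [] [.birth 0 c0, .birth 1 c1, .birth 2 c2, .birth 3 c3, cr s 0]
      [.birth 0 c1, .birth 1 c0, .birth 2 c2, .birth 3 c3, cr s 6] := by
  refine ⟨?_, ?_, ?_⟩
  · exact nest (l := []) [.birth 0 c0, .birth 1 c1] [] 2 c2 c3 s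
      (by cases c0 <;> cases c1 <;> cases c2 <;> cases c3 <;> cases s <;> decide)
      (by cases c0 <;> cases c1 <;> cases c2 <;> cases c3 <;> cases s <;> decide)
      (by cases c0 <;> cases c1 <;> cases c2 <;> cases c3 <;> cases s <;> decide)
  · have t1 := ts (l := []) [.birth 0 c0, .birth 1 c1, .birth 2 c2] _ _ []
      (ex_cb s 1 3 c3 (by norm_num))
      (by cases c0 <;> cases c1 <;> cases c2 <;> cases c3 <;> cases s <;> decide)
    have t2 := nest (l := []) [.birth 0 c0] [.birth 3 c3] 1 c1 c2 s
      (by cases c0 <;> cases c1 <;> cases c2 <;> cases c3 <;> cases s <;> decide)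
      (by cases c0 <;> cases c1 <;> cases c2 <;> cases c3 <;> cases s <;> decide)
      (by cases c0 <;> cases c1 <;> cases c2 <;> cases c3 <;> cases s <;> decide)
    have t3 := ts (l := []) [.birth 0 c0, .birth 1 c2, .birth 2 c1] _ _ []
      (ex_bc s 3 3 c3 (by norm_num))
      (by cases c0 <;> cases c1 <;> cases c2 <;> cases c3 <;> cases s <;> decide)
    exact t1.trans (t2.trans t3)
  · have t1 := ts (l := []) [.birth 0 c0, .birth 1 c1, .birth 2 c2] _ _ []
      (ex_cb s 0 3 c3 (by norm_num))
      (by cases c0 <;> cases c1 <;> cases c2 <;> cases c3 <;> cases s <;> decide)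
    have t2 := ts (l := []) [.birth 0 c0, .birth 1 c1] _ _ [.birth 3 c3]
      (ex_cb s 0 2 c2 (by norm_num))
      (by cases c0 <;> cases c1 <;> cases c2 <;> cases c3 <;> cases s <;> decide)
    have t3 := nest (l := []) [] [.birth 2 c2, .birth 3 c3] 0 c0 c1 s
      (by cases c0 <;> cases c1 <;> cases c2 <;> cases c3 <;> cases s <;> decide)
      (by cases c0 <;> cases c1 <;> cases c2 <;> cases c3 <;> cases s <;> decide)
      (by cases c0 <;> cases c1 <;> cases c2 <;> cases c3 <;> cases s <;> decide)
    have t4 := ts (l := []) [.birth 0 c1, .birth 1 c0] _ _ [.birth 3 c3]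
      (ex_bc s 2 2 c2 (by norm_num))
      (by cases c0 <;> cases c1 <;> cases c2 <;> cases c3 <;> cases s <;> decide)
    have t5 := ts (l := []) [.birth 0 c1, .birth 1 c0, .birth 2 c2] _ _ []
      (ex_bc s 3 4 c3 (by norm_num))
      (by cases c0 <;> cases c1 <;> cases c2 <;> cases c3 <;> cases s <;> decide)
    exact t1.trans (t2.trans (t3.trans (t4.trans t5)))

/-- The letter on the right of eight strands. -/
def p8 (a : Lt) : Knot.Piece := cr a.2 (6 - a.1.val)

/-- The letter on the right of four strands. -/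
def p4 (a : Lt) : Knot.Piece := cr a.2 (2 - a.1.val)

theorem ex_cd (s : Bool) (i j : ℕ) (h : i + 2 ≤ j) :
    Knot.Move [cr s i, .death j] [.death j, cr s i] := by
  have hj : j + 2 - 2 = j := by omega
  cases s
  · have := Knot.Move.exchange (.neg i) (.death j) h
    have e : (Piece.death j).moved ((Piece.death j).index + (Piece.neg i).outs -
      (Piece.neg i).ins) = Piece.death j := congrArg Piece.death hj
    rwa [e] at this
  · have := Knot.Move.exchange (.pos i) (.death j) h
    have e : (Piece.death j).moved ((Piece.death j).index + (Piece.pos i).outs -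
      (Piece.pos i).ins) = Piece.death j := congrArg Piece.death hj
    rwa [e] at this

theorem ex_dc (s : Bool) (i j : ℕ) (h : i ≤ j) :
    Knot.Move [.death i, cr s j] [cr s (j + 2), .death i] := by
  have h' : i + 2 ≤ j + 2 := by omega
  cases s
  · exact Knot.Move.exchange (.death i) (.neg (j + 2)) h'
  · exact Knot.Move.exchange (.death i) (.pos (j + 2)) h'

theorem nest_dbl (a : Lt) : Sim [] (C4 ++ [toP a, toP a]) (C4 ++ [p8 a, p8 a]) := by
  obtain ⟨i, s⟩ := a
  match i with
  | 0 =>
    have h1 := (nest4 false true false true s).2.2.right (q := [cr s 0]) (by cases s <;> decide)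
    have h2 := ts (l := []) [.birth 0 true, .birth 1 false, .birth 2 false, .birth 3 true] _ _ []
      (far_move s s 0 6 (by norm_num)) (by cases s <;> decide)
    have h3 := (nest4 true false false true s).2.2.right (q := [cr s 6]) (by cases s <;> decide)
    exact h1.trans (h2.trans h3)
  | 1 =>
    have h1 := (nest4 false true false true s).2.1.right (q := [cr s 1]) (by cases s <;> decide)
    have h2 := ts (l := []) [.birth 0 false, .birth 1 false, .birth 2 true, .birth 3 true] _ _ []
      (far_move s s 1 5 (by norm_num)) (by cases s <;> decide)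
    have h3 := (nest4 false false true true s).2.1.right (q := [cr s 5]) (by cases s <;> decide)
    exact h1.trans (h2.trans h3)
  | 2 =>
    have h1 := (nest4 false true false true s).1.right (q := [cr s 2]) (by cases s <;> decide)
    have h2 := ts (l := []) [.birth 0 false, .birth 1 true, .birth 2 true, .birth 3 false] _ _ []
      (far_move s s 2 4 (by norm_num)) (by cases s <;> decide)
    have h3 := (nest4 false true true false s).1.right (q := [cr s 4]) (by cases s <;> decide)
    exact h1.trans (h2.trans h3)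

/-- The word on the right of eight strands. -/
def W8 : List Lt → Knot.Word
  | [] => []
  | a :: X => W8 X ++ [p8 a, p8 a]

/-- The word on four strands. -/
def W4 : List Lt → Knot.Word
  | [] => []
  | a :: X => W4 X ++ [p4 a, p4 a]

theorem run_p8 (a : Lt) (F : Front) : Knot.run [p8 a, p8 a] F = F := cr_cr _ _ _ _

theorem run_p4 (a : Lt) (F : Front) : Knot.run [p4 a, p4 a] F = F := cr_cr _ _ _ _

theorem run_W8 (X : List Lt) (F : Front) : Knot.run (W8 X) F = F := by
  induction X generalizing F with
  | nil => rfl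
  | cons a X ih => unfold W8; rw [run_append, ih, run_p8]

theorem run_W4 (X : List Lt) (F : Front) : Knot.run (W4 X) F = F := by
  induction X generalizing F with
  | nil => rfl
  | cons a X ih => unfold W4; rw [run_append, ih, run_p4]

theorem fits_p8 (a : Lt) (F : Front) (h : F.n = 8) : Knot.Fits [p8 a, p8 a] F := by
  have : ∀ G : Front, G.n = 8 → (p8 a).Fits G := by
    intro G hG
    refine (cr_fits _ _ _).2 ?_
    have := a.1.isLt
    omega
  refine ⟨this F h, this _ ?_, trivial⟩
  unfold p8
  rw [cr_act]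
  exact h

theorem fits_p4 (a : Lt) (F : Front) (h : F.n = 4) : Knot.Fits [p4 a, p4 a] F := by
  have : ∀ G : Front, G.n = 4 → (p4 a).Fits G := by
    intro G hG
    refine (cr_fits _ _ _).2 ?_
    have := a.1.isLt
    omega
  refine ⟨this F h, this _ ?_, trivial⟩
  unfold p4
  rw [cr_act]
  exact h

theorem fits_W8 (X : List Lt) (F : Front) (h : F.n = 8) : Knot.Fits (W8 X) F := by
  induction X generalizing F with
  | nil => trivial
  | cons a X ih =>
    unfold W8
    rw [fits_append, run_W8]
    exact ⟨ih F h, fits_p8 a F h⟩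

theorem fits_W4 (X : List Lt) (F : Front) (h : F.n = 4) : Knot.Fits (W4 X) F := by
  induction X generalizing F with
  | nil => trivial
  | cons a X ih =>
    unfold W4
    rw [fits_append, run_W4]
    exact ⟨ih F h, fits_p4 a F h⟩

theorem toW_dbl_cons (a : Lt) (X : List Lt) :
    toW (dbl (a :: X)) = [toP a, toP a] ++ toW (dbl X) := rfl

theorem run_toP2 (a : Lt) (F : Front) : Knot.run [toP a, toP a] F = F :=
  act_act _ _ a.1.val (toP_cases a) (toP_cases a) F

theorem fits_toP2 (a : Lt) (F : Front) (h : 4 ≤ F.n) : Knot.Fits [toP a, toP a] F :=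
  toW_fits [a, a] F h

theorem pass_x (a : Lt) (X : List Lt) :
    Sim l8 ([p8 a, p8 a] ++ toW (dbl X)) (toW (dbl X) ++ [p8 a, p8 a]) := by
  induction X with
  | nil => exact Sim.refl (fits_p8 a _ rfl)
  | cons b X ih =>
    have h1 := (far_sim2 (l := l8) (i := b.1.val) (j := 6 - a.1.val)
      (by have := a.1.isLt; have := b.1.isLt; omega) (by show _ ≤ 8; have := a.1.isLt; omega)
      b.2 a.2).symm
    have h2 := h1.right (q := toW (dbl X)) (by
      refine toW_fits _ _ ?_
      show 4 ≤ ((cr b.2 b.1.val).act ((cr b.2 b.1.val).act ((cr a.2 (6 - a.1.val)).act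
        ((cr a.2 (6 - a.1.val)).act (fr l8))))).n
      rw [cr_cr, cr_cr]
      decide)
    have h3 := ih.left (l := l8) (p := [toP b, toP b]) (fits_toP2 b _ (by decide))
      (by rw [run_toP2]; exact Eqv.refl _)
    have e : [p8 a, p8 a] ++ toW (dbl (b :: X)) =
        [p8 a, p8 a, toP b, toP b] ++ toW (dbl X) := rfl
    have e' : toW (dbl (b :: X)) ++ [p8 a, p8 a] =
        [toP b, toP b] ++ (toW (dbl X) ++ [p8 a, p8 a]) := rfl
    rw [e, e']
    exact h2.trans h3

theorem step_c (X : List Lt) : Sim [] (C4 ++ toW (dbl X)) (C4 ++ W8 X) := by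
  induction X with
  | nil => exact Sim.refl (by decide)
  | cons a X ih =>
    have h1 := (nest_dbl a).right (q := toW (dbl X)) (toW_fits _ _ (by
      rw [run_append, run_toP2]
      decide))
    have h2 := (pass_x a X).left (l := []) (p := C4) (by decide) (by decide)
    have h3 := ih.right (q := [p8 a, p8 a]) (fits_p8 a _ (by
      rw [run_append, run_dbl]
      decide))
    have e : C4 ++ toW (dbl (a :: X)) = C4 ++ [toP a, toP a] ++ toW (dbl X) := by
      rw [toW_dbl_cons, List.append_assoc]
    have e' : C4 ++ W8 (a :: X) = C4 ++ W8 X ++ [p8 a, p8 a] := by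
      rw [List.append_assoc]
      rfl
    rw [e, e']
    refine h1.trans (Sim.trans ?_ h3)
    rw [List.append_assoc, List.append_assoc]
    exact h2

theorem pass_R (X : List Lt) :
    Sim l8 ([.death 5, .death 4] ++ toW (dbl X)) (toW (dbl X) ++ [.death 5, .death 4]) := by
  induction X with
  | nil => exact Sim.refl (by decide)
  | cons a X ih =>
    have h1 : Sim l8 ([.death 5, .death 4] ++ [toP a, toP a])
        ([toP a, toP a] ++ [.death 5, .death 4]) := by
      obtain ⟨i, s⟩ := a
      have h4 := ex_cd s i.val 4 (by have := i.isLt; omega)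
      have h5 := ex_cd s i.val 5 (by have := i.isLt; omega)
      have t1 := ts (l := l8) [.death 5] _ _ [cr s i.val] h4 (by
        match i with
        | 0 => cases s <;> decide
        | 1 => cases s <;> decide
        | 2 => cases s <;> decide)
      have t2 := ts (l := l8) [] _ _ [.death 4, cr s i.val] h5 (by
        match i with
        | 0 => cases s <;> decide
        | 1 => cases s <;> decide
        | 2 => cases s <;> decide)
      have t3 := ts (l := l8) [cr s i.val, .death 5] _ _ [] h4 (by
        match i with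
        | 0 => cases s <;> decide
        | 1 => cases s <;> decide
        | 2 => cases s <;> decide)
      have t4 := ts (l := l8) [cr s i.val] _ _ [.death 4] h5 (by
        match i with
        | 0 => cases s <;> decide
        | 1 => cases s <;> decide
        | 2 => cases s <;> decide)
      exact t1.trans (t2.trans (t3.trans t4))
    have h2 := h1.right (q := toW (dbl X)) (toW_fits _ _ (by
      rw [run_append, run_toP2]
      decide))
    have h3 := ih.left (l := l8) (p := [toP a, toP a]) (fits_toP2 a _ (by decide))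
      (by rw [run_toP2]; exact Eqv.refl _)
    have e : [.death 5, .death 4] ++ toW (dbl (a :: X)) =
        [.death 5, .death 4] ++ [toP a, toP a] ++ toW (dbl X) := rfl
    have e' : toW (dbl (a :: X)) ++ [.death 5, .death 4] =
        [toP a, toP a] ++ (toW (dbl X) ++ [.death 5, .death 4]) := rfl
    rw [e, e']
    exact h2.trans h3

theorem pass_N (X : List Lt) :
    Sim l8 (W8 X ++ [.death 2, .death 0]) ([.death 2, .death 0] ++ W4 X) := by
  induction X with
  | nil => exact Sim.refl (by decide)
  | cons a X ih =>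
    have h1 : Sim l8 ([p8 a, p8 a] ++ [.death 2, .death 0])
        ([.death 2, .death 0] ++ [p4 a, p4 a]) := by
      obtain ⟨i, s⟩ := a
      have e1 : 4 - i.val + 2 = 6 - i.val := by have := i.isLt; omega
      have e2 : 2 - i.val + 2 = 4 - i.val := by have := i.isLt; omega
      have h4 := ex_dc s 2 (4 - i.val) (by have := i.isLt; omega)
      have h5 := ex_dc s 0 (2 - i.val) (by have := i.isLt; omega)
      rw [e1] at h4
      rw [e2] at h5
      have t1 := ts (l := l8) [cr s (6 - i.val)] _ _ [.death 0] h4 (by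
        match i with
        | 0 => cases s <;> decide
        | 1 => cases s <;> decide
        | 2 => cases s <;> decide)
      have t2 := ts (l := l8) [] _ _ [cr s (4 - i.val), .death 0] h4 (by
        match i with
        | 0 => cases s <;> decide
        | 1 => cases s <;> decide
        | 2 => cases s <;> decide)
      have t3 := ts (l := l8) [.death 2, cr s (4 - i.val)] _ _ [] h5 (by
        match i with
        | 0 => cases s <;> decide
        | 1 => cases s <;> decide
        | 2 => cases s <;> decide)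
      have t4 := ts (l := l8) [.death 2] _ _ [cr s (2 - i.val)] h5 (by
        match i with
        | 0 => cases s <;> decide
        | 1 => cases s <;> decide
        | 2 => cases s <;> decide)
      exact t1.trans (t2.trans (t3.trans t4))
    have h2 := h1.left (l := l8) (p := W8 X) (fits_W8 X _ rfl) (by rw [run_W8]; exact Eqv.refl _)
    have h3 := ih.right (q := [p4 a, p4 a]) (fits_p4 a _ (by
      rw [run_append, run_W8]
      decide))
    have e : W8 (a :: X) ++ [.death 2, .death 0] = W8 X ++ ([p8 a, p8 a] ++ [.death 2, .death 0]) := by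
      rw [← List.append_assoc]
      rfl
    have e' : [.death 2, .death 0] ++ W4 (a :: X) = [.death 2, .death 0] ++ W4 X ++ [p4 a, p4 a] := by
      rw [List.append_assoc]
      rfl
    rw [e, e']
    refine h2.trans (Sim.trans ?_ h3)
    rw [← List.append_assoc]
    exact Sim.refl (by
      rw [fits_append, fits_append, run_append, run_W8]
      exact ⟨⟨fits_W8 X _ rfl, by decide⟩, fits_p4 a _ (by decide)⟩)

/-- The rotation of a four-plat in the plane. -/
theorem rotate (X : List Lt) :
    Sim [] ([.birth 0 false, .birth 1 true] ++ toW (dbl X) ++ [.death 2, .death 0])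
      ([.birth 0 false, .birth 2 false] ++ W4 X ++ [.death 1, .death 0]) := by
  have h1 := (step_a.right (q := toW (dbl X) ++ [.death 2, .death 0]) (by
    rw [fits_append, run_dbl]
    exact ⟨toW_fits _ _ (by decide), by decide⟩))
  have h2 := (pass_R X).ctx (l := []) (p := C4) (q := [.death 2, .death 0]) (by decide) (by decide)
    (by rw [run_append, run_dbl]; decide)
  have h3 := (step_c X).right (q := [.death 5, .death 4] ++ [.death 2, .death 0]) (by
    rw [run_append, run_dbl]
    decide)
  have h4 := (step_R.left (l := l8) (p := W8 X) (fits_W8 X _ rfl)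
    (by rw [run_W8]; exact Eqv.refl _)).left (l := []) (p := C4) (by decide) (by decide)
  have h5 := ((pass_N X).right (q := [.death 1, .death 0]) (by
    rw [run_append, run_W8]
    decide)).left (l := []) (p := C4) (by decide) (by decide)
  have h6 := step_d.right (q := W4 X ++ [.death 1, .death 0]) (by
    rw [fits_append, run_W4]
    exact ⟨fits_W4 X _ (by decide), by decide⟩)
  simp only [List.append_assoc] at h1 h2 h3 h4 h5 h6 ⊢
  exact h1.trans (h2.trans (h3.trans (h4.trans (h5.trans h6))))

end Pool.Agent.K7.H38.TB
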