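import Pool.Agent.Y466.FT.Alt
import Pool.Agent.Helper454.Wh.Homf.E12

/-!
# The HOMFLY polynomial of oriented sliced diagrams

The starting library contains the HOMFLY polynomial `Homf.Lam` for the oriented sliced diagrams of
`Pool.Agent.Helper454.Wh.Defs`.  Here it is transferred to the oriented sliced diagrams of
`Pool.Agent.H835R2.Knot.Defs`.
-/

set_option autoImplicit false
set_option linter.unusedSimpArgs false
set_option linter.unreachableTactic false
set_option linter.unusedTactic false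

namespace Pool.Agent.K7.H38.TB

open Pool.Agent.H835R2 Pool.Agent.H835R2.Knot
open Pool.Agent.Helper454

/-- The piece as a piece of the other library. -/
def toO : Knot.Piece → Wh.OPiece
  | .birth i b => .birth i b
  | .death i => .death i
  | .pos i => .pos i
  | .neg i => .neg i

theorem below_piece (p : Knot.Piece) (d : ℕ → Bool) (F : Front)
    (hd : ∀ k < F.n, F.dir k = d k) (h : p.Fits F) :
    ∃ d', (toO p).below F.n d = some ((p.act F).n, d') ∧
      ∀ k < (p.act F).n, (p.act F).dir k = d' k := by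
  cases p with
  | birth i b =>
    have h : i ≤ F.n := h
    refine ⟨Wh.insD i b d, ?_, ?_⟩
    · simp only [toO, Wh.OPiece.below, if_pos h]; rfl
    · intro k hk
      have hk : k < F.n + 2 := hk
      show (if k < i then F.dir k else if k = i then b else if k = i + 1 then !b
        else F.dir (k - 2)) = Wh.insD i b d k
      unfold Wh.insD
      split_ifs with h1 h2 h3
      · exact hd k (by omega)
      · rfl
      · rfl
      · exact hd (k - 2) (by omega)
  | death i =>
    have h : i + 2 ≤ F.n ∧ F.dir (i + 1) = !F.dir i := h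
    have h' : i + 2 ≤ F.n ∧ d (i + 1) = !d i := by
      refine ⟨h.1, ?_⟩
      rw [← hd _ (by omega), ← hd _ (by omega)]
      exact h.2
    refine ⟨Wh.delD i d, ?_, ?_⟩
    · simp only [toO, Wh.OPiece.below, if_pos h']; rfl
    · intro k hk
      have hk : k < F.n - 2 := hk
      show F.dir (up i k) = Wh.delD i d k
      unfold Wh.delD up
      split_ifs with h1
      · exact hd _ (by omega)
      · exact hd _ (by omega)
  | pos i =>
    have h : i + 2 ≤ F.n := h
    refine ⟨Wh.swpD i d, ?_, ?_⟩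
    · simp only [toO, Wh.OPiece.below, if_pos h]; rfl
    · intro k hk
      have hk : k < F.n := hk
      show F.dir (sw i k) = Wh.swpD i d k
      unfold Wh.swpD sw
      split_ifs with h1 h2
      · exact hd _ (by omega)
      · exact hd _ (by omega)
      · exact hd _ (by omega)
  | neg i =>
    have h : i + 2 ≤ F.n := h
    refine ⟨Wh.swpD i d, ?_, ?_⟩
    · simp only [toO, Wh.OPiece.below, if_pos h]; rfl
    · intro k hk
      have hk : k < F.n := hk
      show F.dir (sw i k) = Wh.swpD i d k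
      unfold Wh.swpD sw
      split_ifs with h1 h2
      · exact hd _ (by omega)
      · exact hd _ (by omega)
      · exact hd _ (by omega)

theorem below_word (w : Knot.Word) (d : ℕ → Bool) (F : Front)
    (hd : ∀ k < F.n, F.dir k = d k) (h : Knot.Fits w F) :
    ∃ d', Wh.below (w.map toO) F.n d = some ((Knot.run w F).n, d') ∧
      ∀ k < (Knot.run w F).n, (Knot.run w F).dir k = d' k := by
  induction w generalizing d F with
  | nil => exact ⟨d, rfl, hd⟩
  | cons p w ih =>
    obtain ⟨h1, h2⟩ := h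
    obtain ⟨d', e1, e2⟩ := below_piece p d F hd h1
    obtain ⟨d'', e3, e4⟩ := ih d' (p.act F) e2 h2
    refine ⟨d'', ?_, e4⟩
    show (Wh.OPiece.below (toO p) F.n d).bind (fun s => Wh.below (w.map toO) s.1 s.2) = _
    rw [e1]
    exact e3

theorem closed_toO {D : Knot.Word} (h : Closed D) : Wh.OClosed (D.map toO) := by
  obtain ⟨d', e1, -⟩ := below_word D Wh.noD Front.empty
    (fun k hk => absurd hk (Nat.not_lt_zero k)) h.1
  have e1 : Wh.below (D.map toO) 0 Wh.noD = some ((Knot.run D Front.empty).n, d') := e1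
  unfold Wh.OClosed
  rw [e1, h.2]
  rfl

theorem forget_toO (p : Knot.Piece) : (toO p).forget =
    match p with
    | .birth i _ => Kauf.Piece.birth i
    | .death i => Kauf.Piece.death i
    | .pos i => Kauf.Piece.pos i
    | .neg i => Kauf.Piece.neg i := by
  cases p <;> rfl

theorem forget_index (p : Knot.Piece) : (toO p).forget.index = p.index := by cases p <;> rfl
theorem forget_ins (p : Knot.Piece) : (toO p).forget.ins = p.ins := by cases p <;> rfl
theorem forget_outs (p : Knot.Piece) : (toO p).forget.outs = p.outs := by cases p <;> rfl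
theorem forget_moved (p : Knot.Piece) (j : ℕ) :
    (toO (p.moved j)).forget = (toO p).forget.moved j := by cases p <;> rfl

theorem move_local {l r : Knot.Word} (h : Knot.Move l r) :
    Kauf.LocalMove (Wh.forget (l.map toO)) (Wh.forget (r.map toO)) ∨
      Kauf.FirstMove (Wh.forget (l.map toO)) (Wh.forget (r.map toO)) := by
  cases h with
  | exchange p q h =>
    left
    show Kauf.LocalMove [(toO p).forget, (toO (q.moved (q.index + p.outs - p.ins))).forget]
      [(toO q).forget, (toO p).forget]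
    rw [forget_moved, ← forget_index q, ← forget_outs p, ← forget_ins p]
    refine Kauf.LocalMove.exchange _ _ ?_
    rw [forget_index, forget_index, forget_ins]
    exact h
  | zigzag₁ i b => exact Or.inl (Kauf.LocalMove.zigzag₁ i)
  | zigzag₂ i b => exact Or.inl (Kauf.LocalMove.zigzag₂ i)
  | slideBirth₁ i b => exact Or.inl (Kauf.LocalMove.slideBirth₁ i)
  | slideBirth₂ i b => exact Or.inl (Kauf.LocalMove.slideBirth₂ i)
  | slideDeath₁ i => exact Or.inl (Kauf.LocalMove.slideDeath₁ i)
  | slideDeath₂ i => exact Or.inl (Kauf.LocalMove.slideDeath₂ i)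
  | firstBirthPos i b => exact Or.inr (Kauf.FirstMove.birthPos i)
  | firstBirthNeg i b => exact Or.inr (Kauf.FirstMove.birthNeg i)
  | firstDeathPos i => exact Or.inr (Kauf.FirstMove.deathPos i)
  | firstDeathNeg i => exact Or.inr (Kauf.FirstMove.deathNeg i)
  | second₁ i => exact Or.inl (Kauf.LocalMove.second₁ i)
  | second₂ i => exact Or.inl (Kauf.LocalMove.second₂ i)
  | third i => exact Or.inl (Kauf.LocalMove.third i)


/-- The parts before and after a move have the same ends. -/
theorem move_below {l r : Knot.Word} (h : Knot.Move l r) {n : ℕ} {d : ℕ → Bool}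
    {s t : ℕ × (ℕ → Bool)} (hs : Wh.below (l.map toO) n d = some s)
    (ht : Wh.below (r.map toO) n d = some t) : s = t := by
  cases h with
  | exchange p q h =>
    simp only [List.map_cons, List.map_nil] at hs ht
    obtain ⟨s1, hs1, hs2⟩ := Wh.Homf.bl_cons hs
    obtain ⟨s2, hs3, hs4⟩ := Wh.Homf.bl_cons hs2
    obtain rfl := Wh.Homf.bl_nil hs4
    obtain ⟨t1, ht1, ht2⟩ := Wh.Homf.bl_cons ht
    obtain ⟨t2, ht3, ht4⟩ := Wh.Homf.bl_cons ht2
    obtain rfl := Wh.Homf.bl_nil ht4
    have hn : s2.1 = t2.1 := by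
      cases p <;> cases q <;>
        simp only [toO, Knot.Piece.moved, Knot.Piece.index, Knot.Piece.ins, Knot.Piece.outs,
          Wh.OPiece.below, Option.ite_none_right_eq_some, Option.some.injEq] at hs1 hs3 ht1 ht3 h <;>
        obtain ⟨c1, rfl⟩ := hs1 <;> obtain ⟨c2, rfl⟩ := hs3 <;> obtain ⟨c3, rfl⟩ := ht1 <;>
        obtain ⟨c4, rfl⟩ := ht3 <;> simp only at c1 c2 c3 c4 ⊢ <;> omega
    refine Prod.ext hn (funext fun k => ?_)
    cases p <;> cases q <;>
      simp only [toO, Knot.Piece.moved, Knot.Piece.index, Knot.Piece.ins, Knot.Piece.outs,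
        Wh.OPiece.below, Option.ite_none_right_eq_some, Option.some.injEq] at hs1 hs3 ht1 ht3 h <;>
      obtain ⟨c1, rfl⟩ := hs1 <;> obtain ⟨c2, rfl⟩ := hs3 <;> obtain ⟨c3, rfl⟩ := ht1 <;>
      obtain ⟨c4, rfl⟩ := ht3 <;> clear c1 c2 c3 c4 hn hs hs2 hs4 ht ht2 ht4 <;>
      simp only [Wh.insD, Wh.delD, Wh.swpD] <;>
      split_ifs <;> first | rfl | (exfalso; omega) | (congr 1; omega)
  | zigzag₁ i b =>
    simp only [List.map_cons, List.map_nil] at hs ht
    obtain ⟨s1, hs1, hs2⟩ := Wh.Homf.bl_cons hs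
    obtain ⟨s2, hs3, hs4⟩ := Wh.Homf.bl_cons hs2
    obtain rfl := Wh.Homf.bl_nil hs4
    obtain rfl := Wh.Homf.bl_nil ht
    simp only [toO, Wh.OPiece.below, Option.ite_none_right_eq_some, Option.some.injEq] at hs1 hs3
    obtain ⟨c1, rfl⟩ := hs1
    obtain ⟨c2, rfl⟩ := hs3
    try clear hs
    try clear ht
    refine Prod.ext (by first | rfl | (simp only; omega)) (funext fun k => ?_)
    simp only [Wh.insD, Wh.delD, Wh.swpD] at *
    split_ifs at * <;> first | rfl | (exfalso; omega) | (congr 1; omega) | (simp_all; done)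
  | zigzag₂ i b =>
    simp only [List.map_cons, List.map_nil] at hs ht
    obtain ⟨s1, hs1, hs2⟩ := Wh.Homf.bl_cons hs
    obtain ⟨s2, hs3, hs4⟩ := Wh.Homf.bl_cons hs2
    obtain rfl := Wh.Homf.bl_nil hs4
    obtain rfl := Wh.Homf.bl_nil ht
    simp only [toO, Wh.OPiece.below, Option.ite_none_right_eq_some, Option.some.injEq] at hs1 hs3
    obtain ⟨c1, rfl⟩ := hs1
    obtain ⟨c2, rfl⟩ := hs3
    try clear hs
    try clear ht
    refine Prod.ext (by first | rfl | (simp only; omega)) (funext fun k => ?_)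
    simp only [Wh.insD, Wh.delD, Wh.swpD] at *
    split_ifs at * <;> first | rfl | (exfalso; omega) | (congr 1; omega) | (simp_all; done)
  | second₁ i =>
    simp only [List.map_cons, List.map_nil] at hs ht
    obtain ⟨s1, hs1, hs2⟩ := Wh.Homf.bl_cons hs
    obtain ⟨s2, hs3, hs4⟩ := Wh.Homf.bl_cons hs2
    obtain rfl := Wh.Homf.bl_nil hs4
    obtain rfl := Wh.Homf.bl_nil ht
    simp only [toO, Wh.OPiece.below, Option.ite_none_right_eq_some, Option.some.injEq] at hs1 hs3
    obtain ⟨c1, rfl⟩ := hs1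
    obtain ⟨c2, rfl⟩ := hs3
    try clear hs
    try clear ht
    refine Prod.ext (by first | rfl | (simp only; omega)) (funext fun k => ?_)
    simp only [Wh.insD, Wh.delD, Wh.swpD] at *
    split_ifs at * <;> first | rfl | (exfalso; omega) | (congr 1; omega) | (simp_all; done)
  | second₂ i =>
    simp only [List.map_cons, List.map_nil] at hs ht
    obtain ⟨s1, hs1, hs2⟩ := Wh.Homf.bl_cons hs
    obtain ⟨s2, hs3, hs4⟩ := Wh.Homf.bl_cons hs2
    obtain rfl := Wh.Homf.bl_nil hs4
    obtain rfl := Wh.Homf.bl_nil ht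
    simp only [toO, Wh.OPiece.below, Option.ite_none_right_eq_some, Option.some.injEq] at hs1 hs3
    obtain ⟨c1, rfl⟩ := hs1
    obtain ⟨c2, rfl⟩ := hs3
    try clear hs
    try clear ht
    refine Prod.ext (by first | rfl | (simp only; omega)) (funext fun k => ?_)
    simp only [Wh.insD, Wh.delD, Wh.swpD] at *
    split_ifs at * <;> first | rfl | (exfalso; omega) | (congr 1; omega) | (simp_all; done)
  | firstBirthPos i b =>
    simp only [List.map_cons, List.map_nil] at hs ht
    obtain ⟨s1, hs1, hs2⟩ := Wh.Homf.bl_cons hs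
    obtain ⟨s2, hs3, hs4⟩ := Wh.Homf.bl_cons hs2
    obtain rfl := Wh.Homf.bl_nil hs4
    obtain ⟨t1, ht1, ht2⟩ := Wh.Homf.bl_cons ht
    obtain rfl := Wh.Homf.bl_nil ht2
    simp only [toO, Wh.OPiece.below, Option.ite_none_right_eq_some, Option.some.injEq] at hs1 hs3 ht1
    obtain ⟨c1, rfl⟩ := hs1
    obtain ⟨c2, rfl⟩ := hs3
    obtain ⟨c3, rfl⟩ := ht1
    try clear hs
    try clear ht
    refine Prod.ext (by first | rfl | (simp only; omega)) (funext fun k => ?_)
    simp only [Wh.insD, Wh.delD, Wh.swpD] at *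
    split_ifs at * <;> first | rfl | (exfalso; omega) | (congr 1; omega) | (simp_all; done)
  | firstBirthNeg i b =>
    simp only [List.map_cons, List.map_nil] at hs ht
    obtain ⟨s1, hs1, hs2⟩ := Wh.Homf.bl_cons hs
    obtain ⟨s2, hs3, hs4⟩ := Wh.Homf.bl_cons hs2
    obtain rfl := Wh.Homf.bl_nil hs4
    obtain ⟨t1, ht1, ht2⟩ := Wh.Homf.bl_cons ht
    obtain rfl := Wh.Homf.bl_nil ht2
    simp only [toO, Wh.OPiece.below, Option.ite_none_right_eq_some, Option.some.injEq] at hs1 hs3 ht1
    obtain ⟨c1, rfl⟩ := hs1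
    obtain ⟨c2, rfl⟩ := hs3
    obtain ⟨c3, rfl⟩ := ht1
    try clear hs
    try clear ht
    refine Prod.ext (by first | rfl | (simp only; omega)) (funext fun k => ?_)
    simp only [Wh.insD, Wh.delD, Wh.swpD] at *
    split_ifs at * <;> first | rfl | (exfalso; omega) | (congr 1; omega) | (simp_all; done)
  | firstDeathPos i =>
    simp only [List.map_cons, List.map_nil] at hs ht
    obtain ⟨s1, hs1, hs2⟩ := Wh.Homf.bl_cons hs
    obtain ⟨s2, hs3, hs4⟩ := Wh.Homf.bl_cons hs2
    obtain rfl := Wh.Homf.bl_nil hs4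
    obtain ⟨t1, ht1, ht2⟩ := Wh.Homf.bl_cons ht
    obtain rfl := Wh.Homf.bl_nil ht2
    simp only [toO, Wh.OPiece.below, Option.ite_none_right_eq_some, Option.some.injEq] at hs1 hs3 ht1
    obtain ⟨c1, rfl⟩ := hs1
    obtain ⟨c2, rfl⟩ := hs3
    obtain ⟨c3, rfl⟩ := ht1
    try clear hs
    try clear ht
    refine Prod.ext (by first | rfl | (simp only; omega)) (funext fun k => ?_)
    simp only [Wh.insD, Wh.delD, Wh.swpD] at *
    split_ifs at * <;> first | rfl | (exfalso; omega) | (congr 1; omega) | (simp_all; done)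
  | firstDeathNeg i =>
    simp only [List.map_cons, List.map_nil] at hs ht
    obtain ⟨s1, hs1, hs2⟩ := Wh.Homf.bl_cons hs
    obtain ⟨s2, hs3, hs4⟩ := Wh.Homf.bl_cons hs2
    obtain rfl := Wh.Homf.bl_nil hs4
    obtain ⟨t1, ht1, ht2⟩ := Wh.Homf.bl_cons ht
    obtain rfl := Wh.Homf.bl_nil ht2
    simp only [toO, Wh.OPiece.below, Option.ite_none_right_eq_some, Option.some.injEq] at hs1 hs3 ht1
    obtain ⟨c1, rfl⟩ := hs1
    obtain ⟨c2, rfl⟩ := hs3
    obtain ⟨c3, rfl⟩ := ht1
    try clear hs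
    try clear ht
    refine Prod.ext (by first | rfl | (simp only; omega)) (funext fun k => ?_)
    simp only [Wh.insD, Wh.delD, Wh.swpD] at *
    split_ifs at * <;> first | rfl | (exfalso; omega) | (congr 1; omega) | (simp_all; done)
  | slideBirth₁ i b =>
    simp only [List.map_cons, List.map_nil] at hs ht
    obtain ⟨s1, hs1, hs2⟩ := Wh.Homf.bl_cons hs
    obtain ⟨s2, hs3, hs4⟩ := Wh.Homf.bl_cons hs2
    obtain rfl := Wh.Homf.bl_nil hs4
    obtain ⟨t1, ht1, ht2⟩ := Wh.Homf.bl_cons ht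
    obtain ⟨t2, ht3, ht4⟩ := Wh.Homf.bl_cons ht2
    obtain rfl := Wh.Homf.bl_nil ht4
    simp only [toO, Wh.OPiece.below, Option.ite_none_right_eq_some, Option.some.injEq] at hs1 hs3 ht1 ht3
    obtain ⟨c1, rfl⟩ := hs1
    obtain ⟨c2, rfl⟩ := hs3
    obtain ⟨c3, rfl⟩ := ht1
    obtain ⟨c4, rfl⟩ := ht3
    try clear hs
    try clear ht
    refine Prod.ext (by first | rfl | (simp only; omega)) (funext fun k => ?_)
    simp only [Wh.insD, Wh.delD, Wh.swpD] at *
    split_ifs at * <;> first | rfl | (exfalso; omega) | (congr 1; omega) | (simp_all; done)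
  | slideBirth₂ i b =>
    simp only [List.map_cons, List.map_nil] at hs ht
    obtain ⟨s1, hs1, hs2⟩ := Wh.Homf.bl_cons hs
    obtain ⟨s2, hs3, hs4⟩ := Wh.Homf.bl_cons hs2
    obtain rfl := Wh.Homf.bl_nil hs4
    obtain ⟨t1, ht1, ht2⟩ := Wh.Homf.bl_cons ht
    obtain ⟨t2, ht3, ht4⟩ := Wh.Homf.bl_cons ht2
    obtain rfl := Wh.Homf.bl_nil ht4
    simp only [toO, Wh.OPiece.below, Option.ite_none_right_eq_some, Option.some.injEq] at hs1 hs3 ht1 ht3
    obtain ⟨c1, rfl⟩ := hs1
    obtain ⟨c2, rfl⟩ := hs3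
    obtain ⟨c3, rfl⟩ := ht1
    obtain ⟨c4, rfl⟩ := ht3
    try clear hs
    try clear ht
    refine Prod.ext (by first | rfl | (simp only; omega)) (funext fun k => ?_)
    simp only [Wh.insD, Wh.delD, Wh.swpD] at *
    split_ifs at * <;> first | rfl | (exfalso; omega) | (congr 1; omega) | (simp_all; done)
  | slideDeath₁ i =>
    simp only [List.map_cons, List.map_nil] at hs ht
    obtain ⟨s1, hs1, hs2⟩ := Wh.Homf.bl_cons hs
    obtain ⟨s2, hs3, hs4⟩ := Wh.Homf.bl_cons hs2
    obtain rfl := Wh.Homf.bl_nil hs4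
    obtain ⟨t1, ht1, ht2⟩ := Wh.Homf.bl_cons ht
    obtain ⟨t2, ht3, ht4⟩ := Wh.Homf.bl_cons ht2
    obtain rfl := Wh.Homf.bl_nil ht4
    simp only [toO, Wh.OPiece.below, Option.ite_none_right_eq_some, Option.some.injEq] at hs1 hs3 ht1 ht3
    obtain ⟨c1, rfl⟩ := hs1
    obtain ⟨c2, rfl⟩ := hs3
    obtain ⟨c3, rfl⟩ := ht1
    obtain ⟨c4, rfl⟩ := ht3
    try clear hs
    try clear ht
    refine Prod.ext (by first | rfl | (simp only; omega)) (funext fun k => ?_)
    simp only [Wh.insD, Wh.delD, Wh.swpD] at *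
    split_ifs at * <;> first | rfl | (exfalso; omega) | (congr 1; omega) | (simp_all; done)
  | slideDeath₂ i =>
    simp only [List.map_cons, List.map_nil] at hs ht
    obtain ⟨s1, hs1, hs2⟩ := Wh.Homf.bl_cons hs
    obtain ⟨s2, hs3, hs4⟩ := Wh.Homf.bl_cons hs2
    obtain rfl := Wh.Homf.bl_nil hs4
    obtain ⟨t1, ht1, ht2⟩ := Wh.Homf.bl_cons ht
    obtain ⟨t2, ht3, ht4⟩ := Wh.Homf.bl_cons ht2
    obtain rfl := Wh.Homf.bl_nil ht4
    simp only [toO, Wh.OPiece.below, Option.ite_none_right_eq_some, Option.some.injEq] at hs1 hs3 ht1 ht3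
    obtain ⟨c1, rfl⟩ := hs1
    obtain ⟨c2, rfl⟩ := hs3
    obtain ⟨c3, rfl⟩ := ht1
    obtain ⟨c4, rfl⟩ := ht3
    try clear hs
    try clear ht
    refine Prod.ext (by first | rfl | (simp only; omega)) (funext fun k => ?_)
    simp only [Wh.insD, Wh.delD, Wh.swpD] at *
    split_ifs at * <;> first | rfl | (exfalso; omega) | (congr 1; omega) | (simp_all; done)
  | third i =>
    simp only [List.map_cons, List.map_nil] at hs ht
    obtain ⟨s1, hs1, hs2⟩ := Wh.Homf.bl_cons hs
    obtain ⟨s2, hs3, hs4⟩ := Wh.Homf.bl_cons hs2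
    obtain ⟨s3, hs5, hs6⟩ := Wh.Homf.bl_cons hs4
    obtain rfl := Wh.Homf.bl_nil hs6
    obtain ⟨t1, ht1, ht2⟩ := Wh.Homf.bl_cons ht
    obtain ⟨t2, ht3, ht4⟩ := Wh.Homf.bl_cons ht2
    obtain ⟨t3, ht5, ht6⟩ := Wh.Homf.bl_cons ht4
    obtain rfl := Wh.Homf.bl_nil ht6
    simp only [toO, Wh.OPiece.below, Option.ite_none_right_eq_some, Option.some.injEq] at hs1 hs3 ht1 ht3 hs5 ht5
    obtain ⟨c1, rfl⟩ := hs1
    obtain ⟨c2, rfl⟩ := hs3
    obtain ⟨c3, rfl⟩ := ht1
    obtain ⟨c4, rfl⟩ := ht3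
    obtain ⟨c5, rfl⟩ := hs5
    obtain ⟨c6, rfl⟩ := ht5
    try clear hs
    try clear ht
    refine Prod.ext (by first | rfl | (simp only; omega)) (funext fun k => ?_)
    simp only [Wh.insD, Wh.delD, Wh.swpD] at *
    split_ifs at * <;> first | rfl | (exfalso; omega) | (congr 1; omega) | (simp_all; done)

theorem step_toO {D E : Knot.Word} (h : Knot.Step D E) : Wh.OStep (D.map toO) (E.map toO) := by
  obtain ⟨x, l, r, y, hm, hl, hr⟩ := h
  have c1 := closed_toO hl
  have c2 := closed_toO hr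
  rw [List.map_append, List.map_append] at c1 c2 ⊢
  rw [List.map_append, List.map_append]
  obtain ⟨s, t, u, h1, h2, -, -⟩ := Wh.Homf.split3 c1
  obtain ⟨s', t', u', h1', h2', -, -⟩ := Wh.Homf.split3 c2
  rw [h1] at h1'
  obtain rfl := Option.some.inj h1'
  refine Wh.OStep.mk _ _ _ _ s.1 s.2 (move_local hm) h1 ?_ c1 c2
  rw [h2, h2', move_below hm h2 h2']

theorem isotopic_toO {D E : Knot.Word} (h : Knot.Isotopic D E) :
    Wh.OIsotopic (D.map toO) (E.map toO) := by
  induction h with
  | rel D E h => exact Relation.EqvGen.rel _ _ (step_toO h)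
  | refl D => exact Relation.EqvGen.refl _
  | symm D E _ ih => exact Relation.EqvGen.symm _ _ ih
  | trans D E F _ _ ih1 ih2 => exact Relation.EqvGen.trans _ _ _ ih1 ih2

/-- The HOMFLY polynomial. -/
noncomputable def val (D : Knot.Word) : Wh.Rlm := Wh.Homf.Lam (D.map toO)

theorem val_isotopic {D E : Knot.Word} (h : Knot.Isotopic D E) : val D = val E :=
  Wh.Homf.Lam_isotopy _ _ (isotopic_toO h)

theorem val_circle : val Knot.circle = 1 := Wh.Homf.Lam_circle

theorem dirs_toO {x : Knot.Word} (h : Knot.Fits x Front.empty) {i : ℕ}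
    (hi : i < (Knot.run x Front.empty).n) :
    Wh.dirs (x.map toO) i = (Knot.run x Front.empty).dir i := by
  obtain ⟨d', e1, e2⟩ := below_word x Wh.noD Front.empty
    (fun k hk => absurd hk (Nat.not_lt_zero k)) h
  have e1 : Wh.below (x.map toO) 0 Wh.noD = some ((Knot.run x Front.empty).n, d') := e1
  rw [Wh.dirs, e1, e2 i hi]
  rfl

theorem val_parallel (x : Knot.Word) (i : ℕ) (y : Knot.Word) (h : Closed (x ++ [.pos i] ++ y))
    (hd : (Knot.run x Front.empty).dir i = (Knot.run x Front.empty).dir (i + 1)) :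
    Wh.lPow (-1) * val (x ++ [.pos i] ++ y) - Wh.lPow 1 * val (x ++ [.neg i] ++ y) =
      Wh.mPow 1 * val (x ++ y) := by
  have hf := h.1
  rw [fits_append, fits_append] at hf
  have hn : i + 2 ≤ (Knot.run x Front.empty).n := hf.1.2.1
  have e := Wh.Homf.Lam_rules.parallel (x.map toO) i (y.map toO)
    (by simpa [toO] using closed_toO h)
    (by rw [dirs_toO hf.1.1 (by omega), dirs_toO hf.1.1 (by omega), hd])
  simp only [smul_eq_mul] at e
  simpa [val, toO] using e

theorem val_anti (x : Knot.Word) (i : ℕ) (y : Knot.Word) (h : Closed (x ++ [.neg i] ++ y))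
    (hd : (Knot.run x Front.empty).dir i ≠ (Knot.run x Front.empty).dir (i + 1)) :
    Wh.lPow (-1) * val (x ++ [.neg i] ++ y) - Wh.lPow 1 * val (x ++ [.pos i] ++ y) =
      Wh.mPow 1 * val (x ++ [.death i, .birth i ((Knot.run x Front.empty).dir (i + 1))] ++ y) := by
  have hf := h.1
  rw [fits_append, fits_append] at hf
  have hn : i + 2 ≤ (Knot.run x Front.empty).n := hf.1.2.1
  have e := Wh.Homf.Lam_rules.antiparallel (x.map toO) i (y.map toO)
    (by simpa [toO] using closed_toO h)
    (by rw [dirs_toO hf.1.1 (by omega), dirs_toO hf.1.1 (by omega)]; exact hd)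
  rw [dirs_toO hf.1.1 (by omega)] at e
  simp only [smul_eq_mul] at e
  simpa [val, toO] using e

end Pool.Agent.K7.H38.TB
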