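import Pool.Agent.K7.H38.TB.Deg
import Pool.Agent.K7.H38.TB.Defs

/-!
# The value of a diagram with twists
-/

set_option autoImplicit false

namespace Pool.Agent.K7.H38.TB

open Pool.Agent.H835R2 Pool.Agent.H835R2.Knot
open Pool.Agent.Helper454
open Pool.Agent.Helper454.Wh (Rlm lPow mPow)
open LaurentPolynomial

noncomputable section

/-- The value in `ℤ[m^{±1}][ε]`. -/
def w (D : Knot.Word) : Jt := J (val D)

theorem w_iso {D E : Knot.Word} (h : Knot.Isotopic D E) : w D = w E := by
  unfold w
  rw [val_isotopic h]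

/-- The variable `m`. -/
def m : Jt := inl (T 1)
/-- Its inverse. -/
def m' : Jt := inl (T (-1))

theorem m_m' : m * m' = 1 := mu.val_inv

theorem J_m : J (mPow 1) = m := J_mPow 1

theorem iso_move {x l r y : Knot.Word} (h : Knot.Move l r) (h1 : Closed (x ++ l ++ y))
    (h2 : Closed (x ++ r ++ y)) : Knot.Isotopic (x ++ l ++ y) (x ++ r ++ y) :=
  Relation.EqvGen.rel _ _ (Knot.Step.mk x l r y h h1 h2)

/-- A move inside a closed diagram. -/
theorem move_of {x l r y : Knot.Word} (h : Knot.Move l r) (h1 : Closed (x ++ l ++ y))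
    (hr : Knot.Fits r (Knot.run x Front.empty))
    (he : Eqv (Knot.run l (Knot.run x Front.empty)) (Knot.run r (Knot.run x Front.empty))) :
    Closed (x ++ r ++ y) ∧ Knot.Isotopic (x ++ l ++ y) (x ++ r ++ y) :=
  ⟨closed_replace h1 hr he, iso_move h h1 (closed_replace h1 hr he)⟩

/-- A move backwards inside a closed diagram. -/
theorem move_of' {x l r y : Knot.Word} (h : Knot.Move r l) (h1 : Closed (x ++ l ++ y))
    (hr : Knot.Fits r (Knot.run x Front.empty))
    (he : Eqv (Knot.run l (Knot.run x Front.empty)) (Knot.run r (Knot.run x Front.empty))) :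
    Closed (x ++ r ++ y) ∧ Knot.Isotopic (x ++ l ++ y) (x ++ r ++ y) :=
  ⟨closed_replace h1 hr he,
    Relation.EqvGen.symm _ _ (iso_move h (closed_replace h1 hr he) h1)⟩

theorem sw_left (i : ℕ) : sw i i = i + 1 := by unfold sw; rw [if_pos rfl]
theorem sw_right (i : ℕ) : sw i (i + 1) = i := by unfold sw; rw [if_neg (by omega), if_pos rfl]

theorem act_act (p q : Knot.Piece) (i : ℕ) (hp : p = .pos i ∨ p = .neg i)
    (hq : q = .pos i ∨ q = .neg i) (F : Front) : q.act (p.act F) = F := by
  have hs : ∀ k, sw i (sw i k) = k := by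
    intro k
    unfold sw
    split_ifs <;> omega
  have : (Knot.Piece.pos i).act ((Knot.Piece.pos i).act F) = F := by
    cases F with
    | mk n dir fin =>
      show Front.mk n (fun p => dir (sw i (sw i p)))
        (fun p => sw i (sw i (fin (sw i (sw i p))))) = _
      simp only [hs]
  rcases hp with rfl | rfl <;> rcases hq with rfl | rfl <;> exact this

/-- two crossings -/
theorem double_closed {x y : Knot.Word} {p q : Knot.Piece} {i : ℕ} (hp : p = .pos i ∨ p = .neg i)
    (hq : q = .pos i ∨ q = .neg i) (h : Closed (x ++ [p, q] ++ y)) : Closed (x ++ y) := by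
  have := closed_replace (r := []) h trivial
    (by show Eqv (q.act (p.act _)) _; rw [act_act p q i hp hq]; exact Eqv.refl _)
  rwa [List.append_nil] at this

theorem not_eq {a b : Bool} (h : a ≠ b) : b = !a := by cases a <;> cases b <;> simp_all

/-- a crossing before a minimum -/
theorem death_absorb {x y : Knot.Word} {p : Knot.Piece} {i : ℕ} (hp : p = .pos i ∨ p = .neg i)
    (h : Closed (x ++ [p, .death i] ++ y)) :
    Closed (x ++ [.death i] ++ y) ∧ w (x ++ [p, .death i] ++ y) = w (x ++ [.death i] ++ y) := by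
  have hf := h.1
  rw [fits_append, fits_append] at hf
  have h1 := hf.1.2
  set F := Knot.run x Front.empty with hF
  have hi : i + 2 ≤ F.n := by
    rcases hp with rfl | rfl
    · exact h1.1
    · exact h1.1
  have hd : F.dir (sw i (i + 1)) = !F.dir (sw i i) := by
    rcases hp with rfl | rfl
    · exact h1.2.1.2
    · exact h1.2.1.2
  have hd' : F.dir (i + 1) = !F.dir i := by
    rw [sw_left, sw_right] at hd
    rw [hd, Bool.not_not]
  have hfit : Knot.Fits [.death i] F := ⟨⟨hi, hd'⟩, trivial⟩
  have hq : Eqv (Knot.run [p, .death i] F) (Knot.run [.death i] F) := by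
    have : Eqv (Knot.run [.pos i, .death i] F) (Knot.run [.death i] F) := by
      refine ⟨rfl, fun k _ => ?_⟩
      show F.dir (sw i (up i k)) = F.dir (up i k)
      congr 1
      unfold sw up
      split_ifs <;> omega
    rcases hp with rfl | rfl
    · exact this
    · exact this
  rcases hp with rfl | rfl
  · obtain ⟨a, b⟩ := move_of (Knot.Move.firstDeathPos i) h hfit hq
    exact ⟨a, w_iso b⟩
  · obtain ⟨a, b⟩ := move_of (Knot.Move.firstDeathNeg i) h hfit hq
    exact ⟨a, w_iso b⟩

/-- a crossing after a maximum -/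
theorem birth_absorb {x y : Knot.Word} {p : Knot.Piece} {i : ℕ} {b : Bool}
    (hp : p = .pos i ∨ p = .neg i) (h : Closed (x ++ [.birth i b, p] ++ y)) :
    Closed (x ++ [.birth i (!b)] ++ y) ∧
      w (x ++ [.birth i b, p] ++ y) = w (x ++ [.birth i (!b)] ++ y) := by
  have hf := h.1
  rw [fits_append, fits_append] at hf
  have h1 := hf.1.2
  set F := Knot.run x Front.empty with hF
  have hi : i ≤ F.n := h1.1
  have hfit : Knot.Fits [.birth i (!b)] F := ⟨hi, trivial⟩
  have hq : Eqv (Knot.run [.birth i b, p] F) (Knot.run [.birth i (!b)] F) := by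
    have : Eqv (Knot.run [.birth i b, .pos i] F) (Knot.run [.birth i (!b)] F) := by
      refine ⟨rfl, fun k _ => ?_⟩
      show (fun p => if p < i then F.dir p else if p = i then b else if p = i + 1 then !b
        else F.dir (p - 2)) (sw i k) = (if k < i then F.dir k else if k = i then !b else
        if k = i + 1 then !!b else F.dir (k - 2))
      simp only [sw]
      split_ifs <;> first | rfl | (exfalso; omega) | (rw [Bool.not_not])
    rcases hp with rfl | rfl
    · exact this
    · exact this
  rcases hp with rfl | rfl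
  · obtain ⟨a, b⟩ := move_of (Knot.Move.firstBirthPos i b) h hfit hq
    exact ⟨a, w_iso b⟩
  · obtain ⟨a, b⟩ := move_of (Knot.Move.firstBirthNeg i b) h hfit hq
    exact ⟨a, w_iso b⟩

theorem birth_absorb2 {x y : Knot.Word} {p : Knot.Piece} {i : ℕ} {b : Bool} (n : ℕ)
    (hp : p = .pos i ∨ p = .neg i)
    (h : Closed (x ++ [.birth i b] ++ (List.replicate (2 * n) p ++ y))) :
    Closed (x ++ [.birth i b] ++ y) ∧
      w (x ++ [.birth i b] ++ (List.replicate (2 * n) p ++ y)) = w (x ++ [.birth i b] ++ y) := by
  induction n with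
  | zero => exact ⟨h, rfl⟩
  | succ n ih =>
    have e : List.replicate (2 * (n + 1)) p = p :: p :: List.replicate (2 * n) p := by
      rw [show 2 * (n + 1) = 2 * n + 1 + 1 by ring]; rfl
    rw [e] at h ⊢
    have e1 : x ++ [.birth i b] ++ (p :: p :: List.replicate (2 * n) p ++ y) =
        x ++ [.birth i b, p] ++ (p :: (List.replicate (2 * n) p ++ y)) := by simp
    rw [e1] at h ⊢
    obtain ⟨h2, h3⟩ := birth_absorb hp h
    have e2 : x ++ [.birth i (!b)] ++ (p :: (List.replicate (2 * n) p ++ y)) =
        x ++ [.birth i (!b), p] ++ (List.replicate (2 * n) p ++ y) := by simp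
    rw [e2] at h2 h3
    obtain ⟨h4, h5⟩ := birth_absorb hp h2
    rw [Bool.not_not] at h4 h5
    obtain ⟨h6, h7⟩ := ih h4
    exact ⟨h6, h3.trans (h5.trans h7)⟩

/-- two positive crossings of strands with opposite directions -/
theorem double_neg {x y : Knot.Word} {i : ℕ} (h : Closed (x ++ [.neg i, .neg i] ++ y))
    (hd : (Knot.run x Front.empty).dir i ≠ (Knot.run x Front.empty).dir (i + 1)) :
    w (x ++ [.neg i, .neg i] ++ y) = (1 + 2 * ep) * w (x ++ y) + m * (1 + ep) *
      w (x ++ [.death i, .birth i ((Knot.run x Front.empty).dir i)] ++ y) := by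
  set F := Knot.run x Front.empty with hF
  have hr : Knot.run (x ++ [.neg i]) Front.empty = (Knot.Piece.neg i).act F := by
    rw [run_append]; rfl
  have s1 := sw_right i
  have s2 := sw_left i
  have d1 : ((Knot.Piece.neg i).act F).dir i = F.dir (i + 1) := by
    show F.dir (sw i i) = _; rw [s2]
  have d2 : ((Knot.Piece.neg i).act F).dir (i + 1) = F.dir i := by
    show F.dir (sw i (i + 1)) = _; rw [s1]
  have e0 : x ++ [.neg i, .neg i] ++ y = (x ++ [.neg i]) ++ [.neg i] ++ y := by simp
  have h0 := h
  rw [e0] at h0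
  have key := val_anti (x ++ [.neg i]) i y h0 (by rw [hr, d1, d2]; exact hd.symm)
  rw [hr, d2] at key
  -- the first term
  have c1 : Closed (x ++ y) := double_closed (Or.inr rfl) (Or.inr rfl) h
  have c2 : Closed (x ++ [.neg i, .pos i] ++ y) := by
    refine closed_replace h ?_ (by
      show Eqv ((Knot.Piece.neg i).act ((Knot.Piece.neg i).act F))
        ((Knot.Piece.pos i).act ((Knot.Piece.neg i).act F))
      rw [act_act _ _ i (Or.inr rfl) (Or.inr rfl), act_act _ _ i (Or.inr rfl) (Or.inl rfl)]
      exact Eqv.refl _)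
    have hf := h.1
    rw [fits_append, fits_append] at hf
    exact hf.1.2
  have i1 : w (x ++ [.neg i, .pos i] ++ y) = w (x ++ y) := by
    have := iso_move (x := x) (y := y) (Knot.Move.second₂ i) c2 (by simpa using c1)
    rw [List.append_nil] at this
    exact w_iso this
  -- the second term
  have c3 : Closed (x ++ [.neg i, .death i] ++ ([.birth i (F.dir i)] ++ y)) := by
    have hf := h0.1
    rw [fits_append, fits_append] at hf
    have hi : i + 2 ≤ ((Knot.Piece.neg i).act F).n := by rw [← hr]; exact hf.1.2.1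
    obtain ⟨e1, e2⟩ := eqv_anti (F := (Knot.Piece.neg i).act F) (i := i) hi
      (by rw [d1, d2]; exact hd.symm) (.neg i) (Or.inr rfl)
    rw [d2] at e1 e2
    have := closed_replace h0 (by rw [hr]; exact e1) (by rw [hr]; exact e2)
    simpa using this
  obtain ⟨-, i2⟩ := death_absorb (Or.inr rfl) c3
  have k2 : w (x ++ [.neg i, .neg i] ++ y) * (1 - ep) - (1 + ep) * w (x ++ y) =
      m * w (x ++ [.death i, .birth i (F.dir i)] ++ y) := by
    have := congrArg J key
    rw [map_sub, map_mul, map_mul, map_mul, J_l, J_l', J_m] at this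
    have e3 : (x ++ [.neg i]) ++ [.pos i] ++ y = x ++ [.neg i, .pos i] ++ y := by simp
    have e4 : (x ++ [.neg i]) ++ [.death i, .birth i (F.dir i)] ++ y =
      x ++ [.neg i, .death i] ++ ([.birth i (F.dir i)] ++ y) := by simp
    have e5 : x ++ [.death i] ++ ([.birth i (F.dir i)] ++ y) =
      x ++ [.death i, .birth i (F.dir i)] ++ y := by simp
    rw [e3, e4, ← e0] at this
    change (1 - ep) * w _ - (1 + ep) * w _ = m * w _ at this
    rw [i1, i2, e5] at this
    linear_combination this
  linear_combination (1 + ep) * k2 + (w (x ++ [.neg i, .neg i] ++ y) + w (x ++ y)) * ep_sq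

/-- two negative crossings of strands with opposite directions -/
theorem double_pos {x y : Knot.Word} {i : ℕ} (h : Closed (x ++ [.pos i, .pos i] ++ y))
    (hd : (Knot.run x Front.empty).dir i ≠ (Knot.run x Front.empty).dir (i + 1)) :
    w (x ++ [.pos i, .pos i] ++ y) = (1 - 2 * ep) * w (x ++ y) - m * (1 - ep) *
      w (x ++ [.death i, .birth i ((Knot.run x Front.empty).dir i)] ++ y) := by
  set F := Knot.run x Front.empty with hF
  have hr : Knot.run (x ++ [.pos i]) Front.empty = (Knot.Piece.pos i).act F := by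
    rw [run_append]; rfl
  have s1 := sw_right i
  have s2 := sw_left i
  have d1 : ((Knot.Piece.pos i).act F).dir i = F.dir (i + 1) := by
    show F.dir (sw i i) = _; rw [s2]
  have d2 : ((Knot.Piece.pos i).act F).dir (i + 1) = F.dir i := by
    show F.dir (sw i (i + 1)) = _; rw [s1]
  have e0 : x ++ [.pos i, .pos i] ++ y = (x ++ [.pos i]) ++ [.pos i] ++ y := by simp
  have h0 := h
  rw [e0] at h0
  have h0' : Closed ((x ++ [.pos i]) ++ [.neg i] ++ y) :=
    (Y466.FT.Same.switch (x ++ [.pos i]) y (.pos i)).closed.2 h0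
  have key := val_anti (x ++ [.pos i]) i y h0' (by rw [hr, d1, d2]; exact hd.symm)
  rw [hr, d2] at key
  -- the first term
  have c1 : Closed (x ++ y) := double_closed (Or.inl rfl) (Or.inl rfl) h
  have c2 : Closed (x ++ [.pos i, .neg i] ++ y) := by simpa using h0'
  have i1 : w (x ++ [.pos i, .neg i] ++ y) = w (x ++ y) := by
    have := iso_move (x := x) (y := y) (Knot.Move.second₁ i) c2 (by simpa using c1)
    rw [List.append_nil] at this
    exact w_iso this
  -- the second term
  have c3 : Closed (x ++ [.pos i, .death i] ++ ([.birth i (F.dir i)] ++ y)) := by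
    have hf := h0.1
    rw [fits_append, fits_append] at hf
    have hi : i + 2 ≤ ((Knot.Piece.pos i).act F).n := by rw [← hr]; exact hf.1.2.1
    obtain ⟨e1, e2⟩ := eqv_anti (F := (Knot.Piece.pos i).act F) (i := i) hi
      (by rw [d1, d2]; exact hd.symm) (.pos i) (Or.inl rfl)
    rw [d2] at e1 e2
    have := closed_replace h0 (by rw [hr]; exact e1) (by rw [hr]; exact e2)
    simpa using this
  obtain ⟨-, i2⟩ := death_absorb (Or.inl rfl) c3
  have k2 : (1 - ep) * w (x ++ y) - (1 + ep) * w (x ++ [.pos i, .pos i] ++ y) =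
      m * w (x ++ [.death i, .birth i (F.dir i)] ++ y) := by
    have := congrArg J key
    rw [map_sub, map_mul, map_mul, map_mul, J_l, J_l', J_m] at this
    have e3 : (x ++ [.pos i]) ++ [.neg i] ++ y = x ++ [.pos i, .neg i] ++ y := by simp
    have e4 : (x ++ [.pos i]) ++ [.death i, .birth i (F.dir i)] ++ y =
      x ++ [.pos i, .death i] ++ ([.birth i (F.dir i)] ++ y) := by simp
    have e5 : x ++ [.death i] ++ ([.birth i (F.dir i)] ++ y) =
      x ++ [.death i, .birth i (F.dir i)] ++ y := by simp
    rw [e3, e4, ← e0] at this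
    change (1 - ep) * w _ - (1 + ep) * w _ = m * w _ at this
    rw [i1, i2, e5] at this
    exact this
  linear_combination (-(1 - ep)) * k2 + (w (x ++ [.pos i, .pos i] ++ y) + w (x ++ y)) * ep_sq

/-- The hook `i` absorbs the twists below it. -/
theorem hook_twist {x y : Knot.Word} {i : ℕ} {c : Bool} {b : ℤ}
    (h : Closed (x ++ [.death i, .birth i c] ++ (twist i b ++ y))) :
    Closed (x ++ [.death i, .birth i c] ++ y) ∧
      w (x ++ [.death i, .birth i c] ++ (twist i b ++ y)) =
        w (x ++ [.death i, .birth i c] ++ y) := by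
  have e : ∀ z : Knot.Word, x ++ [.death i, .birth i c] ++ z = (x ++ [.death i]) ++ [.birth i c] ++ z := by
    intro z; simp
  rw [e] at h
  rw [e, e]
  refine birth_absorb2 b.natAbs ?_ h
  split_ifs
  · exact Or.inr rfl
  · exact Or.inl rfl

/-- The value of a diagram with `b` full twists of two strands with opposite directions. -/
theorem w_twist {x y : Knot.Word} {i : ℕ} (b : ℤ) (h : Closed (x ++ (twist i b ++ y)))
    (hi : i + 2 ≤ (Knot.run x Front.empty).n)
    (hd : (Knot.run x Front.empty).dir i ≠ (Knot.run x Front.empty).dir (i + 1)) :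
    Closed (x ++ y) ∧ w (x ++ (twist i b ++ y)) =
      (1 + 2 * (b : Jt) * ep) * w (x ++ y) + m * ((b : Jt) + (b : Jt) ^ 2 * ep) *
        w (x ++ [.death i, .birth i ((Knot.run x Front.empty).dir i)] ++ y) := by
  set F := Knot.run x Front.empty with hF
  have hfx : Knot.Fits x Front.empty := by
    have := h.1
    rw [fits_append] at this
    exact this.1
  -- the diagram with the hook
  have hook : ∀ z, Closed (x ++ z) → Closed (x ++ [.death i, .birth i (F.dir i)] ++ z) := by
    intro z hz
    have hz' : Closed (x ++ [] ++ z) := by simpa using hz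
    refine closed_replace hz' ⟨⟨hi, not_eq hd⟩, ⟨show i ≤ F.n - 2 by omega, trivial⟩⟩ ?_
    refine ⟨show F.n = F.n - 2 + 2 by omega, fun k _ => ?_⟩
    show F.dir k = (if k < i then F.dir (up i k) else if k = i then F.dir i else
      if k = i + 1 then !F.dir i else F.dir (up i (k - 2)))
    unfold up
    split_ifs with h1 h2 h3 h4 h5 <;> first
      | rfl
      | (exfalso; omega)
      | (rw [h3]; exact not_eq hd)
      | (rw [h2])
      | (congr 1; omega)
  rcases le_or_gt 0 b with hb | hb
  · obtain ⟨n, rfl⟩ := Int.eq_ofNat_of_zero_le hb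
    have e : twist i (n : ℤ) = List.replicate (2 * n) (.neg i) := by
      unfold twist
      rw [if_pos hb, Int.natAbs_natCast]
    rw [e] at h ⊢
    clear e hb
    push_cast
    induction n with
    | zero =>
      refine ⟨h, ?_⟩
      simp
    | succ n ih =>
      have e : List.replicate (2 * (n + 1)) (Knot.Piece.neg i) =
          [.neg i, .neg i] ++ List.replicate (2 * n) (.neg i) := by
        rw [show 2 * (n + 1) = 2 * n + 1 + 1 by ring]; rfl
      have e1 : x ++ (List.replicate (2 * (n + 1)) (Knot.Piece.neg i) ++ y) =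
          x ++ [.neg i, .neg i] ++ (List.replicate (2 * n) (.neg i) ++ y) := by rw [e]; simp
      rw [e1] at h ⊢
      have c1 := double_closed (Or.inr rfl) (Or.inr rfl) h
      obtain ⟨c2, i2⟩ := ih c1
      refine ⟨c2, ?_⟩
      rw [double_neg h hd, i2]
      have c3 : Closed (x ++ [.death i, .birth i (F.dir i)] ++
          (List.replicate (2 * n) (.neg i) ++ y)) := hook _ c1
      have e3 : ∀ z : Knot.Word, x ++ [.death i, .birth i (F.dir i)] ++ z =
          (x ++ [.death i]) ++ [.birth i (F.dir i)] ++ z := by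
        intro z; simp
      have i3 : w (x ++ [.death i, .birth i (F.dir i)] ++ (List.replicate (2 * n) (.neg i) ++ y)) =
          w (x ++ [.death i, .birth i (F.dir i)] ++ y) := by
        rw [e3] at c3
        rw [e3, e3]
        exact (birth_absorb2 n (Or.inr rfl) c3).2
      rw [i3]
      push_cast
      linear_combination (2 * (n : Jt) * 2 * w (x ++ y) + 2 * m * (n : Jt) ^ 2 *
        w (x ++ [.death i, .birth i (F.dir i)] ++ y)) * ep_sq
  · obtain ⟨n, hn⟩ := Int.eq_ofNat_of_zero_le (show 0 ≤ -b by omega)
    obtain rfl : b = -(n : ℤ) := by omega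
    have e : twist i (-(n : ℤ)) = List.replicate (2 * n) (.pos i) := by
      unfold twist
      rw [if_neg (by omega), Int.natAbs_neg, Int.natAbs_natCast]
    rw [e] at h ⊢
    clear e hb hn
    push_cast
    induction n with
    | zero =>
      refine ⟨h, ?_⟩
      simp
    | succ n ih =>
      have e : List.replicate (2 * (n + 1)) (Knot.Piece.pos i) =
          [.pos i, .pos i] ++ List.replicate (2 * n) (.pos i) := by
        rw [show 2 * (n + 1) = 2 * n + 1 + 1 by ring]; rfl
      have e1 : x ++ (List.replicate (2 * (n + 1)) (Knot.Piece.pos i) ++ y) =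
          x ++ [.pos i, .pos i] ++ (List.replicate (2 * n) (.pos i) ++ y) := by rw [e]; simp
      rw [e1] at h ⊢
      have c1 := double_closed (Or.inl rfl) (Or.inl rfl) h
      obtain ⟨c2, i2⟩ := ih c1
      refine ⟨c2, ?_⟩
      rw [double_pos h hd, i2]
      have c3 : Closed (x ++ [.death i, .birth i (F.dir i)] ++
          (List.replicate (2 * n) (.pos i) ++ y)) := hook _ c1
      have e3 : ∀ z : Knot.Word, x ++ [.death i, .birth i (F.dir i)] ++ z =
          (x ++ [.death i]) ++ [.birth i (F.dir i)] ++ z := by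
        intro z; simp
      have i3 : w (x ++ [.death i, .birth i (F.dir i)] ++ (List.replicate (2 * n) (.pos i) ++ y)) =
          w (x ++ [.death i, .birth i (F.dir i)] ++ y) := by
        rw [e3] at c3
        rw [e3, e3]
        exact (birth_absorb2 n (Or.inl rfl) c3).2
      rw [i3]
      push_cast
      linear_combination (2 * (n : Jt) * 2 * w (x ++ y) - 2 * m * (n : Jt) ^ 2 *
        w (x ++ [.death i, .birth i (F.dir i)] ++ y)) * ep_sq

end

end Pool.Agent.K7.H38.TB
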