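import Pool.Agent.K7.H38.TB.Eval
import Pool.Agent.K7.H38.TB.Quad

/-!
# The Conway polynomial and the derivative of the HOMFLY polynomial of a two-bridge knot
-/

set_option autoImplicit false

namespace Pool.Agent.K7.H38.TB

open Pool.Agent.H835R2 Pool.Agent.H835R2.Knot
open Pool.Agent.Helper454
open Pool.Agent.Helper454.Wh (Rlm lPow mPow)
open LaurentPolynomial

noncomputable section

/-- Substituting `m ^ 2`. -/
def psi : Polynomial ℤ →+* LaurentPolynomial ℤ :=
  Polynomial.eval₂RingHom (Int.castRingHom _) (T 2)

/-- Substituting `m ^ 2`. -/
def phi : Polynomial ℤ →+* Jt := inl.comp psi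

theorem phi_X : phi Polynomial.X = m * m := by
  show inl (psi Polynomial.X) = inl (T 1) * inl (T 1)
  rw [← map_mul, ← T_add, psi, Polynomial.coe_eval₂RingHom, Polynomial.eval₂_X]
  rfl

theorem phi_C (b : ℤ) : phi (Polynomial.C b) = (b : Jt) := by
  have : (Polynomial.C b : Polynomial ℤ) = (b : Polynomial ℤ) := by simp
  rw [this, map_intCast]

theorem W_formula (p : Bool) (l : List ℤ) :
    WA p l = phi (quad p l).A + ep * ((l.sum : Jt) * phi (quad p l).A -
      (phi (quad p l).B + phi (quad p l).C)) ∧
    WB p l = m * phi (quad p l).C + ep * ((l.sum : Jt) * m * phi (quad p l).C -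
      m' * (phi (quad p l).A + phi (quad p l).D)) := by
  induction l generalizing p with
  | nil =>
    rw [WA_nil, WB_nil]
    cases p <;> simp only [quad, List.sum_nil, map_one, map_zero, Int.cast_zero] <;>
      constructor <;> ring
  | cons b l ih =>
    have hm := m_m'
    have he := ep_sq
    cases p with
    | true =>
      obtain ⟨h1, h2⟩ := ih false
      rw [WA_true, WB_true, h1, h2]
      simp only [quad, List.sum_cons, map_add, map_mul, phi_X, phi_C, Int.cast_add]
      constructor
      · linear_combination (-(b : Jt) * (phi (quad false l).A + phi (quad false l).D) * ep) * hm +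
          (2 * (b : Jt) * ((l.sum : Jt) * phi (quad false l).A -
            (phi (quad false l).B + phi (quad false l).C)) + m * (b : Jt) ^ 2 *
            ((l.sum : Jt) * m * phi (quad false l).C -
              m' * (phi (quad false l).A + phi (quad false l).D))) * he
      · linear_combination (ep * (b : Jt) * m * phi (quad false l).C) * hm
    | false =>
      obtain ⟨h1, h2⟩ := ih true
      rw [WA_false, WB_false, h1, h2]
      simp only [quad, List.sum_cons, map_add, map_mul, phi_X, phi_C, Int.cast_add]
      constructor
      · ring
      · linear_combination (ep * (b : Jt) * m * phi (quad true l).B) * hm +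
          (2 * (b : Jt) * ((l.sum : Jt) * m * phi (quad true l).C -
              m' * (phi (quad true l).A + phi (quad true l).D)) + m * (b : Jt) ^ 2 *
            ((l.sum : Jt) * phi (quad true l).A -
              (phi (quad true l).B + phi (quad true l).C))) * he

theorem psi_coeff (p : Polynomial ℤ) (k : ℕ) : (psi p).coeff (2 * k) = p.coeff k := by
  induction p using Polynomial.induction_on' with
  | add p q hp hq =>
    rw [map_add, AddMonoidAlgebra.coeff_add, Finsupp.add_apply, hp, hq, Polynomial.coeff_add]
  | monomial n a =>
    rw [psi, Polynomial.coe_eval₂RingHom, Polynomial.eval₂_monomial, T_pow]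
    have : ((Int.castRingHom (LaurentPolynomial ℤ)) a * T (n * 2)) = C a * T (n * 2) := by simp
    rw [this, ← LaurentPolynomial.single_eq_C_mul_T, AddMonoidAlgebra.coeff_single,
      Finsupp.single_apply, Polynomial.coeff_monomial]
    split_ifs <;> first | rfl | omega

theorem w_twoBridge (l : List ℤ) : w (twoBridge l) = phi (quad true l).A +
    ep * phi (Polynomial.C l.sum * (quad true l).A - ((quad true l).B + (quad true l).C)) := by
  rw [twoBridge_eq]
  show WA true l = _
  rw [(W_formula true l).1, map_sub, map_mul, map_add, phi_C]

theorem cv_twoBridge (l : List ℤ) (k : ℕ) :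
    cv (2 * k) (val (twoBridge l)) = (quad true l).A.coeff k := by
  show (w (twoBridge l)).fst.coeff (2 * k) = _
  rw [w_twoBridge, ← psi_coeff]
  simp [phi, inl]

theorem cd_twoBridge (l : List ℤ) (k : ℕ) :
    cd (2 * k) (val (twoBridge l)) = (Polynomial.C l.sum * (quad true l).A -
      ((quad true l).B + (quad true l).C)).coeff k := by
  show (w (twoBridge l)).snd.coeff (2 * k) = _
  rw [w_twoBridge, ← psi_coeff]
  simp [phi, inl]

end

end Pool.Agent.K7.H38.TB
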